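import Pool.Agent.Lib.MP_7946c7_pr.Defs

/-!
# Stream H: definitions (identical to those of `IfH`; this file and `H/Main` replace `IfH`)
-/

open Finset MeasureTheory

namespace RST

open Classical in
/-- The vertices of `W` whose component in `R` restricted to `W` has size at least `k`. -/
noncomputable def gg {V : Type} (R : V → V → Prop) (W : Finset V) (k : ℕ) : Finset V :=
  W.filter fun v => k ≤ (cmp R W v).card

/-- Lower bound for the density of the giant component at `(1+x)/n`. -/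
noncomputable def Mx (x : ℝ) : ℝ :=
  if x ≤ 1 / 4 then 6 / 5 * x else if x ≤ 1 / 2 then 7 / 20 else if x ≤ 1 then 1 / 2 else 7 / 10

/-- Parameters of section H: base scale `xs`, size threshold `k`. -/
structure HPar (a : ℝ) (n : ℕ) (xs : ℝ) (k : ℕ) : Prop where
  lo : (n : ℝ) ^ (-(1 / 3 : ℝ) + a) ≤ xs
  hi : xs ≤ (n : ℝ) ^ (-a)
  klo : (n : ℝ) ^ (a / 2) / xs ^ 2 ≤ k
  khi : (k : ℝ) ≤ xs * n / 1000

/-- The scales `1.05^j xs`. -/
noncomputable def sc (xs : ℝ) (j : ℕ) : ℝ := (21 / 20) ^ j * xs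

/-- The graph facts used for hanging pieces, for the label function `lab`. -/
structure HangFacts {V : Type} [Fintype V] (lab : Sym2 V → ℝ) (xs : ℝ) (k j₂ : ℕ) : Prop where
  conn : ∀ j ≤ j₂, ∀ u ∈ gg (gr lab (sc xs j)) univ k, ∀ v ∈ gg (gr lab (sc xs j)) univ k,
    Rch (gr lab (sc xs j)) univ u v
  hang : ∀ j < j₂, ∀ (γ : ℕ → V) (ℓ : ℕ), IsSAW (gr lab (11 / 10 * sc xs j)) γ ℓ →
    (∀ i ≤ ℓ, γ i ∉ gg (gr lab (sc xs j)) univ k) →
    (ℓ : ℝ) < 100 * Real.log (Fintype.card V) / min (sc xs j) 1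
  full : ∀ u v, Rch (gr lab (sc xs j₂)) univ u v

end RST
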