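import Pool.Agent.Lib.MP_7946c7_pr.H.R3

/-!
# H/Main: the interface theorems of stream H
-/

open Finset MeasureTheory

namespace RST

/-- H1, connectedness of the giant. -/
theorem gg_conn (a : ℝ) (ha : 0 < a) (ha1 : a ≤ 1 / 10) : ∃ n₀ : ℕ, ∀ (V : Type) [Fintype V]
    [DecidableEq V], n₀ ≤ Fintype.card V → ∀ (xs x : ℝ) (k : ℕ), HPar a (Fintype.card V) xs k →
    xs ≤ x → x ≤ 4 * Real.log (Fintype.card V) →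
    PP (bern ((1 + x) / Fintype.card V)) {ξ : Sym2 V → Bool | ∃ u ∈ gg (bg ξ) univ k,
      ∃ v ∈ gg (bg ξ) univ k, ¬ Rch (bg ξ) univ u v} ≤ 1 / (Fintype.card V : ℝ) ^ 4 :=
  H.gg_conn a ha ha1

/-- H1, mass of the giant, with superpolynomially small error. -/
theorem gg_mass (a : ℝ) (ha : 0 < a) (ha1 : a ≤ 1 / 10) : ∃ n₀ : ℕ, ∀ (V : Type) [Fintype V]
    [DecidableEq V], n₀ ≤ Fintype.card V → ∀ (xs x : ℝ) (k : ℕ), HPar a (Fintype.card V) xs k →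
    xs ≤ x → x ≤ 4 * Real.log (Fintype.card V) → ∀ W : Finset V,
    Fintype.card V * (1 - xs / 1000) ≤ W.card →
    PP (bern ((1 + x) / Fintype.card V)) {ξ : Sym2 V → Bool |
      ((gg (bg ξ) W k).card : ℝ) < Mx x * Fintype.card V} ≤
      Real.exp (-(Fintype.card V : ℝ) ^ (a / 8)) :=
  H.gg_mass a ha ha1

/-- H2. -/
theorem hang (a : ℝ) (ha : 0 < a) (ha1 : a ≤ 1 / 10) : ∃ n₀ : ℕ, ∀ (V : Type) [Fintype V]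
    [DecidableEq V], n₀ ≤ Fintype.card V → ∀ (xs x : ℝ) (k : ℕ), HPar a (Fintype.card V) xs k →
    xs ≤ x → x ≤ 4 * Real.log (Fintype.card V) →
    ∀ (B : Type) [Fintype B] [DecidableEq B] (q : B → ℝ) (A A' : Finset B), IsLaw q → A ⊆ A' →
    qs q A = (1 + x) / Fintype.card V → qs q A' = (1 + 11 / 10 * x) / Fintype.card V →
    PP q {b : Sym2 V → B | ∃ (γ : ℕ → V) (ℓ : ℕ),
      100 * Real.log (Fintype.card V) / min x 1 ≤ ℓ ∧ IsSAW (adj A' b) γ ℓ ∧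
      ∀ i ≤ ℓ, γ i ∉ gg (adj A b) univ k} ≤ 1 / (Fintype.card V : ℝ) ^ 2 :=
  H.hang a ha ha1

/-- Connectivity of `G(n,p)`. -/
theorem gnp_conn : ∃ n₀ : ℕ, ∀ (V : Type) [Fintype V] [DecidableEq V], n₀ ≤ Fintype.card V →
    ∀ p : ℝ, 3 * Real.log (Fintype.card V) ≤ p * Fintype.card V → p ≤ 1 →
    PP (bern p) {ξ : Sym2 V → Bool | ∃ u v, ¬ Rch (bg ξ) univ u v} ≤
      1 / (Fintype.card V : ℝ) ^ (1 / 4 : ℝ) :=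
  H.gnp_conn

/-- H4 (deterministic). `T` has the property of `tree_labels` with slack `s ≤ 0.04 xs`. -/
theorem hanging_tree (a : ℝ) (ha : 0 < a) (ha1 : a ≤ 1 / 10) : ∃ n₀ : ℕ, ∀ (V : Type) [Fintype V]
    [DecidableEq V], n₀ ≤ Fintype.card V → ∀ (lab : Sym2 V → ℝ) (xs s : ℝ) (k j₂ : ℕ),
    HPar a (Fintype.card V) xs k → 3 * Real.log (Fintype.card V) ≤ sc xs j₂ →
    sc xs j₂ ≤ 4 * Real.log (Fintype.card V) →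
    HangFacts lab xs k j₂ → s ≤ xs / 25 → ∀ T : SimpleGraph V, T.IsTree →
    (∀ (x : ℝ) (γ : ℕ → V) (ℓ : ℕ), IsSAW T.Adj γ ℓ → Rch (gr lab x) univ (γ 0) (γ ℓ) →
      ∀ i < ℓ, lab s(γ i, γ (i + 1)) ≤ x + s) →
    ∀ (γ : ℕ → V) (ℓ : ℕ), IsSAW T.Adj γ ℓ → γ ℓ ∈ gg (gr lab xs) univ k →
      ∃ i ≤ ℓ, (i : ℝ) ≤ 2500 * Real.log (Fintype.card V) / xs ∧ γ i ∈ gg (gr lab xs) univ k ∧
        ∀ j, i ≤ j → j < ℓ → lab s(γ j, γ (j + 1)) ≤ 26 / 25 * xs :=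
  H.hanging_tree a ha ha1

/-- Probability of the facts, for the continuous labels. -/
theorem hang_facts_prob (a : ℝ) (ha : 0 < a) (ha1 : a ≤ 1 / 10) : ∃ n₀ : ℕ, ∀ n : ℕ, n₀ ≤ n →
    ∀ (xs : ℝ) (k j₂ : ℕ), HPar a n xs k → 3 * Real.log n ≤ sc xs j₂ → sc xs j₂ ≤ 4 * Real.log n →
    ∃ A : Set (Sym2 (Fin n) → ℝ), MeasurableSet A ∧
      (labLaw n Aᶜ).toReal ≤ 2 / (n : ℝ) ^ (1 / 4 : ℝ) ∧
      ∀ ω ∈ A, HangFacts (xlab n ω) xs k j₂ :=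
  H.hang_facts_prob a ha ha1

/-- REGIME 3. -/
theorem regime3 (C ε : ℝ) (hC : 0 < C) (hε : 0 < ε) : ∃ n₀ : ℕ, ∀ n : ℕ, n₀ ≤ n → ∀ β : ℝ,
    C * (n : ℝ) ^ (4 / 3 : ℝ) ≤ β →
    1 - ε ≤ avg n β {T | (n : ℝ) ^ (1 / 3 - ε) ≤ (T.diam : ℝ) ∧
      (T.diam : ℝ) ≤ (n : ℝ) ^ (1 / 3 + ε)} :=
  H.regime3 C ε hC hε

end RST
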