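import Pool.Agent.Lib.MP_7946c7_pr.H.HDefs

/-!
# JOB H/Asy: asymptotic inequalities
-/

open Finset Filter

namespace RST.H

private theorem Asy_log_ev (C c : ℝ) (m : ℕ) (hc : 0 < c) :
    ∀ᶠ n : ℕ in atTop, C * Real.log n ^ m ≤ (n : ℝ) ^ c := by
  have h1 := isLittleO_log_rpow_rpow_atTop (m : ℝ) hc
  have h2 : 0 < 1 / (|C| + 1) := by positivity
  have h3 := h1.def h2
  have h4 := tendsto_natCast_atTop_atTop (R := ℝ) |>.eventually h3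
  filter_upwards [h4, eventually_ge_atTop 1] with n hn h1n
  have h5 : (1 : ℝ) ≤ n := by exact_mod_cast h1n
  have hl : 0 ≤ Real.log n := Real.log_nonneg h5
  rw [Real.rpow_natCast, Real.norm_of_nonneg (pow_nonneg hl m),
    Real.norm_of_nonneg (Real.rpow_nonneg (by linarith) c)] at hn
  have h6 : 0 < |C| + 1 := by positivity
  have h7 : (|C| + 1) * Real.log n ^ m ≤ (n : ℝ) ^ c := by
    have := mul_le_mul_of_nonneg_left hn h6.le
    calc (|C| + 1) * Real.log n ^ m ≤ (|C| + 1) * (1 / (|C| + 1) * (n : ℝ) ^ c) := this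
      _ = (n : ℝ) ^ c := by field_simp
  have h8 : C * Real.log n ^ m ≤ (|C| + 1) * Real.log n ^ m := by
    apply mul_le_mul_of_nonneg_right _ (pow_nonneg hl m)
    linarith [le_abs_self C]
  linarith

theorem asy_log (C c : ℝ) (m : ℕ) (hc : 0 < c) : ∃ n₀ : ℕ, ∀ n : ℕ, n₀ ≤ n →
    C * Real.log n ^ m ≤ (n : ℝ) ^ c :=
  eventually_atTop.1 (Asy_log_ev C c m hc)

private theorem Asy_quad_ev (C E F c : ℝ) (hc : 0 < c) :
    ∀ᶠ n : ℕ in atTop, C * Real.log n ^ 2 + E * Real.log n + F ≤ (n : ℝ) ^ c := by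
  filter_upwards [Asy_log_ev (3 * C) c 2 hc, Asy_log_ev (3 * E) c 1 hc,
    Asy_log_ev (3 * F) c 0 hc] with n h1 h2 h3
  rw [pow_one] at h2
  rw [pow_zero] at h3
  linarith

theorem asy_quad (C E F c : ℝ) (hc : 0 < c) : ∃ n₀ : ℕ, ∀ n : ℕ, n₀ ≤ n →
    C * Real.log n ^ 2 + E * Real.log n + F ≤ (n : ℝ) ^ c :=
  eventually_atTop.1 (Asy_quad_ev C E F c hc)

private theorem Asy_hpar (a : ℝ) (ha : 0 < a) (_ha1 : a ≤ 1 / 10) :
    ∀ᶠ n : ℕ in atTop, ∀ (xs : ℝ) (k : ℕ), HPar a n xs k →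
      0 < xs ∧ xs ≤ 1 / 10000 ∧ 1 ≤ k ∧ (n : ℝ) ^ (a / 2) ≤ k ∧
      (n : ℝ) ^ (a / 2) ≤ xs ^ 2 * k ∧ (n : ℝ) ^ (3 * a) ≤ xs ^ 3 * n ∧
      (n : ℝ) ^ (2 / 3 : ℝ) ≤ xs * n ∧ 100 * Real.log n / xs + 3 ≤ xs * n / 1000 := by
  filter_upwards [Asy_log_ev 10000 a 0 ha, Asy_quad_ev 0 100000 3000 (1 / 3) (by norm_num),
    eventually_ge_atTop 1] with n h1 h2 h3 xs k hp
  have hn1 : (1 : ℝ) ≤ n := by exact_mod_cast h3
  have hn0 : (0 : ℝ) < n := by linarith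
  have hl : 0 ≤ Real.log n := Real.log_nonneg hn1
  rw [pow_zero, mul_one] at h1
  have hlo := hp.lo
  have hxs0 : 0 < xs := lt_of_lt_of_le (Real.rpow_pos_of_pos hn0 _) hlo
  have hxs1 : xs ≤ 1 / 10000 := by
    refine hp.hi.trans ?_
    rw [Real.rpow_neg hn0.le, ← one_div]
    exact one_div_le_one_div_of_le (by norm_num) h1
  have hx2 : 0 < xs ^ 2 := by positivity
  have hx21 : xs ^ 2 ≤ 1 := by nlinarith
  have hna : 0 < (n : ℝ) ^ (a / 2) := Real.rpow_pos_of_pos hn0 _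
  have hna1 : 1 ≤ (n : ℝ) ^ (a / 2) := Real.one_le_rpow hn1 (by linarith)
  have hk1 : (n : ℝ) ^ (a / 2) ≤ xs ^ 2 * k := by
    have := hp.klo
    rw [div_le_iff₀ hx2] at this
    linarith
  have hk0 : (0 : ℝ) ≤ k := Nat.cast_nonneg k
  have hk2 : (n : ℝ) ^ (a / 2) ≤ k := by nlinarith
  have hk3 : 1 ≤ k := by
    have : (1 : ℝ) ≤ k := hna1.trans hk2
    exact_mod_cast this
  have h4 : (n : ℝ) ^ (-(1 / 3 : ℝ) + a) * n = (n : ℝ) ^ (2 / 3 + a : ℝ) := by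
    nth_rewrite 2 [← Real.rpow_one (n : ℝ)]
    rw [← Real.rpow_add hn0]
    congr 1
    ring
  have h5 : (n : ℝ) ^ (2 / 3 : ℝ) ≤ xs * n := by
    calc (n : ℝ) ^ (2 / 3 : ℝ) ≤ (n : ℝ) ^ (2 / 3 + a : ℝ) :=
          Real.rpow_le_rpow_of_exponent_le hn1 (by linarith)
      _ = (n : ℝ) ^ (-(1 / 3 : ℝ) + a) * n := h4.symm
      _ ≤ xs * n := mul_le_mul_of_nonneg_right hlo hn0.le
  refine ⟨hxs0, hxs1, hk3, hk2, hk1, ?_, h5, ?_⟩
  · have h6 : ((n : ℝ) ^ (-(1 / 3 : ℝ) + a)) ^ 3 * n = (n : ℝ) ^ (3 * a) := by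
      rw [← Real.rpow_natCast, ← Real.rpow_mul hn0.le]
      nth_rewrite 2 [← Real.rpow_one (n : ℝ)]
      rw [← Real.rpow_add hn0]
      congr 1
      push_cast
      ring
    rw [← h6]
    apply mul_le_mul_of_nonneg_right _ hn0.le
    exact pow_le_pow_left₀ (Real.rpow_nonneg hn0.le _) hlo 3
  · have h7 : 1 / xs ≤ (n : ℝ) ^ (1 / 3 : ℝ) := by
      have h8 : (n : ℝ) ^ (-(1 / 3 : ℝ)) ≤ xs :=
        (Real.rpow_le_rpow_of_exponent_le hn1 (by linarith)).trans hlo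
      rw [Real.rpow_neg hn0.le] at h8
      rw [div_le_iff₀ hxs0]
      have h9 : 0 < (n : ℝ) ^ (1 / 3 : ℝ) := Real.rpow_pos_of_pos hn0 _
      have h10 := mul_le_mul_of_nonneg_left h8 h9.le
      rwa [mul_inv_cancel₀ h9.ne'] at h10
    have h11 : (n : ℝ) ^ (1 / 3 : ℝ) * (n : ℝ) ^ (1 / 3 : ℝ) = (n : ℝ) ^ (2 / 3 : ℝ) := by
      rw [← Real.rpow_add hn0]
      congr 1
      norm_num
    have h12 : 1 ≤ (n : ℝ) ^ (1 / 3 : ℝ) := Real.one_le_rpow hn1 (by norm_num)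
    set z : ℝ := (n : ℝ) ^ (1 / 3 : ℝ) with hz
    have h13 : 100 * Real.log n / xs = 100 * Real.log n * (1 / xs) := by ring
    have h14 : 100 * Real.log n * (1 / xs) ≤ 100 * Real.log n * z :=
      mul_le_mul_of_nonneg_left h7 (by positivity)
    have h15 : (100000 * Real.log n + 3000) * z ≤ z * z :=
      mul_le_mul_of_nonneg_right (by linarith) (by linarith)
    have h16 : 100 * Real.log n * z + 3 ≤ z * z / 1000 := by nlinarith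
    rw [h13]
    linarith

theorem hpar_facts (a : ℝ) (ha : 0 < a) (ha1 : a ≤ 1 / 10) : ∃ n₀ : ℕ, ∀ n : ℕ, n₀ ≤ n →
    ∀ (xs : ℝ) (k : ℕ), HPar a n xs k → 0 < xs ∧ xs ≤ 1 / 10000 ∧ 1 ≤ k ∧ (n : ℝ) ^ (a / 2) ≤ k ∧
      (n : ℝ) ^ (a / 2) ≤ xs ^ 2 * k ∧ (n : ℝ) ^ (3 * a) ≤ xs ^ 3 * n ∧
      (n : ℝ) ^ (2 / 3 : ℝ) ≤ xs * n ∧ 100 * Real.log n / xs + 3 ≤ xs * n / 1000 :=
  eventually_atTop.1 (Asy_hpar a ha ha1)

theorem j_le (a : ℝ) (ha : 0 < a) (ha1 : a ≤ 1 / 10) : ∃ n₀ : ℕ, ∀ n : ℕ, n₀ ≤ n →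
    ∀ (xs : ℝ) (k j : ℕ), HPar a n xs k → sc xs j ≤ 4 * Real.log n → (j : ℝ) ≤ 21 * Real.log n := by
  apply eventually_atTop.1
  filter_upwards [Asy_hpar a ha ha1, Asy_quad_ev 0 4 0 (1 / 3) (by norm_num),
    eventually_ge_atTop 1] with n h1 h2 h3 xs k j hp hj
  obtain ⟨hxs0, -, -, -, -, -, -, -⟩ := h1 xs k hp
  have hn1 : (1 : ℝ) ≤ n := by exact_mod_cast h3
  have hn0 : (0 : ℝ) < n := by linarith
  have hl : 0 ≤ Real.log n := Real.log_nonneg hn1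
  have h7 : 1 / xs ≤ (n : ℝ) ^ (1 / 3 : ℝ) := by
    have h8 : (n : ℝ) ^ (-(1 / 3 : ℝ)) ≤ xs :=
      (Real.rpow_le_rpow_of_exponent_le hn1 (by linarith)).trans hp.lo
    rw [Real.rpow_neg hn0.le] at h8
    rw [div_le_iff₀ hxs0]
    have h9 : 0 < (n : ℝ) ^ (1 / 3 : ℝ) := Real.rpow_pos_of_pos hn0 _
    have h10 := mul_le_mul_of_nonneg_left h8 h9.le
    rwa [mul_inv_cancel₀ h9.ne'] at h10
  have h8 : (21 / 20 : ℝ) ^ j ≤ n := by
    unfold sc at hj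
    have h9 : (21 / 20 : ℝ) ^ j = (21 / 20 : ℝ) ^ j * xs * (1 / xs) := by field_simp
    rw [h9]
    have h10 : 0 ≤ 1 / xs := by positivity
    have h12 : 0 ≤ 4 * Real.log n := by positivity
    calc (21 / 20 : ℝ) ^ j * xs * (1 / xs) ≤ 4 * Real.log n * (n : ℝ) ^ (1 / 3 : ℝ) :=
          mul_le_mul hj h7 h10 h12
      _ ≤ (n : ℝ) ^ (1 / 3 : ℝ) * (n : ℝ) ^ (1 / 3 : ℝ) :=
          mul_le_mul_of_nonneg_right (by linarith) (Real.rpow_nonneg hn0.le _)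
      _ = (n : ℝ) ^ (2 / 3 : ℝ) := by
          rw [← Real.rpow_add hn0]
          congr 1
          norm_num
      _ ≤ (n : ℝ) ^ (1 : ℝ) := Real.rpow_le_rpow_of_exponent_le hn1 (by norm_num)
      _ = n := Real.rpow_one _
  have h9 : (j : ℝ) * Real.log (21 / 20) ≤ Real.log n := by
    rw [← Real.log_pow]
    exact Real.log_le_log (by positivity) h8
  have h10 : 1 / 21 ≤ Real.log (21 / 20 : ℝ) := by
    have := Real.one_sub_inv_le_log_of_pos (show (0 : ℝ) < 21 / 20 by norm_num)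
    norm_num at this ⊢
    linarith
  have h11 : (j : ℝ) * (1 / 21) ≤ (j : ℝ) * Real.log (21 / 20) :=
    mul_le_mul_of_nonneg_left h10 (Nat.cast_nonneg j)
  linarith

theorem exists_j (a : ℝ) (ha : 0 < a) (ha1 : a ≤ 1 / 10) : ∃ n₀ : ℕ, ∀ n : ℕ, n₀ ≤ n →
    ∀ (xs : ℝ) (k : ℕ), HPar a n xs k →
      ∃ j₂ : ℕ, 3 * Real.log n ≤ sc xs j₂ ∧ sc xs j₂ ≤ 4 * Real.log n := by
  apply eventually_atTop.1
  have hlog : ∀ᶠ n : ℕ in atTop, (1 : ℝ) ≤ Real.log n :=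
    (Real.tendsto_log_atTop.comp (tendsto_natCast_atTop_atTop (R := ℝ))).eventually_ge_atTop 1
  filter_upwards [Asy_hpar a ha ha1, hlog] with n h1 h2 xs k hp
  obtain ⟨hxs0, hxs1, -, -, -, -, -, -⟩ := h1 xs k hp
  have hex : ∃ j : ℕ, 3 * Real.log n ≤ sc xs j := by
    obtain ⟨j, hj⟩ := pow_unbounded_of_one_lt (3 * Real.log n / xs) (show (1 : ℝ) < 21 / 20 by norm_num)
    refine ⟨j, ?_⟩
    unfold sc
    rw [div_lt_iff₀ hxs0] at hj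
    exact hj.le
  classical
  refine ⟨Nat.find hex, Nat.find_spec hex, ?_⟩
  rcases Nat.eq_zero_or_pos (Nat.find hex) with h0 | h0
  · have := Nat.find_spec hex
    rw [h0] at this ⊢
    unfold sc at this ⊢
    rw [pow_zero, one_mul] at this ⊢
    linarith
  · have h3 := Nat.find_min hex (Nat.sub_lt h0 one_pos)
    rw [not_le] at h3
    have h4 : sc xs (Nat.find hex) = 21 / 20 * sc xs (Nat.find hex - 1) := by
      obtain ⟨m, hm⟩ : ∃ m, Nat.find hex = m + 1 := ⟨Nat.find hex - 1, by omega⟩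
      rw [hm, Nat.add_sub_cancel]
      unfold sc
      rw [pow_succ]
      ring
    rw [h4]
    linarith

end RST.H
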