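import Pool.Agent.Lib.MP_7946c7_pr.G.Defs
import Pool.Agent.Lib.MP_7946c7_pr.H.HDefs

/-!
# JOB H/Cmp: reachability, components, `gg` (elementary)

`Rch R W` is `Relation.ReflTransGen` of the restricted relation; `cmp R W v` is a filter of `W`.
* `Rch_symm`, `Rch_trans`, `Rch_mono`: `ReflTransGen.symmetric`, `.trans`, `.mono`.
* `mem_cmp`, `self_mem_cmp`: unfold. `cmp_eq_of_mem`: from symmetry and transitivity.
* `gg_of_adj`: `w ∈ gg R (univ \ Γ) k`, `R z w`: `cmp R (univ \ Γ) w ⊆ cmp R univ w = cmp R univ z`.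
* `gg_subset_of_card`: if `k ≤ |cmp R W v|` then the whole component is in `gg R W k` (`cmp_eq_of_mem`).
* `rch_of_cmp`: not reachable in `univ` means that the components are different.
* `rch_exit`: if `u ∈ X`, `v ∉ X` and `u, v` are joined, some edge leaves `X` (induction on the path). `exists_cut`: take `X = cmp R univ u`.
* `adj_eq_bg`: both are `u ≠ v ∧ ...`.
-/

open Finset

namespace RST.H

section

variable {V : Type} {R R' : V → V → Prop} {W W' : Finset V} {u v w : V} {k : ℕ}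

theorem Rch_symm (hR : ∀ u v, R u v → R v u) (h : Rch R W u v) : Rch R W v u := by
  unfold Rch at *
  induction h with
  | refl => exact Relation.ReflTransGen.refl
  | tail _ hbc ih =>
    exact Relation.ReflTransGen.head ⟨hR _ _ hbc.1, hbc.2.2, hbc.2.1⟩ ih

theorem Rch_trans (h : Rch R W u v) (h' : Rch R W v w) : Rch R W u w := by
  exact Relation.ReflTransGen.trans h h'

theorem Rch_mono (h : ∀ u v, R u v → R' u v) (hW : W ⊆ W') (h' : Rch R W u v) :
    Rch R' W' u v := by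
  unfold Rch at *
  induction h' with
  | refl => exact Relation.ReflTransGen.refl
  | tail _ hbc ih =>
    exact Relation.ReflTransGen.tail ih ⟨h _ _ hbc.1, hW hbc.2.1, hW hbc.2.2⟩

theorem mem_cmp : w ∈ cmp R W v ↔ w ∈ W ∧ v ∈ W ∧ Rch R W v w := by
  classical
  unfold cmp
  rw [Finset.mem_filter]

theorem self_mem_cmp (hv : v ∈ W) : v ∈ cmp R W v := by
  exact mem_cmp.2 ⟨hv, hv, Relation.ReflTransGen.refl⟩

theorem cmp_subset : cmp R W v ⊆ W := by
  intro x hx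
  exact (mem_cmp.1 hx).1

theorem cmp_eq_of_mem (hR : ∀ u v, R u v → R v u) (h : w ∈ cmp R W v) :
    cmp R W w = cmp R W v := by
  obtain ⟨hw, hv, hvw⟩ := mem_cmp.1 h
  ext x
  rw [mem_cmp, mem_cmp]
  constructor
  · rintro ⟨hx, _, hwx⟩
    exact ⟨hx, hv, Rch_trans hvw hwx⟩
  · rintro ⟨hx, _, hvx⟩
    exact ⟨hx, hw, Rch_trans (Rch_symm hR hvw) hvx⟩

theorem cmp_mono (h : ∀ u v, R u v → R' u v) (hW : W ⊆ W') (v : V) :
    cmp R W v ⊆ cmp R' W' v := by
  intro x hx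
  obtain ⟨hx1, hv, hvx⟩ := mem_cmp.1 hx
  exact mem_cmp.2 ⟨hW hx1, hW hv, Rch_mono h hW hvx⟩

theorem mem_gg : v ∈ gg R W k ↔ v ∈ W ∧ k ≤ (cmp R W v).card := by
  classical
  unfold gg
  rw [Finset.mem_filter]

theorem gg_mono (h : ∀ u v, R u v → R' u v) (hW : W ⊆ W') : gg R W k ⊆ gg R' W' k := by
  intro x hx
  obtain ⟨hx1, hx2⟩ := mem_gg.1 hx
  exact mem_gg.2 ⟨hW hx1, hx2.trans (Finset.card_le_card (cmp_mono h hW x))⟩

theorem cmp_subset_gg (hR : ∀ u v, R u v → R v u) (h : k ≤ (cmp R W v).card) :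
    cmp R W v ⊆ gg R W k := by
  intro x hx
  refine mem_gg.2 ⟨cmp_subset hx, ?_⟩
  rw [cmp_eq_of_mem hR hx]
  exact h

end

section

variable {V : Type} [Fintype V] [DecidableEq V] {R : V → V → Prop}

theorem gg_of_adj (hR : ∀ u v, R u v → R v u) {Γ : Finset V} {z w : V} {k : ℕ}
    (hw : w ∈ gg R (univ \ Γ) k) (hzw : R z w) : z ∈ gg R univ k := by
  obtain ⟨hw1, hw2⟩ := mem_gg.1 hw
  refine mem_gg.2 ⟨mem_univ _, hw2.trans ?_⟩
  have h1 : cmp R (univ \ Γ) w ⊆ cmp R univ w := cmp_mono (fun _ _ h => h) (subset_univ _) w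
  have h2 : w ∈ cmp R univ z := mem_cmp.2 ⟨mem_univ _, mem_univ _,
    Relation.ReflTransGen.single ⟨hzw, mem_univ _, mem_univ _⟩⟩
  rw [← cmp_eq_of_mem hR h2]
  exact Finset.card_le_card h1

theorem rch_of_cmp (hR : ∀ u v, R u v → R v u) {u v : V} (h : ¬ Rch R univ u v) :
    cmp R univ u ≠ cmp R univ v := by
  intro he
  have h1 : v ∈ cmp R univ v := self_mem_cmp (mem_univ v)
  rw [← he] at h1
  exact h (mem_cmp.1 h1).2.2

/-- If `u, v` are not joined, some nonempty proper set has no edge leaving it, and we may suppose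
that it has at most half of the vertices (replace it by its complement). -/
theorem exists_cut (hR : ∀ u v, R u v → R v u) {u v : V} (h : ¬ Rch R univ u v) :
    ∃ X : Finset V, X.Nonempty ∧ 2 * X.card ≤ Fintype.card V ∧ ∀ x ∈ X, ∀ y ∈ univ \ X, ¬ R x y := by
  have hstep : ∀ x ∈ cmp R univ u, ∀ y, R x y → y ∈ cmp R univ u := by
    intro x hx y hxy
    obtain ⟨_, _, h1⟩ := mem_cmp.1 hx
    exact mem_cmp.2 ⟨mem_univ _, mem_univ _, Rch_trans h1
      (Relation.ReflTransGen.single ⟨hxy, mem_univ _, mem_univ _⟩)⟩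
  have hu : u ∈ cmp R univ u := self_mem_cmp (mem_univ u)
  have hv : v ∉ cmp R univ u := fun hv => h (mem_cmp.1 hv).2.2
  by_cases hc : 2 * (cmp R univ u).card ≤ Fintype.card V
  · refine ⟨cmp R univ u, ⟨u, hu⟩, hc, ?_⟩
    intro x hx y hy hxy
    exact (Finset.mem_sdiff.1 hy).2 (hstep x hx y hxy)
  · refine ⟨univ \ cmp R univ u, ⟨v, Finset.mem_sdiff.2 ⟨mem_univ _, hv⟩⟩, ?_, ?_⟩
    · rw [Finset.card_sdiff_of_subset (subset_univ _), Finset.card_univ]
      omega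
    · intro x hx y hy hxy
      have hy' : y ∈ cmp R univ u := by
        by_contra hcon
        exact (Finset.mem_sdiff.1 hy).2 (Finset.mem_sdiff.2 ⟨mem_univ _, hcon⟩)
      exact (Finset.mem_sdiff.1 hx).2 (hstep y hy' x (hR x y hxy))

end

section

variable {V B : Type}

theorem bg_symm (ξ : Sym2 V → Bool) : ∀ u v, bg ξ u v → bg ξ v u := by
  rintro u v ⟨h1, h2⟩
  refine ⟨h1.symm, ?_⟩
  rw [Sym2.eq_swap]
  exact h2

theorem adj_symm (A : Finset B) (b : Sym2 V → B) : ∀ u v, adj A b u v → adj A b v u := by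
  rintro u v ⟨h1, h2⟩
  refine ⟨h1.symm, ?_⟩
  rw [Sym2.eq_swap]
  exact h2

theorem gr_symm (lab : Sym2 V → ℝ) (x : ℝ) : ∀ u v, gr lab x u v → gr lab x v u := by
  rintro u v ⟨h1, h2⟩
  refine ⟨h1.symm, ?_⟩
  rw [Sym2.eq_swap]
  exact h2

theorem gr_mono (lab : Sym2 V → ℝ) {x y : ℝ} (h : x ≤ y) : ∀ u v, gr lab x u v → gr lab y u v := by
  rintro u v ⟨h1, h2⟩
  exact ⟨h1, h2.trans h⟩

theorem bg_mono {ξ ξ' : Sym2 V → Bool} (h : ∀ e, ξ e = true → ξ' e = true) :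
    ∀ u v, bg ξ u v → bg ξ' u v := by
  rintro u v ⟨h1, h2⟩
  exact ⟨h1, h _ h2⟩

theorem adj_eq_bg [DecidableEq B] (A : Finset B) (b : Sym2 V → B) :
    adj A b = bg (fun e => decide (b e ∈ A)) := by
  funext u v
  unfold adj bg
  simp

theorem saw_mono {R R' : V → V → Prop} (h : ∀ u v, R u v → R' u v) {γ : ℕ → V} {ℓ : ℕ}
    (hγ : IsSAW R γ ℓ) : IsSAW R' γ ℓ := by
  exact ⟨fun i hi => h _ _ (hγ.1 i hi), hγ.2⟩

/-- A piece of a self-avoiding walk. -/
theorem saw_shift {R : V → V → Prop} {γ : ℕ → V} {ℓ : ℕ} (hγ : IsSAW R γ ℓ) (i m : ℕ)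
    (h : i + m ≤ ℓ) : IsSAW R (fun j => γ (i + j)) m := by
  refine ⟨fun j hj => hγ.1 (i + j) (by omega), fun j hj j' hj' he => ?_⟩
  have := hγ.2 (i + j) (by omega) (i + j') (by omega) he
  omega

/-- A piece of a self-avoiding walk, backwards. -/
theorem saw_rev {R : V → V → Prop} (hR : ∀ u v, R u v → R v u) {γ : ℕ → V} {ℓ : ℕ}
    (hγ : IsSAW R γ ℓ) (i m : ℕ) (hm : m ≤ i) (h : i ≤ ℓ) :
    IsSAW R (fun j => γ (i - j)) m := by
  refine ⟨fun j hj => ?_, fun j hj j' hj' he => ?_⟩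
  · apply hR
    have h1 := hγ.1 (i - (j + 1)) (by omega)
    have h2 : i - (j + 1) + 1 = i - j := by omega
    rw [h2] at h1
    exact h1
  · have := hγ.2 (i - j) (by omega) (i - j') (by omega) he
    omega

end

end RST.H
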