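import Pool.Agent.Lib.MP_7946c7_pr.IfB
import Pool.Agent.Lib.MP_7946c7_pr.IfG

/-!
# JOB H/Mono: Bernoulli law, monotonicity in `p`, product formula

* `isLaw_bern'`: `bern p` is the function of `isLaw_bern`.
* `EE_prod`: write the product over `s` as a product over all `e` of `if e ∈ s then f e (b e) else 1`, and use
  `Finset.prod_univ_sum` / `Fintype.piFinset_univ` (`∏ e, ∑ x, g e x = ∑ b, ∏ e, g e (b e)`); for `e ∉ s` the factor is `∑ q x = 1`.
* `PP_bern_mono`: if `p = 1` trivial (`p' = 1`). Otherwise use `two_rounds` for `B = Fin 3`, `q = ![p, p' - p, 1 - p']`, `A = {0}`, `A' = {0, 1}`: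
  `PP (bern p') S = EE q (1_S (decide (b e ∈ A')))` (`marginal`) `= EE (bern p) (EE (bern ..) 1_S (ξ or ζ)) ≤ EE (bern p) 1_S`.
* `PP_none`: the indicator is `∏ e ∈ T, if b e ∈ A then 0 else 1`, `T` = image of `Γ ×ˢ D` under `(u, w) ↦ s(u, w)`, which is injective on it (`Γ`, `D` disjoint); `EE_prod`;
  `∑ x, q x * (if x ∈ A then 0 else 1) = 1 - qs q A`.
-/

open Finset

namespace RST.H

theorem isLaw_bern' {p : ℝ} (h0 : 0 ≤ p) (h1 : p ≤ 1) : IsLaw (bern p) :=
  isLaw_bern h0 h1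

private theorem Mono_EE_def {ι B : Type} [Fintype ι] [DecidableEq ι] [Fintype B] (q : B → ℝ)
    (F : (ι → B) → ℝ) : EE q F = ∑ b : ι → B, (∏ e, q (b e)) * F b := by
  unfold EE
  refine Finset.sum_congr ?_ fun b _ => rfl
  ext b
  simp only [Finset.mem_univ]

theorem EE_prod {ι B : Type} [Fintype ι] [DecidableEq ι] [Fintype B] {q : B → ℝ} (hq : IsLaw q)
    (s : Finset ι) (f : ι → B → ℝ) :
    EE q (fun b : ι → B => ∏ e ∈ s, f e (b e)) = ∏ e ∈ s, ∑ x, q x * f e x := by
  have h1 : ∀ b : ι → B, (∏ e, q (b e)) * ∏ e ∈ s, f e (b e) =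
      ∏ e, q (b e) * (if e ∈ s then f e (b e) else 1) := by
    intro b
    rw [Finset.prod_mul_distrib]
    congr 1
    rw [Finset.prod_ite_mem, Finset.univ_inter]
  rw [Mono_EE_def, Finset.sum_congr rfl fun b _ => h1 b]
  rw [← Fintype.prod_sum (fun (e : ι) (x : B) => q x * (if e ∈ s then f e x else 1))]
  have h2 : ∀ e, ∑ x, q x * (if e ∈ s then f e x else 1) =
      if e ∈ s then ∑ x, q x * f e x else 1 := by
    intro e
    by_cases he : e ∈ s
    · simp [he]
    · simp [he, hq.sum_one]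
  rw [Finset.prod_congr rfl fun e _ => h2 e, Finset.prod_ite_mem, Finset.univ_inter]

theorem qs_le_one {B : Type} [Fintype B] {q : B → ℝ} (hq : IsLaw q) (A : Finset B) :
    0 ≤ qs q A ∧ qs q A ≤ 1 := by
  refine ⟨Finset.sum_nonneg fun x _ => hq.nonneg x, ?_⟩
  rw [← hq.sum_one]
  exact Finset.sum_le_sum_of_subset_of_nonneg (Finset.subset_univ A) fun x _ _ => hq.nonneg x

/-- The probability of a decreasing event is nonincreasing in `p`. -/
theorem PP_bern_mono {ι : Type} [Fintype ι] [DecidableEq ι] {p p' : ℝ} (h0 : 0 ≤ p) (h : p ≤ p')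
    (h1 : p' ≤ 1) (S : Set (ι → Bool))
    (hS : ∀ ξ ξ' : ι → Bool, (∀ i, ξ i = true → ξ' i = true) → ξ' ∈ S → ξ ∈ S) :
    PP (bern p') S ≤ PP (bern p) S := by
  classical
  have hq : IsLaw (![p, p' - p, 1 - p'] : Fin 3 → ℝ) := by
    constructor
    · intro x
      fin_cases x
      · exact h0
      · exact sub_nonneg.2 h
      · exact sub_nonneg.2 h1
    · rw [Fin.sum_univ_three]
      simp
  have hA : qs (![p, p' - p, 1 - p'] : Fin 3 → ℝ) {0} = p := by
    simp [qs]
  have hA' : qs (![p, p' - p, 1 - p'] : Fin 3 → ℝ) {0, 1} = p' := by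
    simp [qs]
  have m1 := marginal (ι := ι) hq {0} (fun ξ => if ξ ∈ S then (1 : ℝ) else 0)
  have m2 := marginal (ι := ι) hq {0, 1} (fun ξ => if ξ ∈ S then (1 : ℝ) else 0)
  rw [hA] at m1
  rw [hA'] at m2
  unfold PP
  have e1 : EE (bern p) (fun b : ι → Bool => if b ∈ S then (1 : ℝ) else 0) =
      EE (bern p) (fun ξ : ι → Bool => if ξ ∈ S then (1 : ℝ) else 0) := rfl
  calc _ = EE (bern p') (fun ξ : ι → Bool => if ξ ∈ S then (1 : ℝ) else 0) := by congr!
    _ = _ := m2.symm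
    _ ≤ EE (![p, p' - p, 1 - p'] : Fin 3 → ℝ)
        (fun b : ι → Fin 3 => if (fun e => decide (b e ∈ ({0} : Finset (Fin 3)))) ∈ S
          then (1 : ℝ) else 0) := by
        refine EE_mono hq fun b => ?_
        by_cases hb : (fun e => decide (b e ∈ ({0, 1} : Finset (Fin 3)))) ∈ S
        · have : (fun e => decide (b e ∈ ({0} : Finset (Fin 3)))) ∈ S := by
            refine hS _ _ (fun i hi => ?_) hb
            simp only [Finset.mem_singleton, decide_eq_true_eq] at hi
            simp [hi]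
          rw [if_pos hb, if_pos this]
        · rw [if_neg hb]
          split_ifs <;> norm_num
    _ = EE (bern p) (fun ξ : ι → Bool => if ξ ∈ S then (1 : ℝ) else 0) := m1
    _ = _ := by congr!

/-- The probability that there is no edge with bin in `A` between `Γ` and `D`. -/
theorem PP_none {V B : Type} [Fintype V] [DecidableEq V] [Fintype B] [DecidableEq B] {q : B → ℝ}
    (hq : IsLaw q) (A : Finset B) (Γ D : Finset V) (hd : Disjoint Γ D) :
    PP q {b : Sym2 V → B | ∀ u ∈ Γ, ∀ w ∈ D, b s(u, w) ∉ A} =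
      (1 - qs q A) ^ (Γ.card * D.card) := by
  classical
  set T : Finset (Sym2 V) := (Γ ×ˢ D).image fun p => s(p.1, p.2) with hT
  have hcard : T.card = Γ.card * D.card := by
    rw [hT, Finset.card_image_of_injOn, Finset.card_product]
    rintro ⟨u, w⟩ h1 ⟨u', w'⟩ h2 h3
    simp only [Finset.coe_product, Set.mem_prod, Finset.mem_coe] at h1 h2
    rcases Sym2.eq_iff.1 h3 with ⟨a, c⟩ | ⟨a, _⟩
    · exact Prod.ext a c
    · have a' : u = w' := a
      rw [a'] at h1
      exact absurd h2.2 (Finset.disjoint_left.1 hd h1.1)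
  have hind : ∀ b : Sym2 V → B,
      (if b ∈ {b : Sym2 V → B | ∀ u ∈ Γ, ∀ w ∈ D, b s(u, w) ∉ A} then (1 : ℝ) else 0) =
        ∏ e ∈ T, (if b e ∈ A then (0 : ℝ) else 1) := by
    intro b
    by_cases hb : ∀ u ∈ Γ, ∀ w ∈ D, b s(u, w) ∉ A
    · rw [if_pos (by exact hb), Finset.prod_eq_one]
      intro e he
      obtain ⟨⟨u, w⟩, hp, rfl⟩ := Finset.mem_image.1 he
      rw [Finset.mem_product] at hp
      exact if_neg (hb u hp.1 w hp.2)
    · rw [if_neg (by exact hb)]
      push Not at hb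
      obtain ⟨u, hu, w, hw, h⟩ := hb
      have hT' : s(u, w) ∈ T := Finset.mem_image.2 ⟨(u, w), Finset.mem_product.2 ⟨hu, hw⟩, rfl⟩
      have h0 : (if b s(u, w) ∈ A then (0 : ℝ) else 1) = 0 := if_pos h
      exact (Finset.prod_eq_zero hT' h0).symm
  have h2 : PP q {b : Sym2 V → B | ∀ u ∈ Γ, ∀ w ∈ D, b s(u, w) ∉ A} =
      EE q (fun b : Sym2 V → B => ∏ e ∈ T, (if b e ∈ A then (0 : ℝ) else 1)) := by
    unfold PP
    congr 1
    funext b
    rw [← hind b]
    congr!
  rw [h2, EE_prod hq T (fun _ x => if x ∈ A then (0 : ℝ) else 1), Finset.prod_const, hcard]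
  congr 1
  have h3 : ∀ x, q x * (if x ∈ A then (0 : ℝ) else 1) = q x - (if x ∈ A then q x else 0) := by
    intro x
    split_ifs <;> ring
  rw [Finset.sum_congr rfl fun x _ => h3 x, Finset.sum_sub_distrib, hq.sum_one,
    Finset.sum_ite_mem, Finset.univ_inter]
  rfl

end RST.H
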