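import Pool.Agent.Lib.MP_7946c7_pr.H.HDefs

/-!
# JOB H/Num: numerical inequalities

* `one_sub_exp`: for `y ≥ 0`, `S(y) = 1 + y + y^2/2 + y^3/6 + y^4/24 ≤ exp y` (`Real.sum_le_exp_of_nonneg` with 5 terms), so `1 - exp (-y) ≥ 1 - 1/S(y)`.
* `gap_small`: `(1-p)^t ≤ exp (-p t) ≤ exp (-y)`, `y = c t / n ∈ [0, c M]`. It is enough that `(9999/10000) (1 - 1/S(y)) ≥ (101/100) y / c` for `0 ≤ y ≤ c M`, i.e.
  `(9999/10000) (S(y) - 1) ≥ (101/(100 c)) y S(y)`, a polynomial inequality (divide by `y`): values at the right end: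
  `c = 5/4`, `y = 7/16`: `.354257 ≥ .3535`;  `c = 3/2`, `y = 3/4`: `.5271 ≥ .505`;  `c = 2`, `y = 7/5`: `.7498 ≥ .707`; the difference `(9999/10000)(1 + y/2 + y^2/6 + y^3/24) - (101/(100c)) S(y)`
  is decreasing in `y ≥ 0` (all the coefficients of positive powers of `y` are negative for `c = 5/4` and `c = 3/2`; for `c = 2` check directly).
* `rho_le`: `1 + 1.1 x ≤ exp (y)` with `y = (1+x) Mx x - min x 1 / 20`. `x ≤ 1/4`: `y ≥ 1.15 x`, `exp y ≥ 1 + y`. `1/4 < x ≤ 1/2`: `y = .35 + .3 x`;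
  `1/2 < x ≤ 1`: `y = .5 + .45 x`; `x > 1`: `y = .65 + .7 x`; in the three cases `exp y ≥ 1 + y + y^2/2 ≥ 1 + 1.1 x` (`Real.quadratic_le_exp_of_nonneg`).
* `sc` facts: `(21/20)^j ≥ 1`; `sum_inv_sc`: geometric sum with ratio `20/21`.
-/

open Finset

namespace RST.H

theorem one_sub_exp {y : ℝ} (hy : 0 ≤ y) :
    1 - 1 / (1 + y + y ^ 2 / 2 + y ^ 3 / 6 + y ^ 4 / 24) ≤ 1 - Real.exp (-y) := by
  have h := Real.sum_le_exp_of_nonneg hy 5
  simp only [Finset.sum_range_succ, Finset.sum_range_zero, Nat.factorial] at h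
  norm_num at h
  have hS : 0 < 1 + y + y ^ 2 / 2 + y ^ 3 / 6 + y ^ 4 / 24 := by positivity
  have h2 : Real.exp (-y) ≤ 1 / (1 + y + y ^ 2 / 2 + y ^ 3 / 6 + y ^ 4 / 24) := by
    rw [Real.exp_neg, ← one_div]
    exact one_div_le_one_div_of_le hS h
  linarith

private theorem Num_poly {c M y : ℝ} (hcM : (c = 5 / 4 ∧ M = 7 / 20) ∨ (c = 3 / 2 ∧ M = 1 / 2) ∨
    (c = 2 ∧ M = 7 / 10)) (hy : 0 ≤ y) (hyM : y ≤ c * M) :
    (101 / 100) * (1 + y + y ^ 2 / 2 + y ^ 3 / 6 + y ^ 4 / 24) ≤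
      c * (9999 / 10000 * (1 + y / 2 + y ^ 2 / 6 + y ^ 3 / 24)) := by
  have h2 : y ^ 2 ≤ (c * M) ^ 2 := pow_le_pow_left₀ hy hyM 2
  have h3 : y ^ 3 ≤ (c * M) ^ 3 := pow_le_pow_left₀ hy hyM 3
  have h4 : y ^ 4 ≤ (c * M) ^ 4 := pow_le_pow_left₀ hy hyM 4
  rcases hcM with ⟨rfl, rfl⟩ | ⟨rfl, rfl⟩ | ⟨rfl, rfl⟩ <;>
  · norm_num at h2 h3 h4 hyM ⊢
    linarith

theorem gap_small {c M : ℝ} (hcM : (c = 5 / 4 ∧ M = 7 / 20) ∨ (c = 3 / 2 ∧ M = 1 / 2) ∨
    (c = 2 ∧ M = 7 / 10)) {n w p : ℝ} (hn : 0 < n) (hw : 9999 / 10000 * n ≤ w) (hp : c / n ≤ p)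
    (hp1 : p ≤ 1) {t : ℕ} (ht : (t : ℝ) ≤ M * n) :
    (1 + 1 / 100) * (t : ℝ) ≤ w * (1 - (1 - p) ^ t) := by
  have hc : 0 < c := by rcases hcM with ⟨rfl, rfl⟩ | ⟨rfl, rfl⟩ | ⟨rfl, rfl⟩ <;> norm_num
  have ht0 : (0 : ℝ) ≤ t := Nat.cast_nonneg t
  set y : ℝ := c * t / n with hy
  have hy0 : 0 ≤ y := by positivity
  have hyM : y ≤ c * M := by
    rw [hy, div_le_iff₀ hn, mul_assoc]
    exact mul_le_mul_of_nonneg_left ht hc.le
  have hp0 : 0 ≤ p := le_trans (by positivity) hp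
  have h1 : (1 - p) ^ t ≤ Real.exp (-y) := by
    have e1 : 1 - p ≤ Real.exp (-p) := by
      have := Real.add_one_le_exp (-p)
      linarith
    calc (1 - p) ^ t ≤ (Real.exp (-p)) ^ t := pow_le_pow_left₀ (by linarith) e1 t
      _ = Real.exp (-(p * t)) := by
          rw [← Real.exp_nat_mul]
          congr 1
          ring
      _ ≤ Real.exp (-y) := by
          apply Real.exp_le_exp.mpr
          have : y ≤ p * t := by
            rw [hy]
            have := mul_le_mul_of_nonneg_right hp ht0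
            calc c * t / n = c / n * t := by ring
              _ ≤ p * t := this
          linarith
  set S : ℝ := 1 + y + y ^ 2 / 2 + y ^ 3 / 6 + y ^ 4 / 24 with hS
  have hS0 : 0 < S := by positivity
  have h2 := one_sub_exp hy0
  have h3 : 1 - 1 / S ≤ 1 - (1 - p) ^ t := by linarith
  have hpoly := Num_poly hcM hy0 hyM
  have h4 : 0 ≤ 1 - (1 - p) ^ t := by
    have : (1 - p) ^ t ≤ 1 := pow_le_one₀ (by linarith) (by linarith)
    linarith
  have h5 : 101 / 100 * y ≤ c * (9999 / 10000 * (1 - 1 / S)) := by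
    have e1 : 1 - 1 / S = (y * (1 + y / 2 + y ^ 2 / 6 + y ^ 3 / 24)) / S := by
      rw [eq_div_iff hS0.ne', sub_mul, one_mul, one_div, inv_mul_cancel₀ hS0.ne', hS]
      ring
    rw [e1]
    have e2 : c * (9999 / 10000 * (y * (1 + y / 2 + y ^ 2 / 6 + y ^ 3 / 24) / S)) =
        (y * (c * (9999 / 10000 * (1 + y / 2 + y ^ 2 / 6 + y ^ 3 / 24)))) / S := by ring
    rw [e2, le_div_iff₀ hS0]
    calc 101 / 100 * y * S = y * (101 / 100 * S) := by ring
      _ ≤ _ := mul_le_mul_of_nonneg_left hpoly hy0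
  have h6 : (t : ℝ) = y * n / c := by
    rw [hy]
    field_simp
  calc (1 + 1 / 100) * (t : ℝ) = (101 / 100 * y) * (n / c) := by
        rw [h6]
        ring
    _ ≤ (c * (9999 / 10000 * (1 - 1 / S))) * (n / c) :=
        mul_le_mul_of_nonneg_right h5 (by positivity)
    _ = (9999 / 10000 * n) * (1 - 1 / S) := by field_simp
    _ ≤ (9999 / 10000 * n) * (1 - (1 - p) ^ t) :=
        mul_le_mul_of_nonneg_left h3 (by positivity)
    _ ≤ w * (1 - (1 - p) ^ t) := mul_le_mul_of_nonneg_right hw h4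

theorem Mx_pos {x : ℝ} (hx : 0 < x) : 0 < Mx x := by
  unfold Mx
  split_ifs
  · linarith
  all_goals norm_num

theorem rho_le (x : ℝ) (hx : 0 < x) :
    (1 + 11 / 10 * x) * Real.exp (-((1 + x) * Mx x)) ≤ Real.exp (-(1 / 20 * min x 1)) := by
  have key : 1 + 11 / 10 * x ≤ Real.exp ((1 + x) * Mx x - 1 / 20 * min x 1) := by
    unfold Mx
    split_ifs with h1 h2 h3
    · rw [min_eq_left (by linarith)]
      have := Real.add_one_le_exp ((1 + x) * (6 / 5 * x) - 1 / 20 * x)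
      nlinarith
    · rw [min_eq_left (by linarith)]
      have h0 : 0 ≤ (1 + x) * (7 / 20) - 1 / 20 * x := by nlinarith
      have := Real.quadratic_le_exp_of_nonneg h0
      nlinarith
    · rw [min_eq_left h3]
      have h0 : 0 ≤ (1 + x) * (1 / 2) - 1 / 20 * x := by nlinarith
      have := Real.quadratic_le_exp_of_nonneg h0
      nlinarith
    · rw [min_eq_right (by linarith)]
      have h0 : 0 ≤ (1 + x) * (7 / 10) - 1 / 20 * 1 := by nlinarith
      have := Real.quadratic_le_exp_of_nonneg h0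
      nlinarith
  calc (1 + 11 / 10 * x) * Real.exp (-((1 + x) * Mx x)) ≤
        Real.exp ((1 + x) * Mx x - 1 / 20 * min x 1) * Real.exp (-((1 + x) * Mx x)) :=
        mul_le_mul_of_nonneg_right key (Real.exp_pos _).le
    _ = Real.exp (-(1 / 20 * min x 1)) := by
        rw [← Real.exp_add]
        congr 1
        ring

theorem sc_zero (xs : ℝ) : sc xs 0 = xs := by
  unfold sc
  simp

theorem sc_succ (xs : ℝ) (j : ℕ) : sc xs (j + 1) = 21 / 20 * sc xs j := by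
  unfold sc
  ring

theorem le_sc {xs : ℝ} (h : 0 ≤ xs) (j : ℕ) : xs ≤ sc xs j := by
  unfold sc
  have : (1 : ℝ) ≤ (21 / 20) ^ j := one_le_pow₀ (by norm_num)
  nlinarith

theorem sc_mono {xs : ℝ} (h : 0 ≤ xs) {i j : ℕ} (hij : i ≤ j) : sc xs i ≤ sc xs j := by
  unfold sc
  exact mul_le_mul_of_nonneg_right (pow_le_pow_right₀ (by norm_num) hij) h

theorem sum_inv_sc {xs : ℝ} (h : 0 < xs) (j : ℕ) : ∑ i ∈ range j, 1 / sc xs i ≤ 21 / xs := by
  have key : ∀ j : ℕ, ∑ i ∈ range j, 1 / sc xs i = 21 / xs * (1 - (20 / 21) ^ j) := by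
    intro j
    induction j with
    | zero => simp
    | succ k ih =>
      rw [Finset.sum_range_succ, ih]
      have e : 1 / sc xs k = (20 / 21) ^ k / xs := by
        unfold sc
        rw [one_div, mul_inv, ← inv_pow, div_eq_mul_inv]
        congr 2
        norm_num
      rw [e, pow_succ]
      field_simp
      ring
  rw [key]
  have h1 : (0 : ℝ) ≤ (20 / 21) ^ j := by positivity
  have h2 : 0 < 21 / xs := by positivity
  nlinarith

end RST.H
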