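import Pool.Agent.Lib.MP_7946c7_pr.H.Asy
import Pool.Agent.Lib.MP_7946c7_pr.H.Cmp
import Pool.Agent.Lib.MP_7946c7_pr.H.Mono
import Pool.Agent.Lib.MP_7946c7_pr.H.Num

/-!
# JOB H/Conn: uniqueness of the giant component

Write `n = |V|`, `p = (1+x)/n ≤ 1` (`n` large). If the event holds there are `u, v ∈ gg (bg ξ) univ k` with `cmp u ≠ cmp v` (`rch_of_cmp`), both of size `≥ k`.
`gap_event`: in each range below `PP {∃ v, k ≤ |cmp v| ≤ M n} ≤ n^2 exp (-n^{a/2}/80000)`: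
* `x ≤ 1/4`, `M = 6/5 x`: `giant_gap_small` with `W = univ` (`n (1 - x/100) ≤ n - 1` because `x n ≥ xs n ≥ n^{2/3} ≥ 100`), `x^2 k ≥ xs^2 k ≥ n^{a/2}`.
* `1/4 < x ≤ 1/2`, `M = 7/20`, `x > 1/2`, `M = 1/2`: `giant_gap` with `g = 1/100`; its hypothesis is `gap_small` with `c = 5/4` resp. `c = 3/2`, `w = n - 1 ≥ .9999 n`; `k g^2/8 = k/80000`.
Outside this event a component of size `≥ k` has size `> M n`.
`conn`: * `x ≤ 1/4`: `giant_unique` with `h = x/5`, `s = ⌈6/5 x n⌉₊`: `p (n - s) ≤ (1+x)(1 - 6/5 x) ≤ 1 - x/5`; `k ≤ s` (`k ≤ xs n/1000`); `h^2 k / 2 = x^2 k/50 ≥ n^{a/2}/50`.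
* `1/4 < x ≤ 1/2`: `giant_unique` with `h = 1/40`, `s = ⌈7/20 n⌉₊`: `(3/2)(13/20) = 39/40`; `h^2 k/2 = k/3200`.
* `x > 1/2`: two different components of size `> n/2` are impossible (they are disjoint by `cmp_eq_of_mem`).
Total `≤ 3 n^2 exp (-n^{a/2}/80000) ≤ 1/n^4` by `asy_quad` (`80000 (6 log n + log 3) ≤ n^{a/2}`).
-/

open Finset

namespace RST.H

/-- No components of intermediate size, `W` almost everything. -/
theorem gap_event (a : ℝ) (ha : 0 < a) (ha1 : a ≤ 1 / 10) : ∃ n₀ : ℕ, ∀ (V : Type) [Fintype V]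
    [DecidableEq V], n₀ ≤ Fintype.card V → ∀ (xs x : ℝ) (k : ℕ), HPar a (Fintype.card V) xs k →
    xs ≤ x → x ≤ 4 * Real.log (Fintype.card V) → ∀ W : Finset V,
    Fintype.card V * (1 - xs / 1000) ≤ W.card →
    ∀ M : ℝ, (x ≤ 1 / 4 ∧ M = 6 / 5 * x) ∨ (1 / 4 < x ∧ M = 7 / 20) ∨ (1 / 2 < x ∧ M = 1 / 2) ∨
      (1 < x ∧ M = 7 / 10) →
    PP (bern ((1 + x) / Fintype.card V)) {ξ : Sym2 V → Bool | ∃ v ∈ W,
      k ≤ (cmp (bg ξ) W v).card ∧ ((cmp (bg ξ) W v).card : ℝ) ≤ M * Fintype.card V} ≤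
      (Fintype.card V : ℝ) ^ 2 * Real.exp (-((Fintype.card V : ℝ) ^ (a / 2) / 80000)) := by
  obtain ⟨n₁, h1⟩ := hpar_facts a ha ha1
  obtain ⟨n₂, h2⟩ := asy_quad 0 4 1 1 one_pos
  obtain ⟨n₃, h3⟩ := asy_quad 0 0 200 (2 / 3) (by norm_num)
  refine ⟨max n₁ (max n₂ (max n₃ 20000)), ?_⟩
  intro V _ _ hn xs x k hpar hx hx4 W hW M hM
  simp only [max_le_iff] at hn
  obtain ⟨hn1, hn2, hn3, hn4⟩ := hn
  obtain ⟨hxs0, hxs1, hk1, hk, hk2, -, hxn, -⟩ := h1 _ hn1 xs k hpar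
  have hp' := h2 _ hn2
  have h200 := h3 _ hn3
  rw [Real.rpow_one] at hp'
  simp only [zero_mul, zero_add] at hp' h200
  set N : ℝ := (Fintype.card V : ℝ) with hN
  have hN0 : 20000 ≤ N := by rw [hN]; exact_mod_cast hn4
  have hNpos : 0 < N := by linarith
  have hx0 : 0 < x := lt_of_lt_of_le hxs0 hx
  have hp0 : 0 ≤ (1 + x) / N := by positivity
  have hp1 : (1 + x) / N ≤ 1 := by
    rw [div_le_one hNpos]
    linarith
  have hxN : 200 ≤ xs * N := h200.trans hxn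
  -- the case of macroscopic M
  have big : ∀ c : ℝ, ((c = 5 / 4 ∧ M = 7 / 20) ∨ (c = 3 / 2 ∧ M = 1 / 2) ∨
      (c = 2 ∧ M = 7 / 10)) → c ≤ 1 + x →
      PP (bern ((1 + x) / N)) {ξ : Sym2 V → Bool | ∃ v ∈ W,
        k ≤ (cmp (bg ξ) W v).card ∧ ((cmp (bg ξ) W v).card : ℝ) ≤ M * N} ≤
      N ^ 2 * Real.exp (-(N ^ (a / 2) / 80000)) := by
    intro c hc hcx
    have hw : 9999 / 10000 * N ≤ (W.card : ℝ) - 1 := by
      have : N * (1 - xs / 1000) ≥ N * (1 - 1 / 100000) := by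
        apply mul_le_mul_of_nonneg_left _ hNpos.le
        linarith
      linarith
    have h4 := giant_gap ((1 + x) / N) (1 / 100) (M * N) hp0 hp1 (by norm_num) (by norm_num) W k
      hk1 (fun t _ ht => gap_small hc hNpos hw
        (div_le_div_of_nonneg_right hcx hNpos.le) hp1 ht)
    refine h4.trans ?_
    apply mul_le_mul_of_nonneg_left _ (by positivity)
    apply Real.exp_le_exp.2
    linarith
  rcases hM with ⟨hx1, rfl⟩ | ⟨hx1, rfl⟩ | ⟨hx1, rfl⟩ | ⟨hx1, rfl⟩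
  · have hW' : N * (1 - x / 100) ≤ (W.card : ℝ) - 1 := by
      have h5 : xs * N ≤ x * N := mul_le_mul_of_nonneg_right hx hNpos.le
      have h6 : N * (1 - xs / 1000) = N - xs * N / 1000 := by ring
      have h7 : N * (1 - x / 100) = N - x * N / 100 := by ring
      rw [h7]
      rw [h6] at hW
      linarith
    have h4 := giant_gap_small x hx0 hx1 W hW' (by omega) k hk1
    refine h4.trans ?_
    apply mul_le_mul_of_nonneg_left _ (by positivity)
    apply Real.exp_le_exp.2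
    have h5 : xs ^ 2 * k ≤ x ^ 2 * k := by
      apply mul_le_mul_of_nonneg_right _ (Nat.cast_nonneg k)
      exact pow_le_pow_left₀ hxs0.le hx 2
    have h6 : 0 ≤ N ^ (a / 2) := Real.rpow_nonneg hNpos.le _
    linarith
  · exact big (5 / 4) (Or.inl ⟨rfl, rfl⟩) (by linarith)
  · exact big (3 / 2) (Or.inr (Or.inl ⟨rfl, rfl⟩)) (by linarith)
  · exact big 2 (Or.inr (Or.inr ⟨rfl, rfl⟩)) (by linarith)

/-- Outside the gap event two unconnected vertices of `gg` are in two components above the gap. -/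
private theorem Conn_two {V : Type} [Fintype V] [DecidableEq V] {ξ : Sym2 V → Bool} {k : ℕ} {m : ℝ}
    (hg : ¬ ∃ v ∈ (univ : Finset V), k ≤ (cmp (bg ξ) univ v).card ∧
      ((cmp (bg ξ) univ v).card : ℝ) ≤ m)
    (h : ∃ u ∈ gg (bg ξ) univ k, ∃ v ∈ gg (bg ξ) univ k, ¬ Rch (bg ξ) univ u v) :
    ∃ u v, cmp (bg ξ) univ u ≠ cmp (bg ξ) univ v ∧ m < ((cmp (bg ξ) univ u).card : ℝ) ∧
      m < ((cmp (bg ξ) univ v).card : ℝ) ∧ k ≤ (cmp (bg ξ) univ v).card := by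
  obtain ⟨u, hu, v, hv, huv⟩ := h
  rw [mem_gg] at hu hv
  push Not at hg
  exact ⟨u, v, rch_of_cmp (bg_symm ξ) huv, hg u (mem_univ _) hu.2, hg v (mem_univ _) hv.2, hv.2⟩

private theorem Conn_final {N a e : ℝ} (hN : 1 ≤ N) (he : 0 ≤ e)
    (h : 480000 * Real.log N + 160000 ≤ N ^ (a / 2))
    (he2 : e ≤ N ^ 2 * Real.exp (-(N ^ (a / 2) / 80000)) +
      2 * N ^ 2 * Real.exp (-(N ^ (a / 2) / 80000))) : e ≤ 1 / N ^ 4 := by
  have hN0 : 0 < N := by linarith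
  have h1 : Real.exp (-(N ^ (a / 2) / 80000)) ≤ Real.exp (-(6 * Real.log N + 2)) := by
    apply Real.exp_le_exp.2
    linarith
  have h2 : Real.exp (-(6 * Real.log N + 2)) = (N ^ 6)⁻¹ * Real.exp (-2) := by
    rw [neg_add, Real.exp_add, Real.exp_neg, mul_comm (6 : ℝ), Real.exp_mul, Real.exp_log hN0]
    norm_num
  have h3 : Real.exp (-2) ≤ 1 / 3 := by
    rw [Real.exp_neg, inv_eq_one_div]
    apply one_div_le_one_div_of_le (by norm_num)
    have := Real.add_one_le_exp (2 : ℝ)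
    linarith
  have h4 : 0 < (N ^ 6)⁻¹ := by positivity
  have h5 : Real.exp (-(N ^ (a / 2) / 80000)) ≤ (N ^ 6)⁻¹ * (1 / 3) := by
    rw [h2] at h1
    exact h1.trans (mul_le_mul_of_nonneg_left h3 h4.le)
  calc e ≤ 3 * N ^ 2 * Real.exp (-(N ^ (a / 2) / 80000)) := by linarith
    _ ≤ 3 * N ^ 2 * ((N ^ 6)⁻¹ * (1 / 3)) := by
        apply mul_le_mul_of_nonneg_left h5 (by positivity)
    _ = 1 / N ^ 4 := by
        field_simp

theorem gg_conn (a : ℝ) (ha : 0 < a) (ha1 : a ≤ 1 / 10) : ∃ n₀ : ℕ, ∀ (V : Type) [Fintype V]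
    [DecidableEq V], n₀ ≤ Fintype.card V → ∀ (xs x : ℝ) (k : ℕ), HPar a (Fintype.card V) xs k →
    xs ≤ x → x ≤ 4 * Real.log (Fintype.card V) →
    PP (bern ((1 + x) / Fintype.card V)) {ξ : Sym2 V → Bool | ∃ u ∈ gg (bg ξ) univ k,
      ∃ v ∈ gg (bg ξ) univ k, ¬ Rch (bg ξ) univ u v} ≤ 1 / (Fintype.card V : ℝ) ^ 4 := by
  obtain ⟨n₀, h0⟩ := gap_event a ha ha1
  obtain ⟨n₁, h1⟩ := hpar_facts a ha ha1
  obtain ⟨n₂, h2⟩ := asy_quad 0 4 1 1 one_pos
  obtain ⟨n₃, h3⟩ := asy_quad 0 480000 160000 (a / 2) (by positivity)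
  refine ⟨max n₀ (max n₁ (max n₂ (max n₃ 1))), ?_⟩
  intro V _ _ hn xs x k hpar hx hx4
  simp only [max_le_iff] at hn
  obtain ⟨hn0, hn1, hn2, hn3, hn4⟩ := hn
  obtain ⟨hxs0, hxs1, hk1, hk, hk2, -, hxn, -⟩ := h1 _ hn1 xs k hpar
  have hp' := h2 _ hn2
  have h480 := h3 _ hn3
  have hgap := h0 V hn0 xs x k hpar hx hx4 univ
  rw [Real.rpow_one] at hp'
  simp only [zero_mul, zero_add] at hp' h480
  have hcard : (Finset.univ : Finset V).card = Fintype.card V := Finset.card_univ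
  have hkhi := hpar.khi
  set N : ℝ := (Fintype.card V : ℝ) with hN
  have hN1 : 1 ≤ N := by rw [hN]; exact_mod_cast hn4
  have hNpos : 0 < N := by linarith
  have hx0 : 0 < x := lt_of_lt_of_le hxs0 hx
  have hp0 : 0 ≤ (1 + x) / N := by positivity
  have hp1 : (1 + x) / N ≤ 1 := by
    rw [div_le_one hNpos]
    linarith
  have hq := isLaw_bern' hp0 hp1
  have hW : N * (1 - xs / 1000) ≤ ((Finset.univ : Finset V).card : ℝ) := by
    rw [hcard, ← hN]
    nlinarith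
  have hgap' := hgap hW
  have hkN : (k : ℝ) ≤ xs * N := by
    have : 0 ≤ xs * N := by positivity
    linarith
  apply Conn_final (a := a) hN1 (PP_nonneg hq _) h480
  have hrp : 0 ≤ N ^ (a / 2) := Real.rpow_nonneg hNpos.le _
  have hpN : (1 + x) / N * N = 1 + x := div_mul_cancel₀ _ hNpos.ne'
  -- combination of the gap event with uniqueness
  have comb : ∀ (M h : ℝ) (s : ℕ), ((x ≤ 1 / 4 ∧ M = 6 / 5 * x) ∨ (1 / 4 < x ∧ M = 7 / 20) ∨
      (1 / 2 < x ∧ M = 1 / 2) ∨ (1 < x ∧ M = 7 / 10)) → s = ⌈M * N⌉₊ → 0 < h → h ≤ 1 →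
      (1 + x) * (1 - M) ≤ 1 - h → xs ≤ M → N ^ (a / 2) / 80000 ≤ h ^ 2 * k / 2 →
      PP (bern ((1 + x) / N)) {ξ : Sym2 V → Bool | ∃ u ∈ gg (bg ξ) univ k,
        ∃ v ∈ gg (bg ξ) univ k, ¬ Rch (bg ξ) univ u v} ≤
      N ^ 2 * Real.exp (-(N ^ (a / 2) / 80000)) +
        2 * N ^ 2 * Real.exp (-(N ^ (a / 2) / 80000)) := by
    intro M h s hM hs hh0 hh1 hMh hxsM hexp
    have hsM : M * N ≤ (s : ℝ) := by rw [hs]; exact Nat.le_ceil _
    have h5 : (1 + x) / N * (((Finset.univ : Finset V).card : ℝ) - s) ≤ 1 - h := by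
      rw [hcard, ← hN]
      calc (1 + x) / N * (N - s) ≤ (1 + x) / N * (N - M * N) := by
            apply mul_le_mul_of_nonneg_left _ hp0
            linarith
        _ = (1 + x) * (1 - M) := by
            have : (1 + x) / N * (N - M * N) = (1 + x) / N * N * (1 - M) := by ring
            rw [this, hpN]
        _ ≤ _ := hMh
    have hks : k ≤ s := by
      have h6 : (k : ℝ) ≤ (s : ℝ) := by
        refine hkN.trans (le_trans ?_ hsM)
        exact mul_le_mul_of_nonneg_right hxsM hNpos.le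
      exact_mod_cast h6
    have h7 := giant_unique ((1 + x) / N) h hp0 hp1 hh0 hh1 (univ : Finset V) k s h5 hks
    have h8 := hgap' M hM
    refine (PP_mono hq (T := {ξ : Sym2 V → Bool | ∃ v ∈ (univ : Finset V),
      k ≤ (cmp (bg ξ) univ v).card ∧ ((cmp (bg ξ) univ v).card : ℝ) ≤ M * N} ∪
      {ξ : Sym2 V → Bool | ∃ u ∈ (univ : Finset V), ∃ v ∈ (univ : Finset V),
        cmp (bg ξ) univ u ≠ cmp (bg ξ) univ v ∧
      s ≤ (cmp (bg ξ) univ u).card ∧ k ≤ (cmp (bg ξ) univ v).card}) ?_).trans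
      ((PP_union_le hq _ _).trans (add_le_add h8 (h7.trans ?_)))
    · intro ξ hξ
      by_cases hg : ∃ v ∈ (univ : Finset V), k ≤ (cmp (bg ξ) univ v).card ∧
          ((cmp (bg ξ) univ v).card : ℝ) ≤ M * N
      · exact Or.inl hg
      · obtain ⟨u, v, h9, h10, -, h12⟩ := Conn_two hg hξ
        refine Or.inr ⟨u, mem_univ _, v, mem_univ _, h9, ?_, h12⟩
        rw [hs]
        exact Nat.ceil_le.2 h10.le
    · apply mul_le_mul_of_nonneg_left _ (by positivity)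
      apply Real.exp_le_exp.2
      linarith
  rcases le_or_gt x (1 / 4) with hx14 | hx14
  · refine comb (6 / 5 * x) (x / 5) _ (Or.inl ⟨hx14, rfl⟩) rfl (by positivity) (by linarith) ?_ ?_ ?_
    · nlinarith
    · linarith
    · have h5 : xs ^ 2 * k ≤ x ^ 2 * k := by
        apply mul_le_mul_of_nonneg_right _ (Nat.cast_nonneg k)
        exact pow_le_pow_left₀ hxs0.le hx 2
      have h6 : (x / 5) ^ 2 * k / 2 = x ^ 2 * k / 50 := by ring
      rw [h6]
      linarith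
  · rcases le_or_gt x (1 / 2) with hx12 | hx12
    · refine comb (7 / 20) (1 / 40) _ (Or.inr (Or.inl ⟨hx14, rfl⟩)) rfl (by norm_num) (by norm_num)
        ?_ ?_ ?_
      · linarith
      · linarith
      · linarith
    · -- two components with more than half of the vertices
      have h8 := hgap' (1 / 2) (Or.inr (Or.inr (Or.inl ⟨hx12, rfl⟩)))
      have h9 : 0 ≤ 2 * N ^ 2 * Real.exp (-(N ^ (a / 2) / 80000)) := by positivity
      refine le_trans (le_trans (PP_mono hq ?_) h8) (by linarith)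
      intro ξ hξ
      by_contra hg
      obtain ⟨u, v, h9, h10, h11, -⟩ := Conn_two hg hξ
      have hdis : Disjoint (cmp (bg ξ) univ u) (cmp (bg ξ) univ v) := by
        rw [Finset.disjoint_left]
        intro w hw hw'
        exact h9 ((cmp_eq_of_mem (bg_symm ξ) hw).symm.trans (cmp_eq_of_mem (bg_symm ξ) hw'))
      have h12 := Finset.card_union_of_disjoint hdis
      have h13 : (cmp (bg ξ) univ u ∪ cmp (bg ξ) univ v).card ≤ Fintype.card V :=
        Finset.card_le_univ _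
      rw [h12] at h13
      have h14 : ((cmp (bg ξ) univ u).card : ℝ) + ((cmp (bg ξ) univ v).card : ℝ) ≤ N := by
        rw [hN]
        exact_mod_cast h13
      linarith

end RST.H
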