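import Pool.Agent.Lib.MP_7946c7_pr.Defs

/-!
# JOB H/Diam: diameter of a tree and self-avoiding walks (Mathlib `SimpleGraph.diam`)

* `exists_saw`: a shortest walk (`SimpleGraph.Connected.exists_walk_length_eq_dist`, or `exists_path_of_dist`) is a path `w`; `γ i = w.getVert i`; distinctness from `IsPath`
  (`SimpleGraph.Walk.IsPath.getVert_injOn`), adjacency `w.adj_getVert_succ`.
* `saw_le_diam`: build the walk from `γ` (induction on `ℓ`, or `SimpleGraph.Walk` by recursion), it is a path; a shortest walk between the same vertices is a path too; in a tree paths are unique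
  (`SimpleGraph.IsAcyclic.path_unique` / `IsTree.existsUnique_path`), so `ℓ = dist ≤ diam` (`SimpleGraph.dist_le_diam`, `ediam ≠ ⊤` for a finite connected graph:
  `SimpleGraph.connected_iff_ediam_ne_top` or similar).
* `diam_le_of_dist`: `SimpleGraph.exists_dist_eq_diam` (nonempty finite connected).
* `diam_le_of_saw`, `diam_le_of_root`: `exists_saw`; triangle inequality `SimpleGraph.Connected.dist_triangle`.
-/

open Finset

namespace RST.H

variable {V : Type} [Fintype V] {T : SimpleGraph V}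

theorem exists_saw (hT : T.Connected) (u v : V) :
    ∃ (γ : ℕ → V) (ℓ : ℕ), IsSAW T.Adj γ ℓ ∧ γ 0 = u ∧ γ ℓ = v ∧ ℓ = T.dist u v := by
  obtain ⟨p, hp, hlen⟩ := (hT u v).exists_path_of_dist
  refine ⟨p.getVert, p.length, ⟨fun i hi => p.adj_getVert_succ hi, fun i hi j hj hij => ?_⟩,
    p.getVert_zero, p.getVert_length, hlen⟩
  exact hp.getVert_injOn hi hj hij

theorem dist_le_diam' (hT : T.Connected) (u v : V) : T.dist u v ≤ T.diam := by
  have : Nonempty V := ⟨u⟩
  exact SimpleGraph.dist_le_diam (SimpleGraph.connected_iff_ediam_ne_top.mp hT)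

private theorem Diam_walk {γ : ℕ → V} {ℓ : ℕ} (h : ∀ i < ℓ, T.Adj (γ i) (γ (i + 1))) :
    ∃ w : T.Walk (γ 0) (γ ℓ), w.length = ℓ ∧ w.support = (List.range (ℓ + 1)).map γ := by
  induction ℓ with
  | zero => exact ⟨SimpleGraph.Walk.nil, rfl, rfl⟩
  | succ k ih =>
    obtain ⟨w, hw1, hw2⟩ := ih (fun i hi => h i (by omega))
    refine ⟨w.concat (h k (by omega)), ?_, ?_⟩
    · rw [SimpleGraph.Walk.length_concat, hw1]
    · rw [SimpleGraph.Walk.support_concat, hw2, List.range_succ (n := k + 1), List.map_append]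
      simp

theorem saw_le_diam (hT : T.IsTree) {γ : ℕ → V} {ℓ : ℕ} (h : IsSAW T.Adj γ ℓ) : ℓ ≤ T.diam := by
  obtain ⟨w, hw1, hw2⟩ := Diam_walk (T := T) (γ := γ) (ℓ := ℓ) h.1
  have hw : w.IsPath := by
    rw [SimpleGraph.Walk.isPath_def, hw2]
    apply List.Nodup.map_on _ List.nodup_range
    intro x hx y hy hxy
    rw [List.mem_range] at hx hy
    exact h.2 x (by omega) y (by omega) hxy
  obtain ⟨p, hp, hlen⟩ := (hT.connected (γ 0) (γ ℓ)).exists_path_of_dist
  have heq := hT.isAcyclic.path_unique ⟨p, hp⟩ ⟨w, hw⟩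
  have heq2 : p = w := congrArg Subtype.val heq
  rw [heq2, hw1] at hlen
  rw [hlen]
  exact dist_le_diam' hT.connected _ _

theorem diam_le_of_dist (hT : T.Connected) (M : ℕ) (h : ∀ u v, T.dist u v ≤ M) : T.diam ≤ M := by
  have := hT.nonempty
  obtain ⟨u, v, huv⟩ := T.exists_dist_eq_diam
  rw [← huv]
  exact h u v

theorem diam_le_of_saw (hT : T.Connected) (M : ℕ)
    (h : ∀ (γ : ℕ → V) (ℓ : ℕ), IsSAW T.Adj γ ℓ → ℓ ≤ M) : T.diam ≤ M := by
  apply diam_le_of_dist hT
  intro u v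
  obtain ⟨γ, ℓ, h1, -, -, h4⟩ := exists_saw hT u v
  rw [← h4]
  exact h γ ℓ h1

theorem diam_le_of_root (hT : T.Connected) (r : V) (H : ℕ)
    (h : ∀ (γ : ℕ → V) (ℓ : ℕ), IsSAW T.Adj γ ℓ → γ ℓ = r → ℓ ≤ H) : T.diam ≤ 2 * H := by
  have key : ∀ u, T.dist u r ≤ H := by
    intro u
    obtain ⟨γ, ℓ, h1, -, h3, h4⟩ := exists_saw hT u r
    rw [← h4]
    exact h γ ℓ h1 h3
  apply diam_le_of_dist hT
  intro u v
  have h1 := hT.dist_triangle (u := u) (v := r) (w := v)
  have h2 := key u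
  have h3 := key v
  rw [SimpleGraph.dist_comm] at h3
  omega

end RST.H
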