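import Pool.Agent.Lib.MP_7946c7_pr.H.Cmp
import Pool.Agent.Lib.MP_7946c7_pr.H.Mono

/-!
# JOB H/Sep: one sequence of vertices (used in the first moment of `hang`)

`Γ` a set of vertices, `GG(b) = gg (adj A b) (univ \ Γ) k`. `Inn` = set of the edges `e : Sym2 V` with both ends in `Γ`.
* `GG(b)` depends only on the edges inside `univ \ Γ` (`Rch R W` depends only on the values `R u v`, `u, v ∈ W`).
* `sep_factor`: `EE_indep` with `s = Inn`: the first event depends only on the `b e`, `e = s(γ i, γ (i+1)) ∈ Inn`; the second one depends only on the `b e`, `e ∉ Inn`.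
* `sep_bound`: `PP (sep) = ∑_D PP (GG = D and no A-edge between Γ and D)` (`D ⊆ univ \ Γ`) `= ∑_D PP (GG = D) PP (no A-edge between Γ and D)` (`EE_indep` with
  `s` = edges inside `univ \ Γ`) `= ∑_D PP (GG = D) (1 - qs q A)^{|Γ| |D|}` (`PP_none`). For `|D| ≥ m` the power is `≤ (1 - qs q A)^{|Γ| ⌈m⌉₊}`, for `|D| < m` it is `≤ 1`.
-/

open Finset

namespace RST.H

variable {V B : Type} [Fintype V] [DecidableEq V] [Fintype B] [DecidableEq B]

private theorem Sep_rch_congr {R R' : V → V → Prop} {W : Finset V}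
    (h : ∀ u ∈ W, ∀ w ∈ W, (R u w ↔ R' u w)) : Rch R W = Rch R' W := by
  have : (fun x y => R x y ∧ x ∈ W ∧ y ∈ W) = fun x y => R' x y ∧ x ∈ W ∧ y ∈ W := by
    funext x y
    refine propext ⟨fun ⟨a, b, c⟩ => ⟨(h x b y c).1 a, b, c⟩,
      fun ⟨a, b, c⟩ => ⟨(h x b y c).2 a, b, c⟩⟩
  unfold Rch
  rw [this]

private theorem Sep_cmp_congr {R R' : V → V → Prop} {W : Finset V}
    (h : ∀ u ∈ W, ∀ w ∈ W, (R u w ↔ R' u w)) (v : V) : cmp R W v = cmp R' W v := by
  unfold cmp
  rw [Sep_rch_congr h]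

private theorem Sep_PP (q : B → ℝ) {ι : Type} [Fintype ι] (p : (ι → B) → Prop)
    [DecidablePred p] : PP q {b | p b} = EE q (fun b => if p b then (1 : ℝ) else 0) := by
  unfold PP
  congr 1
  funext b
  congr!

/-- `gg` in `univ \ Γ` depends only on the edges inside `univ \ Γ`. -/
theorem gg_congr (A : Finset B) (Γ : Finset V) (k : ℕ) (b b' : Sym2 V → B)
    (h : ∀ u ∈ univ \ Γ, ∀ w ∈ univ \ Γ, b s(u, w) = b' s(u, w)) :
    gg (adj A b) (univ \ Γ) k = gg (adj A b') (univ \ Γ) k := by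
  have h1 : ∀ u ∈ univ \ Γ, ∀ w ∈ univ \ Γ, (adj A b u w ↔ adj A b' u w) := by
    intro u hu w hw
    unfold adj
    rw [h u hu w hw]
  unfold gg
  simp only [Sep_cmp_congr h1]

theorem sep_factor {q : B → ℝ} (hq : IsLaw q) (A A' : Finset B) (k L : ℕ) (γ : Fin (L + 1) → V)
    (Γ : Finset V) (hΓ : Γ = univ.image γ) :
    PP q {b : Sym2 V → B | (∀ i : Fin L, b s(γ i.castSucc, γ i.succ) ∈ A') ∧
      ∀ u ∈ Γ, ∀ w ∈ gg (adj A b) (univ \ Γ) k, b s(u, w) ∉ A} =
    PP q {b : Sym2 V → B | ∀ i : Fin L, b s(γ i.castSucc, γ i.succ) ∈ A'} *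
      PP q {b : Sym2 V → B | ∀ u ∈ Γ, ∀ w ∈ gg (adj A b) (univ \ Γ) k, b s(u, w) ∉ A} := by
  classical
  have hm : ∀ t, γ t ∈ Γ := fun t => by
    rw [hΓ]
    exact Finset.mem_image_of_mem _ (Finset.mem_univ t)
  have hind := EE_indep hq {e : Sym2 V | ∀ v ∈ e, v ∈ Γ}
    (fun b : Sym2 V → B => if ∀ i : Fin L, b s(γ i.castSucc, γ i.succ) ∈ A' then (1 : ℝ) else 0)
    (fun b : Sym2 V → B =>
      if ∀ u ∈ Γ, ∀ w ∈ gg (adj A b) (univ \ Γ) k, b s(u, w) ∉ A then (1 : ℝ) else 0)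
    (by
      intro b b' hb
      have : ∀ i : Fin L, b s(γ i.castSucc, γ i.succ) = b' s(γ i.castSucc, γ i.succ) := by
        intro i
        refine hb _ fun v hv => ?_
        rcases Sym2.mem_iff.1 hv with rfl | rfl
        · exact hm _
        · exact hm _
      simp only [this])
    (by
      intro b b' hb
      have hout : ∀ u w : V, w ∉ Γ → b s(u, w) = b' s(u, w) := by
        intro u w hw
        refine hb _ ?_
        intro h
        exact hw (h w (Sym2.mem_mk_right u w))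
      have hgg : gg (adj A b) (univ \ Γ) k = gg (adj A b') (univ \ Γ) k :=
        gg_congr A Γ k b b' fun u _ w hw => hout u w (Finset.mem_sdiff.1 hw).2
      have hiff : (∀ u ∈ Γ, ∀ w ∈ gg (adj A b) (univ \ Γ) k, b s(u, w) ∉ A) ↔
          ∀ u ∈ Γ, ∀ w ∈ gg (adj A b') (univ \ Γ) k, b' s(u, w) ∉ A := by
        rw [hgg]
        refine forall_congr' fun u => forall_congr' fun _ => forall_congr' fun w =>
          forall_congr' fun hw => not_congr ?_
        have hw' : w ∉ Γ := (Finset.mem_sdiff.1 (mem_gg.1 hw).1).2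
        rw [hout u w hw']
      simp only [hiff])
  rw [Sep_PP, Sep_PP, Sep_PP, ← hind]
  congr 1
  funext b
  by_cases h1 : ∀ i : Fin L, b s(γ i.castSucc, γ i.succ) ∈ A' <;>
    by_cases h2 : ∀ u ∈ Γ, ∀ w ∈ gg (adj A b) (univ \ Γ) k, b s(u, w) ∉ A <;>
    simp [h1, h2]

private theorem Sep_eq {q : B → ℝ} (hq : IsLaw q) (A : Finset B) (k : ℕ) (Γ : Finset V) :
    PP q {b : Sym2 V → B | ∀ u ∈ Γ, ∀ w ∈ gg (adj A b) (univ \ Γ) k, b s(u, w) ∉ A} =
      EE q (fun b : Sym2 V → B => (1 - qs q A) ^ (Γ.card * (gg (adj A b) (univ \ Γ) k).card)) := by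
  classical
  have key : ∀ D : Finset V,
      EE q (fun b : Sym2 V → B => (if gg (adj A b) (univ \ Γ) k = D then (1 : ℝ) else 0) *
        (if ∀ u ∈ Γ, ∀ w ∈ D, b s(u, w) ∉ A then (1 : ℝ) else 0)) =
      EE q (fun b : Sym2 V → B => (if gg (adj A b) (univ \ Γ) k = D then (1 : ℝ) else 0) *
        (1 - qs q A) ^ (Γ.card * D.card)) := by
    intro D
    by_cases hD : D ⊆ univ \ Γ
    · have hdis : Disjoint Γ D := by
        rw [Finset.disjoint_left]
        intro a ha hd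
        exact (Finset.mem_sdiff.1 (hD hd)).2 ha
      rw [EE_indep hq {e : Sym2 V | ∀ v ∈ e, v ∉ Γ}]
      · rw [← Sep_PP q (fun b : Sym2 V → B => ∀ u ∈ Γ, ∀ w ∈ D, b s(u, w) ∉ A),
          PP_none hq A Γ D hdis]
        have := EE_mul_left q ((1 - qs q A) ^ (Γ.card * D.card))
          (fun b : Sym2 V → B => if gg (adj A b) (univ \ Γ) k = D then (1 : ℝ) else 0)
        rw [mul_comm, ← this]
        congr 1
        funext b
        exact mul_comm _ _
      · intro b b' hb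
        have hgg : gg (adj A b) (univ \ Γ) k = gg (adj A b') (univ \ Γ) k := by
          refine gg_congr A Γ k b b' fun u hu w hw => hb _ ?_
          intro v hv
          rcases Sym2.mem_iff.1 hv with rfl | rfl
          · exact (Finset.mem_sdiff.1 hu).2
          · exact (Finset.mem_sdiff.1 hw).2
        simp only [hgg]
      · intro b b' hb
        have hiff : (∀ u ∈ Γ, ∀ w ∈ D, b s(u, w) ∉ A) ↔ ∀ u ∈ Γ, ∀ w ∈ D, b' s(u, w) ∉ A := by
          refine forall_congr' fun u => forall_congr' fun hu => forall_congr' fun w =>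
            forall_congr' fun _ => not_congr ?_
          rw [hb s(u, w)]
          intro h
          exact h u (Sym2.mem_mk_left u w) hu
        simp only [hiff]
    · have h0 : ∀ b : Sym2 V → B, gg (adj A b) (univ \ Γ) k ≠ D := by
        intro b hb
        apply hD
        rw [← hb]
        intro x hx
        exact (mem_gg.1 hx).1
      simp only [h0, if_false, zero_mul]
  rw [Sep_PP]
  calc EE q (fun b : Sym2 V → B =>
        if ∀ u ∈ Γ, ∀ w ∈ gg (adj A b) (univ \ Γ) k, b s(u, w) ∉ A then (1 : ℝ) else 0) =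
      EE q (fun b : Sym2 V → B => ∑ D : Finset V,
        (if gg (adj A b) (univ \ Γ) k = D then (1 : ℝ) else 0) *
        (if ∀ u ∈ Γ, ∀ w ∈ D, b s(u, w) ∉ A then (1 : ℝ) else 0)) := by
        congr 1
        funext b
        simp only [ite_mul, one_mul, zero_mul, Finset.sum_ite_eq, Finset.mem_univ, if_true]
    _ = ∑ D : Finset V, EE q (fun b : Sym2 V → B =>
        (if gg (adj A b) (univ \ Γ) k = D then (1 : ℝ) else 0) *
        (if ∀ u ∈ Γ, ∀ w ∈ D, b s(u, w) ∉ A then (1 : ℝ) else 0)) := EE_sum q _ _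
    _ = ∑ D : Finset V, EE q (fun b : Sym2 V → B =>
        (if gg (adj A b) (univ \ Γ) k = D then (1 : ℝ) else 0) *
        (1 - qs q A) ^ (Γ.card * D.card)) := Finset.sum_congr rfl fun D _ => key D
    _ = EE q (fun b : Sym2 V → B => ∑ D : Finset V,
        (if gg (adj A b) (univ \ Γ) k = D then (1 : ℝ) else 0) *
        (1 - qs q A) ^ (Γ.card * D.card)) := (EE_sum q _ _).symm
    _ = _ := by
        congr 1
        funext b
        simp only [ite_mul, one_mul, zero_mul, Finset.sum_ite_eq, Finset.mem_univ, if_true]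

theorem sep_bound {q : B → ℝ} (hq : IsLaw q) (A : Finset B) (k : ℕ) (Γ : Finset V) (m : ℝ) :
    PP q {b : Sym2 V → B | ∀ u ∈ Γ, ∀ w ∈ gg (adj A b) (univ \ Γ) k, b s(u, w) ∉ A} ≤
      (1 - qs q A) ^ (Γ.card * ⌈m⌉₊) +
      PP q {b : Sym2 V → B | ((gg (adj A b) (univ \ Γ) k).card : ℝ) < m} := by
  classical
  obtain ⟨a0, a1⟩ := qs_le_one hq A
  have b0 : 0 ≤ 1 - qs q A := by linarith
  have b1 : 1 - qs q A ≤ 1 := by linarith
  rw [Sep_eq hq, Sep_PP q (fun b : Sym2 V → B => ((gg (adj A b) (univ \ Γ) k).card : ℝ) < m)]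
  have hc := EE_const (ι := Sym2 V) hq ((1 - qs q A) ^ (Γ.card * ⌈m⌉₊))
  rw [← hc, ← EE_add]
  refine EE_mono hq fun b => ?_
  by_cases h : ((gg (adj A b) (univ \ Γ) k).card : ℝ) < m
  · rw [if_pos h]
    have h1 : (1 - qs q A) ^ (Γ.card * (gg (adj A b) (univ \ Γ) k).card) ≤ 1 :=
      pow_le_one₀ b0 b1
    have h2 : 0 ≤ (1 - qs q A) ^ (Γ.card * ⌈m⌉₊) := pow_nonneg b0 _
    linarith
  · rw [if_neg h, add_zero]
    push Not at h
    refine pow_le_pow_of_le_one b0 b1 (Nat.mul_le_mul_left _ ?_)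
    exact Nat.ceil_le.2 h

end RST.H
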