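import Pool.Agent.Lib.MP_7946c7_pr.H.Mass
import Pool.Agent.Lib.MP_7946c7_pr.H.Sep

/-!
# JOB H/Hang: H2, hanging pieces are short

`n = |V|`, `m₁ = min x 1`, `L = ⌈100 log n / m₁⌉₊`, `p = qs q A = (1+x)/n`, `p' = qs q A' = (1+1.1x)/n`.
`hang_num`: for `n` large `L + 1 ≤ xs n/1000` (`hpar_facts`, `1/m₁ ≤ 1/xs`), and
 `n (1+1.1x)^L (exp (-(1+x) Mx x (L+1)) + exp (-n^{a/8})) ≤ 1/n^2`: first term: `(1+1.1x)^L exp (-(1+x) Mx x L) ≤ exp (-m₁ L/20) ≤ exp (-5 log n)` (`rho_le`), so it is `≤ n^{-4}`; second term: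
 `(1+1.1x)^L ≤ exp (1.1 x L)`, `x L ≤ x (100 log n/m₁ + 1) ≤ 400 log n^2 + 4 log n` (`x/m₁ = max x 1 ≤ 4 log n`), so it is `≤ n^{-4}` by `asy_quad`.
`hang`: if the event holds, the initial piece of length `L` of the walk (`saw_shift` with `i = 0`) gives an injective `γ : Fin (L+1) → V` with `b s(γ i, γ (i+1)) ∈ A'` and
 `γ i ∉ gg (adj A b) univ k`; by `gg_of_adj` there is no `A`-edge between `Γ = image γ` and `gg (adj A b) (univ \ Γ) k`. So (`PP_exists_le`, sum over the injective `γ`)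
 `PP ≤ ∑_γ PP (path) * PP (sep)` (`sep_factor`), `PP (sep) ≤ (1-p)^{(L+1) ⌈Mx x n⌉₊} + PP (|gg| < Mx x n) ≤ exp (-(1+x) Mx x (L+1)) + exp (-n^{a/8})`: `sep_bound`; `(1-p)^N ≤ exp (-p N)`;
 `marginal` + `adj_eq_bg` + `gg_mass` with `W = univ \ Γ`, `|W| = n - (L+1) ≥ n (1 - xs/1000)`.
 And `∑_γ PP (path) ≤ n (n p')^L = n (1+1.1x)^L` by `saw_count` with `A i = A'` (exchange `∑` and `EE` by `EE_sum`).
-/

open Finset

namespace RST.H

theorem hang_num (a : ℝ) (ha : 0 < a) (ha1 : a ≤ 1 / 10) : ∃ n₀ : ℕ, ∀ n : ℕ, n₀ ≤ n →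
    ∀ (xs x : ℝ) (k L : ℕ), HPar a n xs k → xs ≤ x → x ≤ 4 * Real.log n →
    L = ⌈100 * Real.log n / min x 1⌉₊ →
    ((L + 1 : ℕ) : ℝ) ≤ xs * n / 1000 ∧
    n * (1 + 11 / 10 * x) ^ L * (Real.exp (-((1 + x) * Mx x * (L + 1))) +
      Real.exp (-(n : ℝ) ^ (a / 8))) ≤ 1 / (n : ℝ) ^ 2 := by
  obtain ⟨n1, hn1⟩ := hpar_facts a ha ha1
  obtain ⟨n2, hn2⟩ := asy_quad 440 10 0 (a / 8) (by linarith)
  refine ⟨max (max n1 n2) 3, ?_⟩
  intro n hn xs x k L hP hxs hx hL
  have hn1' : n1 ≤ n := le_trans (le_trans (le_max_left _ _) (le_max_left _ _)) hn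
  have hn2' : n2 ≤ n := le_trans (le_trans (le_max_right _ _) (le_max_left _ _)) hn
  have hn3 : 3 ≤ n := le_trans (le_max_right _ _) hn
  obtain ⟨f1, f2, -, -, -, -, -, f8⟩ := hn1 n hn1' xs k hP
  have hq := hn2 n hn2'
  have hnr : (3 : ℝ) ≤ n := by exact_mod_cast hn3
  have hnp : (0 : ℝ) < n := by linarith
  have hlog : 1 ≤ Real.log n := by
    rw [Real.le_log_iff_exp_le hnp]
    have := Real.exp_one_lt_d9
    linarith
  have hx0 : 0 < x := lt_of_lt_of_le f1 hxs
  obtain ⟨m, hm⟩ : ∃ m : ℝ, m = min x 1 := ⟨_, rfl⟩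
  rw [← hm] at hL
  have hm0 : 0 < m := by rw [hm]; exact lt_min hx0 one_pos
  have hmx : m ≤ x := by rw [hm]; exact min_le_left _ _
  have hmxs : xs ≤ m := by rw [hm]; exact le_min hxs (by linarith)
  have hLlo : 100 * Real.log n / m ≤ L := by rw [hL]; exact Nat.le_ceil _
  have hLhi : (L : ℝ) < 100 * Real.log n / m + 1 := by
    rw [hL]
    exact Nat.ceil_lt_add_one (div_nonneg (by linarith) hm0.le)
  have hLm : 100 * Real.log n ≤ m * L := by
    rw [div_le_iff₀ hm0] at hLlo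
    linarith
  constructor
  · push_cast
    have h1 : 100 * Real.log n / m ≤ 100 * Real.log n / xs :=
      div_le_div_of_nonneg_left (by linarith) f1 hmxs
    linarith
  · have hM := Mx_pos hx0
    obtain ⟨y, hy⟩ : ∃ y : ℝ, y = (1 + x) * Mx x := ⟨_, rfl⟩
    have hy0 : 0 < y := by rw [hy]; exact mul_pos (by linarith) hM
    have hrho := rho_le x hx0
    rw [← hy, ← hm] at hrho
    rw [← hy]
    have hN5 : Real.exp (-(5 * Real.log n)) = 1 / (n : ℝ) ^ 5 := by
      rw [Real.exp_neg, one_div]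
      congr 1
      have e : 5 * Real.log n = Real.log ((n : ℝ) ^ 5) := by
        rw [Real.log_pow]
        push_cast
        ring
      rw [e, Real.exp_log (by positivity)]
    have t1 : (1 + 11 / 10 * x) ^ L * Real.exp (-(y * (L + 1))) ≤ 1 / (n : ℝ) ^ 5 := by
      have e1 : Real.exp (-(y * (L + 1))) = Real.exp (-y) ^ L * Real.exp (-y) := by
        rw [← Real.exp_nat_mul, ← Real.exp_add]
        congr 1
        ring
      have e2 : Real.exp (-y) ≤ 1 := by
        rw [Real.exp_le_one_iff]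
        linarith
      have e3 : (1 + 11 / 10 * x) ^ L * Real.exp (-y) ^ L ≤ Real.exp (-(1 / 20 * m)) ^ L := by
        rw [← mul_pow]
        exact pow_le_pow_left₀ (mul_nonneg (by linarith) (Real.exp_pos _).le) hrho L
      have e4 : Real.exp (-(1 / 20 * m)) ^ L ≤ Real.exp (-(5 * Real.log n)) := by
        rw [← Real.exp_nat_mul]
        apply Real.exp_le_exp.2
        nlinarith
      rw [e1, ← hN5]
      calc (1 + 11 / 10 * x) ^ L * (Real.exp (-y) ^ L * Real.exp (-y))
          = ((1 + 11 / 10 * x) ^ L * Real.exp (-y) ^ L) * Real.exp (-y) := by ring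
        _ ≤ Real.exp (-(5 * Real.log n)) * 1 :=
            mul_le_mul (e3.trans e4) e2 (Real.exp_pos _).le (Real.exp_pos _).le
        _ = _ := mul_one _
    have t2 : (1 + 11 / 10 * x) ^ L * Real.exp (-(n : ℝ) ^ (a / 8)) ≤ 1 / (n : ℝ) ^ 5 := by
      have e1 : (1 + 11 / 10 * x) ^ L ≤ Real.exp (11 / 10 * x * L) := by
        have h1 : 1 + 11 / 10 * x ≤ Real.exp (11 / 10 * x) := by
          have := Real.add_one_le_exp (11 / 10 * x)
          linarith
        calc (1 + 11 / 10 * x) ^ L ≤ Real.exp (11 / 10 * x) ^ L :=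
              pow_le_pow_left₀ (by linarith) h1 L
          _ = Real.exp (11 / 10 * x * L) := by
              rw [← Real.exp_nat_mul]
              congr 1
              ring
      have e2 : x / m ≤ 4 * Real.log n := by
        rw [div_le_iff₀ hm0, hm]
        rcases le_total x 1 with h | h
        · rw [min_eq_left h]
          nlinarith
        · rw [min_eq_right h]
          linarith
      have e3 : x * L ≤ 400 * Real.log n ^ 2 + 4 * Real.log n := by
        have h1 : x * L ≤ x * (100 * Real.log n / m + 1) :=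
          mul_le_mul_of_nonneg_left hLhi.le hx0.le
        have h2 : x * (100 * Real.log n / m + 1) = 100 * Real.log n * (x / m) + x := by
          field_simp
        have h3 : 100 * Real.log n * (x / m) ≤ 100 * Real.log n * (4 * Real.log n) :=
          mul_le_mul_of_nonneg_left e2 (by linarith)
        nlinarith
      rw [← hN5]
      calc (1 + 11 / 10 * x) ^ L * Real.exp (-(n : ℝ) ^ (a / 8))
          ≤ Real.exp (11 / 10 * x * L) * Real.exp (-(n : ℝ) ^ (a / 8)) :=
            mul_le_mul_of_nonneg_right e1 (Real.exp_pos _).le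
        _ = Real.exp (11 / 10 * x * L + -(n : ℝ) ^ (a / 8)) := by rw [← Real.exp_add]
        _ ≤ Real.exp (-(5 * Real.log n)) := by
            apply Real.exp_le_exp.2
            nlinarith
    have hfin : (n : ℝ) * (2 * (1 / (n : ℝ) ^ 5)) ≤ 1 / (n : ℝ) ^ 2 := by
      rw [mul_one_div, mul_div_assoc', div_le_div_iff₀ (by positivity) (by positivity)]
      have h1 : (2 : ℝ) ≤ (n : ℝ) ^ 2 := by nlinarith
      have h2 : (n : ℝ) ^ 5 = (n : ℝ) ^ 3 * (n : ℝ) ^ 2 := by ring
      rw [h2]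
      have h3 : 0 ≤ (n : ℝ) ^ 3 := by positivity
      nlinarith [mul_le_mul_of_nonneg_left h1 h3]
    calc (n : ℝ) * (1 + 11 / 10 * x) ^ L * (Real.exp (-(y * (L + 1))) +
          Real.exp (-(n : ℝ) ^ (a / 8)))
        = n * ((1 + 11 / 10 * x) ^ L * Real.exp (-(y * (L + 1))) +
          (1 + 11 / 10 * x) ^ L * Real.exp (-(n : ℝ) ^ (a / 8))) := by ring
      _ ≤ n * (2 * (1 / (n : ℝ) ^ 5)) := by
          apply mul_le_mul_of_nonneg_left _ hnp.le
          linarith
      _ ≤ 1 / (n : ℝ) ^ 2 := hfin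

theorem hang (a : ℝ) (ha : 0 < a) (ha1 : a ≤ 1 / 10) : ∃ n₀ : ℕ, ∀ (V : Type) [Fintype V]
    [DecidableEq V], n₀ ≤ Fintype.card V → ∀ (xs x : ℝ) (k : ℕ), HPar a (Fintype.card V) xs k →
    xs ≤ x → x ≤ 4 * Real.log (Fintype.card V) →
    ∀ (B : Type) [Fintype B] [DecidableEq B] (q : B → ℝ) (A A' : Finset B), IsLaw q → A ⊆ A' →
    qs q A = (1 + x) / Fintype.card V → qs q A' = (1 + 11 / 10 * x) / Fintype.card V →
    PP q {b : Sym2 V → B | ∃ (γ : ℕ → V) (ℓ : ℕ),
      100 * Real.log (Fintype.card V) / min x 1 ≤ ℓ ∧ IsSAW (adj A' b) γ ℓ ∧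
      ∀ i ≤ ℓ, γ i ∉ gg (adj A b) univ k} ≤ 1 / (Fintype.card V : ℝ) ^ 2 := by
  classical
  obtain ⟨n1, hn1⟩ := hpar_facts a ha ha1
  obtain ⟨n2, hn2⟩ := hang_num a ha ha1
  obtain ⟨n3, hn3⟩ := gg_mass a ha ha1
  refine ⟨max (max n1 n2) (max n3 3), ?_⟩
  intro V _ _ hn xs x k hP hxs hx B _ _ q A A' hq hAA hqA hqA'
  have hn1' : n1 ≤ Fintype.card V := le_trans (le_trans (le_max_left _ _) (le_max_left _ _)) hn
  have hn2' : n2 ≤ Fintype.card V := le_trans (le_trans (le_max_right _ _) (le_max_left _ _)) hn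
  have hn3' : n3 ≤ Fintype.card V := le_trans (le_trans (le_max_left _ _) (le_max_right _ _)) hn
  have hn4' : 3 ≤ Fintype.card V := le_trans (le_trans (le_max_right _ _) (le_max_right _ _)) hn
  obtain ⟨n, hnV⟩ : ∃ n : ℕ, n = Fintype.card V := ⟨_, rfl⟩
  have hmass := hn3 V hn3' xs x k hP hxs hx
  rw [← hnV] at hn1' hn2' hn3' hn4' hP hx hqA hqA' hmass ⊢
  obtain ⟨f1, f2, -, -, -, -, -, f8⟩ := hn1 n hn1' xs k hP
  have hx0 : 0 < x := lt_of_lt_of_le f1 hxs
  obtain ⟨L, hL⟩ : ∃ L : ℕ, L = ⌈100 * Real.log n / min x 1⌉₊ := ⟨_, rfl⟩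
  obtain ⟨g1, g2⟩ := hn2 n hn2' xs x k L hP hxs hx hL
  have hnr : (3 : ℝ) ≤ n := by exact_mod_cast hn4'
  have hnp : (0 : ℝ) < n := by linarith
  have hM := Mx_pos hx0
  set path : (Fin (L + 1) → V) → Set (Sym2 V → B) := fun γ =>
    {b | ∀ i : Fin L, b s(γ i.castSucc, γ i.succ) ∈ A'} with hpath
  set sep : (Fin (L + 1) → V) → Set (Sym2 V → B) := fun γ =>
    {b | ∀ u ∈ univ.image γ, ∀ w ∈ gg (adj A b) (univ \ univ.image γ) k, b s(u, w) ∉ A} with hsep
  set SB : ℝ := Real.exp (-((1 + x) * Mx x * (L + 1))) + Real.exp (-(n : ℝ) ^ (a / 8)) with hSB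
  have hSB0 : 0 ≤ SB := by rw [hSB]; positivity
  -- inclusion
  have hincl : {b : Sym2 V → B | ∃ (γ : ℕ → V) (ℓ : ℕ),
      100 * Real.log n / min x 1 ≤ ℓ ∧ IsSAW (adj A' b) γ ℓ ∧
      ∀ i ≤ ℓ, γ i ∉ gg (adj A b) univ k} ⊆
      {b | ∃ γ ∈ (univ.filter fun γ : Fin (L + 1) → V => Function.Injective γ),
        b ∈ path γ ∩ sep γ} := by
    rintro b ⟨γ, ℓ, h1, h2, h3⟩
    have hLℓ : L ≤ ℓ := by
      rw [hL]
      exact Nat.ceil_le.2 h1
    refine ⟨fun i => γ i, ?_, ?_, ?_⟩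
    · rw [Finset.mem_filter]
      refine ⟨Finset.mem_univ _, ?_⟩
      intro i j hij
      have := h2.2 i (by have := i.2; omega) j (by have := j.2; omega) hij
      exact Fin.ext this
    · intro i
      have := h2.1 i (by have := i.2; omega)
      exact this.2
    · intro u hu w hw hb
      obtain ⟨i, -, rfl⟩ := Finset.mem_image.1 hu
      have hw' := (mem_gg.1 hw).1
      have hne : γ i ≠ w := by
        intro h
        exact (Finset.mem_sdiff.1 hw').2 (h ▸ hu)
      have h4 : γ i ∈ gg (adj A b) univ k := gg_of_adj (adj_symm A b) hw ⟨hne, hb⟩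
      exact h3 i (by have := i.2; omega) h4
  -- bound for sep
  have hsepB : ∀ γ : Fin (L + 1) → V, Function.Injective γ → PP q (sep γ) ≤ SB := by
    intro γ hγ
    have hcard : (univ.image γ).card = L + 1 := by
      rw [Finset.card_image_of_injective _ hγ, Finset.card_univ, Fintype.card_fin]
    refine (sep_bound hq A k (univ.image γ) (Mx x * n)).trans ?_
    rw [hSB]
    apply add_le_add
    · obtain ⟨hp0, hp1⟩ := qs_le_one hq A
      have h1 : (1 - qs q A) ^ ((univ.image γ).card * ⌈Mx x * n⌉₊) ≤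
          Real.exp (-(qs q A)) ^ ((univ.image γ).card * ⌈Mx x * n⌉₊) := by
        apply pow_le_pow_left₀ (by linarith)
        have := Real.add_one_le_exp (-(qs q A))
        linarith
      refine h1.trans ?_
      rw [← Real.exp_nat_mul]
      apply Real.exp_le_exp.2
      have h2 : Mx x * n ≤ (⌈Mx x * n⌉₊ : ℝ) := Nat.le_ceil _
      have h3 : (1 + x) * Mx x * (L + 1) ≤
          (((univ.image γ).card * ⌈Mx x * n⌉₊ : ℕ) : ℝ) * qs q A := by
        rw [hcard, hqA]
        push_cast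
        have h4 : (1 + x) * Mx x * (L + 1) = ((L : ℝ) + 1) * (Mx x * n) * ((1 + x) / n) := by
          field_simp
        rw [h4]
        apply mul_le_mul_of_nonneg_right _ (div_nonneg (by linarith) hnp.le)
        exact mul_le_mul_of_nonneg_left h2 (by positivity)
      linarith
    · have h5 : PP q {b : Sym2 V → B |
          ((gg (adj A b) (univ \ univ.image γ) k).card : ℝ) < Mx x * n} =
          PP (bern (qs q A)) {ξ : Sym2 V → Bool |
          ((gg (bg ξ) (univ \ univ.image γ) k).card : ℝ) < Mx x * n} := by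
        unfold PP
        rw [← marginal hq A (fun ξ : Sym2 V → Bool => if ξ ∈ {ξ : Sym2 V → Bool |
          ((gg (bg ξ) (univ \ univ.image γ) k).card : ℝ) < Mx x * n} then (1 : ℝ) else 0)]
        congr 1
        funext b
        simp only [Set.mem_ofPred_eq, adj_eq_bg]
      rw [h5, hqA]
      apply hmass
      rw [Finset.card_sdiff_of_subset (Finset.subset_univ _), hcard, Finset.card_univ, ← hnV]
      have h6 : L + 1 ≤ n := by
        have : ((L + 1 : ℕ) : ℝ) ≤ n := by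
          refine g1.trans ?_
          nlinarith
        exact_mod_cast this
      rw [Nat.cast_sub h6]
      nlinarith
  -- sum over the paths
  have hsum : ∑ γ ∈ (univ.filter fun γ : Fin (L + 1) → V => Function.Injective γ),
      PP q (path γ) ≤ n * (1 + 11 / 10 * x) ^ L := by
    have h1 := saw_count (V := V) hq L (fun _ => A')
    rw [EE_sum] at h1
    rw [Finset.prod_const, Finset.card_range, hqA', ← hnV] at h1
    have h2 : (n : ℝ) * ((1 + 11 / 10 * x) / n) = 1 + 11 / 10 * x := by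
      field_simp
    rw [h2] at h1
    refine le_trans ?_ h1
    rw [Finset.sum_filter]
    apply Finset.sum_le_sum
    intro γ _
    split_ifs with hγ
    · unfold PP
      apply le_of_eq
      congr 1
      funext b
      simp only [hpath, Set.mem_ofPred_eq, hγ, true_and]
    · apply EE_nonneg hq
      intro b
      split_ifs <;> norm_num
  calc PP q {b : Sym2 V → B | ∃ (γ : ℕ → V) (ℓ : ℕ),
      100 * Real.log n / min x 1 ≤ ℓ ∧ IsSAW (adj A' b) γ ℓ ∧
      ∀ i ≤ ℓ, γ i ∉ gg (adj A b) univ k}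
      ≤ PP q {b | ∃ γ ∈ (univ.filter fun γ : Fin (L + 1) → V => Function.Injective γ),
        b ∈ path γ ∩ sep γ} := PP_mono hq hincl
    _ ≤ ∑ γ ∈ (univ.filter fun γ : Fin (L + 1) → V => Function.Injective γ),
        PP q (path γ ∩ sep γ) := PP_exists_le hq _ _
    _ ≤ ∑ γ ∈ (univ.filter fun γ : Fin (L + 1) → V => Function.Injective γ),
        PP q (path γ) * SB := by
        apply Finset.sum_le_sum
        intro γ hγ
        have hγ' := (Finset.mem_filter.1 hγ).2
        have h1 := sep_factor hq A A' k L γ (univ.image γ) rfl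
        have h2 : PP q (path γ ∩ sep γ) = PP q (path γ) * PP q (sep γ) := h1
        rw [h2]
        exact mul_le_mul_of_nonneg_left (hsepB γ hγ') (PP_nonneg hq _)
    _ = (∑ γ ∈ (univ.filter fun γ : Fin (L + 1) → V => Function.Injective γ),
        PP q (path γ)) * SB := by rw [Finset.sum_mul]
    _ ≤ n * (1 + 11 / 10 * x) ^ L * SB := mul_le_mul_of_nonneg_right hsum hSB0
    _ ≤ 1 / (n : ℝ) ^ 2 := g2

end RST.H
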