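import Pool.Agent.Lib.MP_7946c7_pr.IfB
import Pool.Agent.Lib.MP_7946c7_pr.IfG

/-!
# JOB H/Trans: transfer with one or two thresholds; union bound for the labels

* `labLaw_prob`: `labLaw n` is a probability measure (`Measure.pi` of probability measures; `volume (Icc 0 1) = 1`).
* `transfer1`: `transfer` with `K = 1`, `x = fun _ => x`, the set `{R | R 0 ∈ Φ}`; then `adj_eq_bg` and `marginal` (with the set indicator; `qs q (lowBins 0) = (1+x)/n`).
* `transfer2`: `transfer` with `K = 2`, `x = ![x, y]`, `B = Fin 3`, `A = lowBins 0 ⊆ A' = lowBins 1`.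
* `lab_union`: `μ (⋂ A_i)ᶜ ≤ ∑ μ (A_i)ᶜ` for finitely many sets, in `toReal` form.
-/

open Finset MeasureTheory

namespace RST.H

theorem labLaw_prob (n : ℕ) : IsProbabilityMeasure (labLaw n) := by
  have h : IsProbabilityMeasure (volume.restrict (Set.Icc (0 : ℝ) 1)) := by
    constructor
    rw [Measure.restrict_apply MeasurableSet.univ, Set.univ_inter, Real.volume_Icc]
    simp
  unfold labLaw
  infer_instance

theorem transfer1 (n : ℕ) (hn : 0 < n) (x : ℝ) (h0 : -1 ≤ x) (h1 : x ≤ n - 1)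
    (Φ : Set (Fin n → Fin n → Prop)) :
    MeasurableSet {ω | gr (xlab n ω) x ∈ Φ} ∧
      (labLaw n {ω | gr (xlab n ω) x ∈ Φ}).toReal =
        PP (bern ((1 + x) / n)) {ξ : Sym2 (Fin n) → Bool | bg ξ ∈ Φ} := by
  classical
  obtain ⟨q, hq, hA, hT⟩ := transfer n hn 1 (fun _ => x) (fun _ _ _ => le_rfl) (fun _ => h0)
    (fun _ => h1)
  obtain ⟨t1, t2⟩ := hT {R | R 0 ∈ Φ}
  refine ⟨t1, ?_⟩
  have t3 : (labLaw n {ω | gr (xlab n ω) x ∈ Φ}).toReal =
      PP q {b : Sym2 (Fin n) → Fin (1 + 1) | adj (lowBins (0 : Fin 1)) b ∈ Φ} := t2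
  rw [t3]
  have hm := marginal (ι := Sym2 (Fin n)) hq (lowBins (0 : Fin 1))
    (fun ξ => if bg ξ ∈ Φ then (1 : ℝ) else 0)
  rw [hA 0] at hm
  have e1 : PP (bern ((1 + x) / n)) {ξ : Sym2 (Fin n) → Bool | bg ξ ∈ Φ} =
      EE (bern ((1 + x) / n)) (fun ξ : Sym2 (Fin n) → Bool =>
        if bg ξ ∈ Φ then (1 : ℝ) else 0) := by
    unfold PP
    congr 1
  have e2 : PP q {b : Sym2 (Fin n) → Fin (1 + 1) | adj (lowBins (0 : Fin 1)) b ∈ Φ} =
      EE q (fun b : Sym2 (Fin n) → Fin (1 + 1) =>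
        if bg (fun e => decide (b e ∈ lowBins (0 : Fin 1))) ∈ Φ then (1 : ℝ) else 0) := by
    unfold PP
    congr 1
    funext b
    have e3 : adj (lowBins (0 : Fin 1)) b = bg (fun e => decide (b e ∈ lowBins (0 : Fin 1))) := by
      funext u v
      unfold adj bg
      simp
    simp only [Set.mem_setOf_eq, e3]
  rw [e1, e2]
  exact hm

theorem transfer2 (n : ℕ) (hn : 0 < n) (x y : ℝ) (h0 : -1 ≤ x) (hxy : x ≤ y) (h1 : y ≤ n - 1) :
    ∃ (q : Fin 3 → ℝ) (A A' : Finset (Fin 3)), IsLaw q ∧ A ⊆ A' ∧ qs q A = (1 + x) / n ∧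
      qs q A' = (1 + y) / n ∧ ∀ Φ : (Fin n → Fin n → Prop) → (Fin n → Fin n → Prop) → Prop,
      MeasurableSet {ω | Φ (gr (xlab n ω) x) (gr (xlab n ω) y)} ∧
      (labLaw n {ω | Φ (gr (xlab n ω) x) (gr (xlab n ω) y)}).toReal =
        PP q {b : Sym2 (Fin n) → Fin 3 | Φ (adj A b) (adj A' b)} := by
  have hmono : Monotone (![x, y] : Fin 2 → ℝ) := by
    intro i j hij
    fin_cases i <;> fin_cases j <;> simp_all
  obtain ⟨q, hq, hA, hT⟩ := transfer n hn 2 ![x, y] hmono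
    (by intro k; fin_cases k <;> simp <;> linarith)
    (by intro k; fin_cases k <;> simp <;> linarith)
  refine ⟨q, lowBins 0, lowBins 1, hq, ?_, hA 0, hA 1, ?_⟩
  · intro j hj
    simp only [lowBins, Finset.mem_filter, Finset.mem_univ, true_and] at hj ⊢
    exact hj.trans (by simp)
  · intro Φ
    exact hT {R | Φ (R 0) (R 1)}

theorem lab_inter2 (n : ℕ) {A A' : Set (Sym2 (Fin n) → ℝ)} (hA : MeasurableSet A)
    (hA' : MeasurableSet A') {ε ε' : ℝ} (h : (labLaw n Aᶜ).toReal ≤ ε)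
    (h' : (labLaw n A'ᶜ).toReal ≤ ε') :
    MeasurableSet (A ∩ A') ∧ (labLaw n (A ∩ A')ᶜ).toReal ≤ ε + ε' := by
  have := labLaw_prob n
  refine ⟨hA.inter hA', ?_⟩
  rw [Set.compl_inter]
  have h1 : labLaw n (Aᶜ ∪ A'ᶜ) ≤ labLaw n Aᶜ + labLaw n A'ᶜ := measure_union_le _ _
  have h2 : (labLaw n (Aᶜ ∪ A'ᶜ)).toReal ≤ (labLaw n Aᶜ + labLaw n A'ᶜ).toReal :=
    ENNReal.toReal_mono (by finiteness) h1
  rw [ENNReal.toReal_add (by finiteness) (by finiteness)] at h2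
  linarith

theorem lab_inter (n : ℕ) {κ : Type} (s : Finset κ) (A : κ → Set (Sym2 (Fin n) → ℝ))
    (hA : ∀ i ∈ s, MeasurableSet (A i)) (ε : κ → ℝ) (h : ∀ i ∈ s, (labLaw n (A i)ᶜ).toReal ≤ ε i) :
    MeasurableSet (⋂ i ∈ s, A i) ∧ (labLaw n (⋂ i ∈ s, A i)ᶜ).toReal ≤ ∑ i ∈ s, ε i := by
  classical
  induction s using Finset.induction_on with
  | empty => simp
  | insert i s hi ih =>
    obtain ⟨i1, i2⟩ := ih (fun j hj => hA j (Finset.mem_insert_of_mem hj))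
      (fun j hj => h j (Finset.mem_insert_of_mem hj))
    have e : (⋂ j ∈ insert i s, A j) = A i ∩ ⋂ j ∈ s, A j := by
      simp [Set.iInter_iInter_eq_or_left]
    rw [e, Finset.sum_insert hi]
    exact lab_inter2 n (hA i (Finset.mem_insert_self i s)) i1
      (h i (Finset.mem_insert_self i s)) i2

end RST.H
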