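import Pool.Agent.Lib.MP_7946c7_pr.H.Gnp
import Pool.Agent.Lib.MP_7946c7_pr.H.Hang
import Pool.Agent.Lib.MP_7946c7_pr.H.Trans

/-!
# JOB H/Facts: probability of `HangFacts` for the continuous labels

`V = Fin n`. For `j ≤ j₂` put `x_j = sc xs j ∈ [xs, 4 log n]` (`le_sc`, `sc_mono`).
* `A_j = {ω | the conn property at j}`: `transfer1` with `x = x_j` (`x_j ≤ n - 1` for large `n`), the complement has probability `≤ 1/n^4` by `gg_conn`.
* `B_j` (`j < j₂`) `= {ω | the hang property at j}`: `transfer2` with `x = x_j`, `y = 11/10 x_j`, complement `≤ 1/n^2` by `hang`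
  (negate: there are `γ, ℓ` with `IsSAW`, avoiding, and `100 log n/min ≤ ℓ`).
* `F = {ω | full}`: `transfer1` with `x = x_{j₂}`, complement `≤ 1/n^{1/4}` by `gnp_conn`, `p n = 1 + x_{j₂} ≥ 3 log n`.
`A` = intersection (`lab_inter`, `lab_inter2`), error `≤ (j₂+1)/n^4 + j₂/n^2 + 1/n^{1/4} ≤ 2/n^{1/4}` for large `n` because `j₂ ≤ 21 log n ≤ n` (`j_le`).
-/

open Finset MeasureTheory

namespace RST.H

private theorem Facts_num {n : ℕ} (hn : 3 ≤ n) {j : ℕ} (hj : (j : ℝ) ≤ (n : ℝ) ^ (1 / 4 : ℝ)) :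
    (∑ _i ∈ range (j + 1), 1 / (n : ℝ) ^ 4) + (∑ _i ∈ range j, 1 / (n : ℝ) ^ 2) +
      1 / (n : ℝ) ^ (1 / 4 : ℝ) ≤ 2 / (n : ℝ) ^ (1 / 4 : ℝ) := by
  have hn3 : (3 : ℝ) ≤ n := by exact_mod_cast hn
  have hn0 : (0 : ℝ) ≤ n := by linarith
  set s : ℝ := (n : ℝ) ^ (1 / 4 : ℝ) with hs
  have hs4 : s ^ 4 = n := by
    rw [hs, ← Real.rpow_natCast, ← Real.rpow_mul hn0]
    norm_num
  have hs1 : 1 ≤ s := Real.one_le_rpow (by linarith) (by norm_num)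
  have hs0 : 0 < s := by linarith
  rw [sum_const, sum_const, card_range, card_range, nsmul_eq_mul, nsmul_eq_mul, ← hs4]
  push_cast
  have h1 : ((j : ℝ) + 1) * (1 / (s ^ 4) ^ 4) ≤ ((j : ℝ) + 1) * (1 / (s ^ 4) ^ 2) := by
    refine mul_le_mul_of_nonneg_left ?_ (by positivity)
    refine one_div_le_one_div_of_le (by positivity) ?_
    exact pow_le_pow_right₀ (one_le_pow₀ hs1) (by norm_num)
  have h2 : (2 * (j : ℝ) + 1) * (1 / (s ^ 4) ^ 2) ≤ 1 / s := by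
    have h3 : 2 * (j : ℝ) + 1 ≤ 3 * s := by linarith
    have h4 : (3 : ℝ) ≤ s ^ 6 := by
      have h5 : s ^ 6 = s ^ 4 * s ^ 2 := by ring
      have h6 : 1 ≤ s ^ 2 := one_le_pow₀ hs1
      rw [h5, hs4]
      nlinarith
    rw [mul_one_div, div_le_div_iff₀ (by positivity) hs0]
    have h7 : (s ^ 4) ^ 2 = s ^ 2 * s ^ 6 := by ring
    rw [h7]
    nlinarith [mul_le_mul_of_nonneg_right h3 hs0.le, mul_le_mul_of_nonneg_left h4 (sq_nonneg s)]
  have h8 : 2 / s = 1 / s + 1 / s := by ring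
  rw [h8]
  nlinarith

private def FactsC (n k : ℕ) : Set (Fin n → Fin n → Prop) :=
  {R | ∀ u ∈ gg R univ k, ∀ v ∈ gg R univ k, Rch R univ u v}

private def FactsH (n k : ℕ) (r : ℝ) (R R' : Fin n → Fin n → Prop) : Prop :=
  ∀ (γ : ℕ → Fin n) (ℓ : ℕ), IsSAW R' γ ℓ → (∀ i ≤ ℓ, γ i ∉ gg R univ k) → (ℓ : ℝ) < r

private def FactsF (n : ℕ) : Set (Fin n → Fin n → Prop) := {R | ∀ u v, Rch R univ u v}

theorem hang_facts_prob (a : ℝ) (ha : 0 < a) (ha1 : a ≤ 1 / 10) : ∃ n₀ : ℕ, ∀ n : ℕ, n₀ ≤ n →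
    ∀ (xs : ℝ) (k j₂ : ℕ), HPar a n xs k → 3 * Real.log n ≤ sc xs j₂ → sc xs j₂ ≤ 4 * Real.log n →
    ∃ A : Set (Sym2 (Fin n) → ℝ), MeasurableSet A ∧
      (labLaw n Aᶜ).toReal ≤ 2 / (n : ℝ) ^ (1 / 4 : ℝ) ∧
      ∀ ω ∈ A, HangFacts (xlab n ω) xs k j₂ := by
  obtain ⟨n₁, h₁⟩ := gg_conn a ha ha1
  obtain ⟨n₂, h₂⟩ := hang a ha ha1
  obtain ⟨n₃, h₃⟩ := gnp_conn
  obtain ⟨n₄, h₄⟩ := j_le a ha ha1
  obtain ⟨n₅, h₅⟩ := asy_log 21 (1 / 4) 1 (by norm_num)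
  obtain ⟨n₆, h₆⟩ := hpar_facts a ha ha1
  refine ⟨max (max (max n₁ n₂) (max n₃ n₄)) (max (max n₅ n₆) 3), ?_⟩
  intro n hn xs k j₂ hP hlo hhi
  simp only [max_le_iff] at hn
  obtain ⟨⟨⟨hn1, hn2⟩, hn3, hn4⟩, ⟨hn5, hn6⟩, hn7⟩ := hn
  have hn0 : 0 < n := by omega
  have hnR : (3 : ℝ) ≤ n := by exact_mod_cast hn7
  have hnR0 : (0 : ℝ) < n := by linarith
  obtain ⟨hxs0, -⟩ := h₆ n hn6 xs k hP
  have hj := h₄ n hn4 xs k j₂ hP hhi
  have hlog := h₅ n hn5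
  rw [pow_one] at hlog
  have hrp : (n : ℝ) ^ (1 / 4 : ℝ) ≤ n := by
    calc (n : ℝ) ^ (1 / 4 : ℝ) ≤ (n : ℝ) ^ (1 : ℝ) :=
          Real.rpow_le_rpow_of_exponent_le (by linarith) (by norm_num)
      _ = n := Real.rpow_one _
  have hsclo : ∀ j, xs ≤ sc xs j := fun j => le_sc hxs0.le j
  have hschi : ∀ j ≤ j₂, sc xs j ≤ 4 * Real.log n := fun j hj =>
    (sc_mono hxs0.le hj).trans hhi
  have hx1 : ∀ j ≤ j₂, 11 / 10 * sc xs j ≤ n - 1 := by
    intro j hj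
    have := hschi j hj
    linarith
  have hx2 : ∀ j ≤ j₂, sc xs j ≤ n - 1 := by
    intro j hj
    have := hx1 j hj
    have := hsclo j
    linarith
  have hx3 : ∀ j, -1 ≤ sc xs j := by
    intro j
    have := hsclo j
    linarith
  -- the three families of events
  have hC : ∀ j ∈ range (j₂ + 1), MeasurableSet {ω | gr (xlab n ω) (sc xs j) ∈ FactsC n k} ∧
      (labLaw n {ω | gr (xlab n ω) (sc xs j) ∈ FactsC n k}ᶜ).toReal ≤ 1 / (n : ℝ) ^ 4 := by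
    intro j hj
    have hj' : j ≤ j₂ := Nat.lt_succ_iff.1 (mem_range.1 hj)
    refine ⟨(transfer1 n hn0 _ (hx3 j) (hx2 j hj') (FactsC n k)).1, ?_⟩
    have h := (transfer1 n hn0 _ (hx3 j) (hx2 j hj') (FactsC n k)ᶜ).2
    have he : {ω | gr (xlab n ω) (sc xs j) ∈ FactsC n k}ᶜ =
        {ω | gr (xlab n ω) (sc xs j) ∈ (FactsC n k)ᶜ} := rfl
    rw [he, h]
    have h1 := h₁ (Fin n) (by rw [Fintype.card_fin]; exact hn1) xs (sc xs j) k
      (by rw [Fintype.card_fin]; exact hP) (hsclo j) (by rw [Fintype.card_fin]; exact hschi j hj')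
    rw [Fintype.card_fin] at h1
    refine le_trans (le_of_eq ?_) h1
    congr 1
    ext ξ
    simp only [FactsC, Set.mem_ofPred_eq, Set.mem_compl_iff, not_forall, exists_prop]
  have hH : ∀ j ∈ range j₂, MeasurableSet {ω | FactsH n k (100 * Real.log n / min (sc xs j) 1)
        (gr (xlab n ω) (sc xs j)) (gr (xlab n ω) (11 / 10 * sc xs j))} ∧
      (labLaw n {ω | FactsH n k (100 * Real.log n / min (sc xs j) 1)
        (gr (xlab n ω) (sc xs j)) (gr (xlab n ω) (11 / 10 * sc xs j))}ᶜ).toReal ≤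
        1 / (n : ℝ) ^ 2 := by
    intro j hj
    have hj' : j ≤ j₂ := (mem_range.1 hj).le
    obtain ⟨q, A, A', hq, hAA, hA, hA', hΦ⟩ := transfer2 n hn0 (sc xs j) (11 / 10 * sc xs j)
      (hx3 j) (by have := hsclo j; linarith) (hx1 j hj')
    refine ⟨(hΦ (FactsH n k (100 * Real.log n / min (sc xs j) 1))).1, ?_⟩
    have h := (hΦ (fun R R' => ¬ FactsH n k (100 * Real.log n / min (sc xs j) 1) R R')).2
    have he : {ω | FactsH n k (100 * Real.log n / min (sc xs j) 1)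
        (gr (xlab n ω) (sc xs j)) (gr (xlab n ω) (11 / 10 * sc xs j))}ᶜ =
        {ω | ¬ FactsH n k (100 * Real.log n / min (sc xs j) 1)
        (gr (xlab n ω) (sc xs j)) (gr (xlab n ω) (11 / 10 * sc xs j))} := rfl
    rw [he, h]
    have h1 := h₂ (Fin n) (by rw [Fintype.card_fin]; exact hn2) xs (sc xs j) k
      (by rw [Fintype.card_fin]; exact hP) (hsclo j) (by rw [Fintype.card_fin]; exact hschi j hj')
      (Fin 3) q A A' hq hAA (by rw [Fintype.card_fin]; exact hA)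
      (by rw [Fintype.card_fin]; exact hA')
    rw [Fintype.card_fin] at h1
    refine le_trans (PP_mono hq ?_) h1
    intro b hb
    simp only [FactsH, Set.mem_ofPred_eq, not_forall, exists_prop, not_lt] at hb ⊢
    obtain ⟨γ, ℓ, hb1, hb2, hb3⟩ := hb
    exact ⟨γ, ℓ, hb3, hb1, hb2⟩
  have hF : MeasurableSet {ω | gr (xlab n ω) (sc xs j₂) ∈ FactsF n} ∧
      (labLaw n {ω | gr (xlab n ω) (sc xs j₂) ∈ FactsF n}ᶜ).toReal ≤
        1 / (n : ℝ) ^ (1 / 4 : ℝ) := by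
    refine ⟨(transfer1 n hn0 _ (hx3 j₂) (hx2 j₂ le_rfl) (FactsF n)).1, ?_⟩
    have h := (transfer1 n hn0 _ (hx3 j₂) (hx2 j₂ le_rfl) (FactsF n)ᶜ).2
    have he : {ω | gr (xlab n ω) (sc xs j₂) ∈ FactsF n}ᶜ =
        {ω | gr (xlab n ω) (sc xs j₂) ∈ (FactsF n)ᶜ} := rfl
    rw [he, h]
    have h1 := h₃ (Fin n) (by rw [Fintype.card_fin]; exact hn3) ((1 + sc xs j₂) / n)
      (by rw [Fintype.card_fin, div_mul_cancel₀ _ hnR0.ne']; linarith)
      (by rw [div_le_one hnR0]; have := hx2 j₂ le_rfl; linarith)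
    rw [Fintype.card_fin] at h1
    refine le_trans (le_of_eq ?_) h1
    congr 1
    ext ξ
    simp only [FactsF, Set.mem_ofPred_eq, Set.mem_compl_iff, not_forall]
  -- the intersection
  obtain ⟨mC, eC⟩ := lab_inter n (range (j₂ + 1))
    (fun j => {ω | gr (xlab n ω) (sc xs j) ∈ FactsC n k}) (fun j hj => (hC j hj).1)
    (fun _ => 1 / (n : ℝ) ^ 4) (fun j hj => (hC j hj).2)
  obtain ⟨mH, eH⟩ := lab_inter n (range j₂)
    (fun j => {ω | FactsH n k (100 * Real.log n / min (sc xs j) 1)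
        (gr (xlab n ω) (sc xs j)) (gr (xlab n ω) (11 / 10 * sc xs j))}) (fun j hj => (hH j hj).1)
    (fun _ => 1 / (n : ℝ) ^ 2) (fun j hj => (hH j hj).2)
  obtain ⟨mCH, eCH⟩ := lab_inter2 n mC mH eC eH
  obtain ⟨mA, eA⟩ := lab_inter2 n mCH hF.1 eCH hF.2
  refine ⟨_, mA, eA.trans (Facts_num hn7 (hj.trans hlog)), ?_⟩
  rintro ω ⟨⟨hω1, hω2⟩, hω3⟩
  rw [Set.mem_iInter₂] at hω1 hω2
  constructor
  · intro j hj u hu v hv
    exact hω1 j (mem_range.2 (Nat.lt_succ_iff.2 hj)) u hu v hv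
  · intro j hj γ ℓ hγ hav
    rw [Fintype.card_fin]
    exact hω2 j (mem_range.2 hj) γ ℓ hγ hav
  · exact hω3

end RST.H
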