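import Pool.Agent.Lib.MP_7946c7_pr.H.Cmp
import Pool.Agent.Lib.MP_7946c7_pr.H.Mono

/-!
# JOB H/Gnp: connectivity of `G(n,p)`, `p n ≥ 3 log n`

If `u, v` are not joined there is a nonempty `X`, `2 |X| ≤ n`, without edges of `bg ξ` to its complement (`exists_cut`). By `PP_exists_le` over the `X` and `PP_none` (law `bern p`, `A = {true}`,
`qs (bern p) {true} = p`; `bg ξ u w ↔ ξ s(u,w) = true` for `u ≠ w`): the probability is at most `∑_X (1-p)^{|X| (n-|X|)} ≤ ∑_{m=1}^{n/2} C(n,m) exp (-p m n/2) ≤ ∑_{m ≥ 1} (n exp (-(3/2) log n))^m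
= ∑_{m≥1} n^{-m/2} ≤ 2 n^{-1/2}` for `n ≥ 4` (`C(n,m) ≤ n^m`; `n - m ≥ n/2`), and `2 n^{-1/2} ≤ n^{-1/4}` for `n ≥ 16`.
(Sum over the sets by cardinality: `Finset.sum_powerset_apply_card` or `Finset.sum_card_slice`.)
-/

open Finset

namespace RST.H

private theorem Gnp_set {V : Type} [Fintype V] [DecidableEq V] (p : ℝ) (hp0 : 0 ≤ p) (hp1 : p ≤ 1)
    (hp : 3 * Real.log (Fintype.card V) ≤ p * Fintype.card V) (X : Finset V)
    (hX : 2 * X.card ≤ Fintype.card V) :
    PP (bern p) {ξ : Sym2 V → Bool | ∀ u ∈ X, ∀ w ∈ univ \ X, ξ s(u, w) ∉ ({true} : Finset Bool)} ≤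
      Real.exp (-(3 / 2 * Real.log (Fintype.card V))) ^ X.card := by
  rw [PP_none (isLaw_bern' hp0 hp1) {true} X (univ \ X) disjoint_sdiff_self_right]
  have hq : qs (bern p) {true} = p := by
    unfold qs bern
    simp
  rw [hq, Nat.mul_comm, pow_mul]
  apply pow_le_pow_left₀ (pow_nonneg (by linarith) _)
  have hcard : (univ \ X).card = Fintype.card V - X.card := by
    rw [Finset.card_sdiff_of_subset (Finset.subset_univ X), Finset.card_univ]
  have hge : (Fintype.card V : ℝ) / 2 ≤ ((univ \ X).card : ℝ) := by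
    rw [hcard]
    have h1 : X.card ≤ Fintype.card V := by omega
    rw [Nat.cast_sub h1]
    have h2 : (2 : ℝ) * X.card ≤ Fintype.card V := by exact_mod_cast hX
    linarith
  have e1 : 1 - p ≤ Real.exp (-p) := by
    have := Real.add_one_le_exp (-p)
    linarith
  calc (1 - p) ^ (univ \ X).card ≤ (Real.exp (-p)) ^ (univ \ X).card :=
        pow_le_pow_left₀ (by linarith) e1 _
    _ = Real.exp (-(p * (univ \ X).card)) := by
        rw [← Real.exp_nat_mul]
        congr 1
        ring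
    _ ≤ Real.exp (-(3 / 2 * Real.log (Fintype.card V))) := by
        apply Real.exp_le_exp.mpr
        have := mul_le_mul_of_nonneg_left hge hp0
        linarith

theorem gnp_conn : ∃ n₀ : ℕ, ∀ (V : Type) [Fintype V] [DecidableEq V], n₀ ≤ Fintype.card V →
    ∀ p : ℝ, 3 * Real.log (Fintype.card V) ≤ p * Fintype.card V → p ≤ 1 →
    PP (bern p) {ξ : Sym2 V → Bool | ∃ u v, ¬ Rch (bg ξ) univ u v} ≤
      1 / (Fintype.card V : ℝ) ^ (1 / 4 : ℝ) := by
  classical
  refine ⟨16, fun V _ _ hn p hp hp1 => ?_⟩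
  set n := Fintype.card V with hndef
  have hn16 : (16 : ℝ) ≤ n := by exact_mod_cast hn
  have hn0 : (0 : ℝ) < n := by linarith
  set L := Real.log n with hL
  have hlog16 : 4 * Real.log 2 ≤ L := by
    have e : Real.log 16 = 4 * Real.log 2 := by
      have : (16 : ℝ) = 2 ^ 4 := by norm_num
      rw [this, Real.log_pow]
      norm_num
    rw [← e]
    exact Real.log_le_log (by norm_num) hn16
  have hlog2 : 0 < Real.log 2 := Real.log_pos (by norm_num)
  have hL0 : 0 < L := by linarith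
  have hp0 : 0 ≤ p := by
    by_contra h
    push Not at h
    have : p * n < 0 := mul_neg_of_neg_of_pos h hn0
    linarith
  have hlaw := isLaw_bern' hp0 hp1
  set y := Real.exp (-(3 / 2 * L)) with hy
  have hy0 : 0 < y := Real.exp_pos _
  set F : Finset (Finset V) := univ.filter fun X : Finset V => X.Nonempty ∧ 2 * X.card ≤ n with hF
  have hsub : {ξ : Sym2 V → Bool | ∃ u v, ¬ Rch (bg ξ) univ u v} ⊆
      {ξ : Sym2 V → Bool | ∃ X ∈ F, ξ ∈ {ξ : Sym2 V → Bool |
        ∀ u ∈ X, ∀ w ∈ univ \ X, ξ s(u, w) ∉ ({true} : Finset Bool)}} := by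
    intro ξ hξ
    simp only [Set.mem_ofPred_eq] at hξ ⊢
    obtain ⟨u, v, huv⟩ := hξ
    obtain ⟨X, h1, h2, h3⟩ := exists_cut (bg_symm ξ) huv
    refine ⟨X, ?_, ?_⟩
    · rw [hF, Finset.mem_filter]
      exact ⟨Finset.mem_univ _, h1, h2⟩
    · intro x hx w hw hmem
      rw [Finset.mem_singleton] at hmem
      apply h3 x hx w hw
      refine ⟨?_, hmem⟩
      rintro rfl
      rw [Finset.mem_sdiff] at hw
      exact hw.2 hx
  refine (PP_mono hlaw hsub).trans ?_
  refine (PP_exists_le hlaw F _).trans ?_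
  have hstep : ∑ X ∈ F, PP (bern p) {ξ : Sym2 V → Bool |
        ∀ u ∈ X, ∀ w ∈ univ \ X, ξ s(u, w) ∉ ({true} : Finset Bool)} ≤ ∑ X ∈ F, y ^ X.card := by
    apply Finset.sum_le_sum
    intro X hX
    rw [hF, Finset.mem_filter] at hX
    exact Gnp_set p hp0 hp1 hp X hX.2.2
  refine hstep.trans ?_
  have hsum : ∑ X ∈ F, y ^ X.card ≤ (1 + y) ^ n - 1 := by
    have h1 : ∑ X ∈ (univ : Finset V).powerset, y ^ X.card * 1 ^ ((univ : Finset V).card - X.card) =
        (y + 1) ^ (univ : Finset V).card := Finset.sum_pow_mul_eq_add_pow y 1 univ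
    simp only [one_pow, mul_one, Finset.card_univ] at h1
    rw [← hndef] at h1
    have h2 : ∑ X ∈ insert (∅ : Finset V) F, y ^ X.card ≤
        ∑ X ∈ (univ : Finset V).powerset, y ^ X.card := by
      apply Finset.sum_le_sum_of_subset_of_nonneg
      · intro X _
        exact Finset.mem_powerset.mpr (Finset.subset_univ X)
      · intro X _ _
        positivity
    have h3 : (∅ : Finset V) ∉ F := by
      rw [hF, Finset.mem_filter]
      rintro ⟨-, h, -⟩
      exact Finset.not_nonempty_empty h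
    rw [Finset.sum_insert h3, Finset.card_empty, pow_zero, h1, add_comm y 1] at h2
    linarith
  refine hsum.trans ?_
  have hny : (n : ℝ) * y = Real.exp (-(L / 2)) := by
    have : (n : ℝ) = Real.exp L := (Real.exp_log hn0).symm
    rw [hy]
    nth_rewrite 1 [this]
    rw [← Real.exp_add]
    congr 1
    ring
  have hny0 : 0 ≤ (n : ℝ) * y := by positivity
  have hny1 : (n : ℝ) * y ≤ 1 := by
    rw [hny]
    apply Real.exp_le_one_iff.mpr
    linarith
  have hexp : (1 + y) ^ n ≤ Real.exp (n * y) := by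
    rw [Real.exp_nat_mul]
    apply pow_le_pow_left₀ (by linarith)
    have := Real.add_one_le_exp y
    linarith
  have hexp2 : Real.exp (n * y) - 1 ≤ 2 * (n * y) := by
    have := Real.abs_exp_sub_one_le (x := n * y) (by rw [abs_of_nonneg hny0]; exact hny1)
    rw [abs_of_nonneg hny0] at this
    exact (le_abs_self _).trans this
  have hfin : 2 * Real.exp (-(L / 2)) ≤ 1 / (n : ℝ) ^ (1 / 4 : ℝ) := by
    have e1 : 1 / (n : ℝ) ^ (1 / 4 : ℝ) = Real.exp (-(L / 4)) := by
      rw [Real.rpow_def_of_pos hn0, one_div, ← Real.exp_neg]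
      congr 1
      rw [← hL]
      ring
    have e2 : (2 : ℝ) = Real.exp (Real.log 2) := (Real.exp_log (by norm_num)).symm
    rw [e1]
    nth_rewrite 1 [e2]
    rw [← Real.exp_add]
    apply Real.exp_le_exp.mpr
    linarith
  rw [hny] at hexp hexp2
  linarith

end RST.H
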