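import Pool.Agent.Lib.MP_7946c7_pr.H.Conn

/-!
# JOB H/Mass: mass of the giant component

Write `n = |V|`. `exist_event`: the event is decreasing in `ξ` (`cmp_mono`, `bg_mono`), so by `PP_bern_mono` its probability at `(1+x)/n` is at most its probability at
`(1+x₀)/n`, `x₀ = min x (1/10)`; `giant_exist` for `x₀`: `n (1 - x₀/100) ≤ n (1 - xs/1000) ≤ |W|` (`xs ≤ x₀` as `xs ≤ 1/10000`), `k ≤ xs n/1000 ≤ x₀ n/100`; `x₀^3 n ≥ xs^3 n ≥ n^{3a} ≥ n^{a/2}`.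
`gg_mass`: let `M` be `6/5 x`, `7/20`, `1/2`, `7/10` according to the range of `x`, i.e. `M = Mx x`; outside the events of `exist_event` and `gap_event` some component in `W` has
size `> M n`, and it is contained in `gg` (`cmp_subset_gg`). Total error
`exp (-(19/1000) n^{a/2}) + n^2 exp (-n^{a/2}/80000) ≤ exp (-n^{a/8})` for large `n` (`2 n^2 exp(-n^{a/2}/80000) ≤ exp (-n^{a/8})`: `80000 (2 log n + log 2 + n^{a/8}) ≤ n^{a/2}`; use
`asy_quad` for `n^{a/2} / 2` and `n^{a/8} * 160000 ≤ n^{a/2}`, i.e. `160000 ≤ n^{3a/8}`).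
-/

open Finset

namespace RST.H

theorem exist_event (a : ℝ) (ha : 0 < a) (ha1 : a ≤ 1 / 10) : ∃ n₀ : ℕ, ∀ (V : Type) [Fintype V]
    [DecidableEq V], n₀ ≤ Fintype.card V → ∀ (xs x : ℝ) (k : ℕ), HPar a (Fintype.card V) xs k →
    xs ≤ x → x ≤ 4 * Real.log (Fintype.card V) → ∀ W : Finset V,
    Fintype.card V * (1 - xs / 1000) ≤ W.card →
    PP (bern ((1 + x) / Fintype.card V)) {ξ : Sym2 V → Bool | ∀ v ∈ W,
      (cmp (bg ξ) W v).card ≤ k} ≤
      Real.exp (-(19 / 1000 * (Fintype.card V : ℝ) ^ (a / 2))) := by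
  obtain ⟨n1, hn1⟩ := hpar_facts a ha ha1
  obtain ⟨n2, hn2⟩ := asy_quad 0 4 1 1 one_pos
  refine ⟨max (max n1 n2) 3, ?_⟩
  intro V _ _ hn xs x k hP hxs hx W hW
  have hn1' : n1 ≤ Fintype.card V := le_trans (le_trans (le_max_left _ _) (le_max_left _ _)) hn
  have hn2' : n2 ≤ Fintype.card V := le_trans (le_trans (le_max_right _ _) (le_max_left _ _)) hn
  have hn3 : 3 ≤ Fintype.card V := le_trans (le_max_right _ _) hn
  obtain ⟨f1, f2, f3, -, -, f6, -, -⟩ := hn1 _ hn1' xs k hP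
  have hq := hn2 _ hn2'
  rw [Real.rpow_one] at hq
  obtain ⟨n, hnV⟩ : ∃ n : ℕ, n = Fintype.card V := ⟨_, rfl⟩
  have hgi := fun x₀ h0 h1 h2 => giant_exist (V := V) x₀ h0 h1 W h2 k f3
  have hkhi := hP.khi
  rw [← hnV] at hn3 hx hW f6 hq hgi hkhi ⊢
  have hnr : (3 : ℝ) ≤ n := by exact_mod_cast hn3
  have hnp : (0 : ℝ) < n := by linarith
  have hx0 : 0 < x := lt_of_lt_of_le f1 hxs
  obtain ⟨x₀, hx₀⟩ : ∃ x₀ : ℝ, x₀ = min x (1 / 10) := ⟨_, rfl⟩
  have g1 : xs ≤ x₀ := by rw [hx₀]; exact le_min hxs (by linarith)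
  have g2 : x₀ ≤ x := by rw [hx₀]; exact min_le_left _ _
  have g3 : x₀ ≤ 1 / 10 := by rw [hx₀]; exact min_le_right _ _
  have g0 : 0 < x₀ := lt_of_lt_of_le f1 g1
  have hmono := PP_bern_mono (ι := Sym2 V) (p := (1 + x₀) / n) (p' := (1 + x) / n)
    (div_nonneg (by linarith) hnp.le)
    (div_le_div_of_nonneg_right (by linarith) hnp.le)
    (by rw [div_le_one hnp]; linarith)
    {ξ : Sym2 V → Bool | ∀ v ∈ W, (cmp (bg ξ) W v).card ≤ k} (by
      intro ξ ξ' h hξ v hv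
      exact (Finset.card_le_card (cmp_mono (bg_mono h) (Finset.Subset.refl W) v)).trans (hξ v hv))
  refine hmono.trans ?_
  have h1 := hgi x₀ g0 g3 (by
      refine le_trans ?_ hW
      apply mul_le_mul_of_nonneg_left _ hnp.le
      linarith) (by
      have : xs * n ≤ x₀ * n := mul_le_mul_of_nonneg_right g1 hnp.le
      have : 0 ≤ x₀ * n := mul_nonneg g0.le hnp.le
      linarith)
  refine h1.trans ?_
  apply Real.exp_le_exp.2
  have h2 : xs ^ 3 * n ≤ x₀ ^ 3 * n :=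
    mul_le_mul_of_nonneg_right (pow_le_pow_left₀ f1.le g1 3) hnp.le
  have h3 : (n : ℝ) ^ (a / 2) ≤ (n : ℝ) ^ (3 * a) :=
    Real.rpow_le_rpow_of_exponent_le (by linarith) (by linarith)
  have h4 : 19 / 1000 * x₀ ^ 3 * n = 19 / 1000 * (x₀ ^ 3 * n) := by ring
  rw [h4]
  linarith

theorem gg_mass (a : ℝ) (ha : 0 < a) (ha1 : a ≤ 1 / 10) : ∃ n₀ : ℕ, ∀ (V : Type) [Fintype V]
    [DecidableEq V], n₀ ≤ Fintype.card V → ∀ (xs x : ℝ) (k : ℕ), HPar a (Fintype.card V) xs k →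
    xs ≤ x → x ≤ 4 * Real.log (Fintype.card V) → ∀ W : Finset V,
    Fintype.card V * (1 - xs / 1000) ≤ W.card →
    PP (bern ((1 + x) / Fintype.card V)) {ξ : Sym2 V → Bool |
      ((gg (bg ξ) W k).card : ℝ) < Mx x * Fintype.card V} ≤
      Real.exp (-(Fintype.card V : ℝ) ^ (a / 8)) := by
  obtain ⟨n1, hn1⟩ := exist_event a ha ha1
  obtain ⟨n2, hn2⟩ := gap_event a ha ha1
  obtain ⟨n3, hn3⟩ := asy_quad 0 320000 160000 (a / 2) (by linarith)
  obtain ⟨n4, hn4⟩ := asy_quad 0 0 160000 (a / 8) (by linarith)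
  obtain ⟨n5, hn5⟩ := hpar_facts a ha ha1
  refine ⟨max (max (max n1 n2) (max n3 n4)) (max n5 3), ?_⟩
  intro V _ _ hn xs x k hP hxs hx W hW
  have hm1 : max (max n1 n2) (max n3 n4) ≤ Fintype.card V := le_trans (le_max_left _ _) hn
  have hm2 : max n5 3 ≤ Fintype.card V := le_trans (le_max_right _ _) hn
  have hm3 : max n1 n2 ≤ Fintype.card V := le_trans (le_max_left _ _) hm1
  have hm4 : max n3 n4 ≤ Fintype.card V := le_trans (le_max_right _ _) hm1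
  have k1 : n1 ≤ Fintype.card V := le_trans (le_max_left _ _) hm3
  have k2 : n2 ≤ Fintype.card V := le_trans (le_max_right _ _) hm3
  have k3 : n3 ≤ Fintype.card V := le_trans (le_max_left _ _) hm4
  have k4 : n4 ≤ Fintype.card V := le_trans (le_max_right _ _) hm4
  have k5 : n5 ≤ Fintype.card V := le_trans (le_max_left _ _) hm2
  have k6 : 3 ≤ Fintype.card V := le_trans (le_max_right _ _) hm2
  have e1 := hn1 V k1 xs x k hP hxs hx W hW
  have e2 := hn2 V k2 xs x k hP hxs hx W hW (Mx x) (by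
    unfold Mx
    split_ifs with h1 h2 h3
    · exact Or.inl ⟨h1, rfl⟩
    · exact Or.inr (Or.inl ⟨lt_of_not_ge h1, rfl⟩)
    · exact Or.inr (Or.inr (Or.inl ⟨lt_of_not_ge h2, rfl⟩))
    · exact Or.inr (Or.inr (Or.inr ⟨lt_of_not_ge h3, rfl⟩)))
  have e3 := hn3 _ k3
  have e4 := hn4 _ k4
  obtain ⟨f1, -, -, -, -, -, -, -⟩ := hn5 _ k5 xs k hP
  have hq := (hn5 _ k5 xs k hP).2.2.2.2.2.2.2
  obtain ⟨n, hnV⟩ : ∃ n : ℕ, n = Fintype.card V := ⟨_, rfl⟩
  rw [← hnV] at k6 hx hW e1 e2 e3 e4 ⊢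
  have hnr : (3 : ℝ) ≤ n := by exact_mod_cast k6
  have hnp : (0 : ℝ) < n := by linarith
  have hlog : 0 ≤ Real.log n := Real.log_nonneg (by linarith)
  have hx0 : 0 < x := lt_of_lt_of_le f1 hxs
  have hp0 : 0 ≤ (1 + x) / n := div_nonneg (by linarith) hnp.le
  have hp1 : (1 + x) / n ≤ 1 := by
    rw [div_le_one hnp]
    -- from the last fact of `hpar_facts`
    rw [← hnV] at hq
    have h7 : xs ≤ 1 / 10000 := (hn5 _ k5 xs k hP).2.1
    have h8 : 100 * Real.log n ≤ 100 * Real.log n / xs := by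
      rw [le_div_iff₀ f1]
      have : 0 ≤ 100 * Real.log n := by linarith
      nlinarith
    have h9 : xs * n ≤ 1 / 10000 * n := mul_le_mul_of_nonneg_right h7 hnp.le
    linarith
  have hlaw := isLaw_bern' hp0 hp1
  have hsub : {ξ : Sym2 V → Bool | ((gg (bg ξ) W k).card : ℝ) < Mx x * n} ⊆
      {ξ : Sym2 V → Bool | ∀ v ∈ W, (cmp (bg ξ) W v).card ≤ k} ∪
      {ξ : Sym2 V → Bool | ∃ v ∈ W,
        k ≤ (cmp (bg ξ) W v).card ∧ ((cmp (bg ξ) W v).card : ℝ) ≤ Mx x * n} := by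
    intro ξ hξ
    have hξ' : ((gg (bg ξ) W k).card : ℝ) < Mx x * n := hξ
    by_contra hcon
    rw [Set.mem_union, not_or] at hcon
    obtain ⟨c1, c2⟩ := hcon
    have c1' : ¬ ∀ v ∈ W, (cmp (bg ξ) W v).card ≤ k := c1
    push Not at c1'
    obtain ⟨v, hv, hvk⟩ := c1'
    apply c2
    refine ⟨v, hv, hvk.le, ?_⟩
    have h5 : (cmp (bg ξ) W v).card ≤ (gg (bg ξ) W k).card :=
      Finset.card_le_card (cmp_subset_gg (bg_symm ξ) hvk.le)
    have h6 : ((cmp (bg ξ) W v).card : ℝ) ≤ ((gg (bg ξ) W k).card : ℝ) := by exact_mod_cast h5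
    linarith
  refine (PP_mono hlaw hsub).trans ((PP_union_le hlaw _ _).trans ((add_le_add e1 e2).trans ?_))
  obtain ⟨Z, hZ⟩ : ∃ Z : ℝ, Z = (n : ℝ) ^ (a / 8) := ⟨_, rfl⟩
  have hY : (n : ℝ) ^ (a / 2) = Z ^ 4 := by
    rw [hZ, ← Real.rpow_natCast, ← Real.rpow_mul hnp.le]
    congr 1
    push_cast
    ring
  rw [hY] at e3 ⊢
  rw [← hZ] at e4 ⊢
  have hZ1 : 160000 ≤ Z := by linarith
  have hZ3 : 160000 ≤ Z ^ 3 := by nlinarith [sq_nonneg Z, mul_self_nonneg Z]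
  have hZ4 : 160000 * Z ≤ Z ^ 4 := by
    have : Z ^ 4 = Z ^ 3 * Z := by ring
    rw [this]
    exact mul_le_mul_of_nonneg_right hZ3 (by linarith)
  have hn2e : (n : ℝ) ^ 2 = Real.exp (2 * Real.log n) := by
    rw [two_mul, Real.exp_add, Real.exp_log hnp]
    ring
  have t1 : Real.exp (-(19 / 1000 * Z ^ 4)) ≤ (n : ℝ) ^ 2 * Real.exp (-(Z ^ 4 / 80000)) := by
    have h1 : Real.exp (-(19 / 1000 * Z ^ 4)) ≤ Real.exp (-(Z ^ 4 / 80000)) := by
      apply Real.exp_le_exp.2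
      have : 0 ≤ Z ^ 4 := by positivity
      linarith
    have h2 : (1 : ℝ) ≤ (n : ℝ) ^ 2 := by nlinarith
    have h3 := (Real.exp_pos (-(Z ^ 4 / 80000))).le
    nlinarith
  have t2 : 2 * ((n : ℝ) ^ 2 * Real.exp (-(Z ^ 4 / 80000))) ≤ Real.exp (-Z) := by
    have h1 : (2 : ℝ) ≤ Real.exp 1 := by
      have := Real.add_one_le_exp (1 : ℝ)
      linarith
    calc 2 * ((n : ℝ) ^ 2 * Real.exp (-(Z ^ 4 / 80000)))
        ≤ Real.exp 1 * ((n : ℝ) ^ 2 * Real.exp (-(Z ^ 4 / 80000))) :=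
          mul_le_mul_of_nonneg_right h1 (mul_nonneg (by positivity) (Real.exp_pos _).le)
      _ = Real.exp (1 + 2 * Real.log n + -(Z ^ 4 / 80000)) := by
          rw [hn2e, Real.exp_add, Real.exp_add]
          ring
      _ ≤ Real.exp (-Z) := by
          apply Real.exp_le_exp.2
          linarith
  linarith

end RST.H
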