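import Pool.Agent.Lib.MP_7946c7_pr.H.Cmp
import Pool.Agent.Lib.MP_7946c7_pr.H.Diam

/-!
# JOB H/RLow: regime 3, lower bound, deterministic part

Suppose `T.diam ≤ r₀`. Let `w ∈ cmp (gr lab (-x₁)) univ v`. `exists_saw`: a self-avoiding walk `γ` of `T` from `v` to `w`, `ℓ = dist ≤ diam ≤ r₀`. `Rch (gr lab (-x₁)) univ v w`, so all its labels are
`≤ -x₁ + s ≤ 0`, so `γ` is a walk of `gr lab 0` (`T.Adj u w → u ≠ w`) and `w ∈ ball (gr lab 0) v r₀`. So `cmp ⊆ ball`, contradiction.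
-/

open Finset

namespace RST.H

theorem r3_low {V : Type} [Fintype V] [DecidableEq V] {lab : Sym2 V → ℝ} {x₁ s : ℝ} {r₀ : ℕ}
    (hs : s ≤ x₁) {T : SimpleGraph V} (hT : T.IsTree)
    (hl : ∀ (x : ℝ) (γ : ℕ → V) (ℓ : ℕ), IsSAW T.Adj γ ℓ → Rch (gr lab x) univ (γ 0) (γ ℓ) →
      ∀ i < ℓ, lab s(γ i, γ (i + 1)) ≤ x + s) (v : V)
    (hv : (ball (gr lab 0) v r₀).card < (cmp (gr lab (-x₁)) univ v).card) : r₀ < T.diam := by
  by_contra hcon
  rw [not_lt] at hcon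
  refine absurd hv (not_lt.2 (Finset.card_le_card fun w hw => ?_))
  obtain ⟨-, -, hR⟩ := mem_cmp.1 hw
  have hconn : T.Connected := hT.connected
  obtain ⟨γ, ℓ, hsaw, h0, hℓ, hdist⟩ := exists_saw hconn v w
  have hle : ℓ ≤ r₀ := by
    rw [hdist]
    exact (dist_le_diam' hconn v w).trans hcon
  have hlab := hl (-x₁) γ ℓ hsaw (by rw [h0, hℓ]; exact hR)
  classical
  unfold ball
  refine Finset.mem_filter.2 ⟨Finset.mem_univ _, γ, ℓ, hle, h0, hℓ,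
    fun i hi => ⟨(hsaw.1 i hi).ne, ?_⟩⟩
  have := hlab i hi
  linarith

end RST.H
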