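import Pool.Agent.Lib.MP_7946c7_pr.DefsW
import Pool.Agent.Lib.MP_7946c7_pr.H.Asy

/-!
# JOB H/RPar: regime 3, parameters (pure asymptotics)

Take `a = min ε 1 / 20` (so `a ≤ 1/20`, `a ≤ ε/20`). With `xs = n^{-1/3+a}`:
* `HPar`: `lo` equality; `hi`: `-1/3 + a ≤ -a`; `klo`: `Nat.le_ceil`; `khi`: `k ≤ n^{a/2} n^{2/3-2a} + 1 ≤ n^{2/3+a}/1000` for large `n`.
* slack: `β/n ≥ C n^{1/3}`, `6 log n/(β/n) ≤ (6/C) log n n^{-1/3} ≤ n^{-1/3+a}/25`, i.e. `(150/C) log n ≤ n^a` (`asy_log`).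
* upper: `r ≤ n^{1/3-a} + 1`; each of the terms `5000 log n n^{1/3-a}`, `4 (n^{1/3-a}+1)`, `2 n^{1/3+3a}` is `≤ n^{1/3+ε}/3` since `3 a < ε`.
* lower: `r₀ ≤ n^{1/3-ε} + 1 ≤ 2 n^{e}`, `e = max (1/3-ε) 0`; `200 r₀^2 log n ≤ 800 n^{2e} log n ≤ 10^{-4} n^{2/3-2a} ≤ kh xs` since `2 e < 2/3 - 2 a`.
* errors: each term tends to `0`; `2 n exp (-(200 log n)/32) = 2 n^{1-25/4}`.
-/

open Finset

namespace RST.H

theorem RPar_ev (c Y : ℝ) (hc : 0 < c) : ∃ n₀ : ℕ, ∀ n : ℕ, n₀ ≤ n → Y ≤ (n : ℝ) ^ c := by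
  have ht : Filter.Tendsto (fun n : ℕ => (n : ℝ) ^ c) Filter.atTop Filter.atTop :=
    (tendsto_rpow_atTop hc).comp tendsto_natCast_atTop_atTop
  exact Filter.eventually_atTop.1 (ht.eventually_ge_atTop Y)

theorem RPar_exp (y Y : ℝ) (hY : 0 < Y) (h : Y ≤ y) : Real.exp (-y) ≤ 1 / Y := by
  rw [Real.exp_neg, one_div]
  apply inv_anti₀ hY
  have := Real.add_one_le_exp y
  linarith

theorem r3_par (C ε : ℝ) (hC : 0 < C) (hε : 0 < ε) : ∃ a : ℝ, 0 < a ∧ a ≤ 1 / 10 ∧ ∃ n₀ : ℕ,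
    ∀ n : ℕ, n₀ ≤ n → ∀ β : ℝ, C * (n : ℝ) ^ (4 / 3 : ℝ) ≤ β →
    ∀ (xs s : ℝ) (k r r₀ : ℕ), xs = (n : ℝ) ^ (-(1 / 3 : ℝ) + a) →
    k = ⌈(n : ℝ) ^ (a / 2) / xs ^ 2⌉₊ → r = ⌈1 / xs⌉₊ → r₀ = ⌈(n : ℝ) ^ (1 / 3 - ε)⌉₊ →
    s = 200 * (r₀ : ℝ) ^ 2 * Real.log n →
    0 < n ∧ 2 ≤ n ∧ 0 < β ∧ HPar a n xs k ∧ 6 * Real.log n / (β / n) ≤ xs / 25 ∧ 0 < xs ∧ 1 ≤ r₀ ∧
    2 * (2500 * Real.log n / xs + 2 * r + (n : ℝ) ^ (1 / 3 + 3 * a)) ≤ (n : ℝ) ^ (1 / 3 + ε) ∧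
    s ≤ kh xs ∧
    2 / (n : ℝ) ^ (1 / 4 : ℝ) + 169 * (n : ℝ) ^ (-a) + Real.exp (-((n : ℝ) ^ (3 * a) / 500)) +
      n * (2 * Real.exp (-(s / (32 * (r₀ : ℝ) ^ 2)))) + Real.exp (-(n : ℝ) ^ (a / 8)) ≤ ε / 2 ∧
    1 / (n : ℝ) ≤ ε / 2 := by
  obtain ⟨a, hadef⟩ : ∃ a : ℝ, a = min ε 1 / 20 := ⟨_, rfl⟩
  have ha : 0 < a := by rw [hadef]; have := lt_min hε one_pos; positivity
  have ha1 : a ≤ 1 / 20 := by rw [hadef]; have := min_le_right ε 1; linarith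
  have haε : a ≤ ε / 20 := by rw [hadef]; have := min_le_left ε 1; linarith
  obtain ⟨e, hedef⟩ : ∃ e : ℝ, e = max (1 / 3 - ε) 0 := ⟨_, rfl⟩
  have he0 : 0 ≤ e := by rw [hedef]; exact le_max_right _ _
  have he1 : 1 / 3 - ε ≤ e := by rw [hedef]; exact le_max_left _ _
  have he2 : 0 < 2 / 3 - 2 * a - 2 * e := by
    have : e < 1 / 3 - a := by
      rw [hedef]
      apply max_lt <;> linarith
    linarith
  refine ⟨a, ha, by linarith, ?_⟩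
  obtain ⟨n₁, H1⟩ := RPar_ev a (2000 + 3380 / ε) ha
  obtain ⟨n₂, H2⟩ := asy_log (150 / C) a 1 ha
  obtain ⟨n₃, H3⟩ := asy_quad 0 5000 10 (ε - 3 * a) (by linarith)
  obtain ⟨n₄, H4⟩ := asy_log 8000000 (2 / 3 - 2 * a - 2 * e) 1 he2
  obtain ⟨n₅, H5⟩ := RPar_ev (1 / 4) (40 / ε) (by norm_num)
  obtain ⟨n₆, H6⟩ := RPar_ev (3 * a) (10000 / ε) (by positivity)
  obtain ⟨n₇, H7⟩ := RPar_ev (a / 8) (20 / ε) (by positivity)
  obtain ⟨n₈, H8⟩ := RPar_ev 1 (40 / ε) one_pos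
  refine ⟨n₁ + n₂ + n₃ + n₄ + n₅ + n₆ + n₇ + n₈ + 2, fun n hn β hβ xs s k r r₀ hxs hk hr hr₀ hs => ?_⟩
  have h1 := H1 n (by omega)
  have h2 := H2 n (by omega)
  have h3 := H3 n (by omega)
  have h4 := H4 n (by omega)
  have h5 := H5 n (by omega)
  have h6 := H6 n (by omega)
  have h7 := H7 n (by omega)
  have h8 := H8 n (by omega)
  rw [pow_one] at h2 h4
  rw [Real.rpow_one] at h8
  have hn2 : 2 ≤ n := by omega
  have hnR : (1 : ℝ) ≤ n := by exact_mod_cast (by omega : 1 ≤ n)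
  have hn0 : (0 : ℝ) < n := by linarith
  have hlog : 0 ≤ Real.log n := Real.log_nonneg hnR
  have hεi : 0 < 1 / ε := by positivity
  have hpp : ∀ c : ℝ, 0 < (n : ℝ) ^ c := fun c => Real.rpow_pos_of_pos hn0 c
  have hadd : ∀ c d : ℝ, (n : ℝ) ^ c * (n : ℝ) ^ d = (n : ℝ) ^ (c + d) :=
    fun c d => (Real.rpow_add hn0 c d).symm
  have hmono : ∀ c d : ℝ, c ≤ d → (n : ℝ) ^ c ≤ (n : ℝ) ^ d :=
    fun c d h => Real.rpow_le_rpow_of_exponent_le hnR h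
  have hxs0 : 0 < xs := by rw [hxs]; exact hpp _
  have hxsi : 1 / xs = (n : ℝ) ^ (1 / 3 - a) := by
    rw [hxs, one_div, ← Real.rpow_neg hn0.le]
    congr 1
    ring
  have hxsi2 : 1 / xs ^ 2 = (n : ℝ) ^ (2 / 3 - 2 * a) := by
    have : 1 / xs ^ 2 = (1 / xs) * (1 / xs) := by field_simp
    rw [this, hxsi, hadd]
    congr 1
    ring
  have hβ0 : 0 < β := lt_of_lt_of_le (mul_pos hC (hpp _)) hβ
  have hr₀1 : 1 ≤ r₀ := by
    rw [hr₀]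
    exact Nat.one_le_ceil_iff.2 (hpp _)
  have hr₀R : (0 : ℝ) < r₀ := by exact_mod_cast hr₀1
  have hone : (n : ℝ) ^ (0 : ℝ) = 1 := Real.rpow_zero _
  have h1a : 2000 ≤ (n : ℝ) ^ a := by
    have : 0 < 3380 / ε := by positivity
    linarith
  refine ⟨by omega, hn2, hβ0, ⟨hxs.ge, ?_, ?_, ?_⟩, ?_, hxs0, hr₀1, ?_, ?_, ?_, ?_⟩
  · rw [hxs]
    exact hmono _ _ (by linarith)
  · rw [hk]; exact Nat.le_ceil _
  · have hk1 : (k : ℝ) ≤ (n : ℝ) ^ (a / 2) / xs ^ 2 + 1 := by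
      rw [hk]
      exact (Nat.ceil_lt_add_one (by positivity)).le
    have e1 : (n : ℝ) ^ (a / 2) / xs ^ 2 = (n : ℝ) ^ (2 / 3 - 3 * a / 2) := by
      rw [div_eq_mul_one_div, hxsi2, hadd]
      congr 1
      ring
    have e2 : xs * n = (n : ℝ) ^ (2 / 3 : ℝ) * (n : ℝ) ^ a := by
      rw [hxs, hadd]
      nth_rewrite 2 [← Real.rpow_one (n : ℝ)]
      rw [hadd]
      congr 1
      ring
    have e3 := hmono (2 / 3 - 3 * a / 2) (2 / 3) (by linarith)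
    have e4 : 1 ≤ (n : ℝ) ^ (2 / 3 : ℝ) := by
      rw [← hone]; exact hmono _ _ (by norm_num)
    rw [e2]
    rw [e1] at hk1
    have e5 : (n : ℝ) ^ (2 / 3 : ℝ) * 2000 ≤ (n : ℝ) ^ (2 / 3 : ℝ) * (n : ℝ) ^ a :=
      mul_le_mul_of_nonneg_left h1a (hpp _).le
    linarith
  · have e1 : C * (n : ℝ) ^ (1 / 3 : ℝ) ≤ β / n := by
      rw [le_div_iff₀ hn0]
      refine le_trans (le_of_eq ?_) hβ
      rw [mul_assoc]
      nth_rewrite 2 [← Real.rpow_one (n : ℝ)]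
      rw [hadd]
      congr 2
      norm_num
    have e2 : 0 < C * (n : ℝ) ^ (1 / 3 : ℝ) := mul_pos hC (hpp _)
    have e3 : 6 * Real.log n / (β / n) ≤ 6 * Real.log n / (C * (n : ℝ) ^ (1 / 3 : ℝ)) := by
      apply div_le_div_of_nonneg_left (by positivity) e2 e1
    refine e3.trans ?_
    rw [div_le_iff₀ e2, hxs]
    have e4 : (n : ℝ) ^ (-(1 / 3 : ℝ) + a) / 25 * (C * (n : ℝ) ^ (1 / 3 : ℝ)) =
        C / 25 * (n : ℝ) ^ a := by
      have : (n : ℝ) ^ (-(1 / 3 : ℝ) + a) * (n : ℝ) ^ (1 / 3 : ℝ) = (n : ℝ) ^ a := by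
        rw [hadd]
        congr 1
        ring
      rw [← this]
      ring
    rw [e4]
    have e5 : C / 25 * (150 / C * Real.log n) ≤ C / 25 * (n : ℝ) ^ a :=
      mul_le_mul_of_nonneg_left h2 (by positivity)
    have e6 : C / 25 * (150 / C * Real.log n) = 6 * Real.log n := by
      field_simp
      ring
    linarith
  · have hr1 : (r : ℝ) ≤ 1 / xs + 1 := by
      rw [hr]
      exact (Nat.ceil_lt_add_one (by positivity)).le
    have e1 : 1 / xs ≤ (n : ℝ) ^ (1 / 3 + 3 * a) := by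
      rw [hxsi]; exact hmono _ _ (by linarith)
    have e2 : 1 ≤ (n : ℝ) ^ (1 / 3 + 3 * a) := by
      have := hmono 0 (1 / 3 + 3 * a) (by linarith)
      rwa [hone] at this
    have e3 : (n : ℝ) ^ (1 / 3 + ε) = (n : ℝ) ^ (1 / 3 + 3 * a) * (n : ℝ) ^ (ε - 3 * a) := by
      rw [hadd]
      congr 1
      ring
    have e4 : 2500 * Real.log n / xs = 2500 * Real.log n * (1 / xs) := by ring
    have e5 : 2500 * Real.log n * (1 / xs) ≤ 2500 * Real.log n * (n : ℝ) ^ (1 / 3 + 3 * a) :=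
      mul_le_mul_of_nonneg_left e1 (by positivity)
    rw [e3, e4]
    have e6 : (n : ℝ) ^ (1 / 3 + 3 * a) * (0 * Real.log n ^ 2 + 5000 * Real.log n + 10) ≤
        (n : ℝ) ^ (1 / 3 + 3 * a) * (n : ℝ) ^ (ε - 3 * a) :=
      mul_le_mul_of_nonneg_left h3 (hpp _).le
    have e7 : (n : ℝ) ^ (1 / 3 + 3 * a) * (0 * Real.log n ^ 2 + 5000 * Real.log n + 10) =
        2 * (2500 * Real.log n * (n : ℝ) ^ (1 / 3 + 3 * a)) + 10 * (n : ℝ) ^ (1 / 3 + 3 * a) := by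
      ring
    linarith
  · have e1 : (r₀ : ℝ) ≤ 2 * (n : ℝ) ^ e := by
      have e2 : (r₀ : ℝ) ≤ (n : ℝ) ^ (1 / 3 - ε) + 1 := by
        rw [hr₀]
        exact (Nat.ceil_lt_add_one (hpp _).le).le
      have e3 := hmono _ _ he1
      have e4 : 1 ≤ (n : ℝ) ^ e := by rw [← hone]; exact hmono _ _ he0
      linarith
    have e2 : (r₀ : ℝ) ^ 2 ≤ (2 * (n : ℝ) ^ e) ^ 2 := pow_le_pow_left₀ hr₀R.le e1 2
    have e3 : (2 * (n : ℝ) ^ e) ^ 2 = 4 * (n : ℝ) ^ (2 * e) := by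
      have : (n : ℝ) ^ (2 * e) = (n : ℝ) ^ e * (n : ℝ) ^ e := by rw [hadd]; congr 1; ring
      rw [this]; ring
    have e4 : s ≤ 800 * (n : ℝ) ^ (2 * e) * Real.log n := by
      rw [hs]
      have : 200 * (r₀ : ℝ) ^ 2 ≤ 800 * (n : ℝ) ^ (2 * e) := by linarith
      exact mul_le_mul_of_nonneg_right this hlog
    have e5 : (1 / 10 ^ 4 : ℝ) / xs ^ 2 ≤ kh xs := by
      unfold kh; exact Nat.le_ceil _
    have e6 : (1 / 10 ^ 4 : ℝ) / xs ^ 2 = 1 / 10 ^ 4 *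
        ((n : ℝ) ^ (2 * e) * (n : ℝ) ^ (2 / 3 - 2 * a - 2 * e)) := by
      rw [div_eq_mul_one_div, hxsi2, hadd]
      congr 2
      ring
    have e7 : (n : ℝ) ^ (2 * e) * (8000000 * Real.log n) ≤
        (n : ℝ) ^ (2 * e) * (n : ℝ) ^ (2 / 3 - 2 * a - 2 * e) :=
      mul_le_mul_of_nonneg_left h4 (hpp _).le
    have e8 : 800 * (n : ℝ) ^ (2 * e) * Real.log n =
        1 / 10 ^ 4 * ((n : ℝ) ^ (2 * e) * (8000000 * Real.log n)) := by ring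
    have e9 : 1 / 10 ^ 4 * ((n : ℝ) ^ (2 * e) * (8000000 * Real.log n)) ≤
        1 / 10 ^ 4 * ((n : ℝ) ^ (2 * e) * (n : ℝ) ^ (2 / 3 - 2 * a - 2 * e)) :=
      mul_le_mul_of_nonneg_left e7 (by norm_num)
    rw [← e6] at e9
    rw [e8] at e4
    exact e4.trans (e9.trans e5)
  · have e1 : 2 / (n : ℝ) ^ (1 / 4 : ℝ) ≤ ε / 20 := by
      rw [div_le_iff₀ (hpp _)]
      rw [div_le_iff₀ hε] at h5
      linarith
    have e2 : 169 * (n : ℝ) ^ (-a) ≤ ε / 20 := by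
      rw [Real.rpow_neg hn0.le, ← div_eq_mul_inv, div_le_iff₀ (hpp _)]
      have e3 : 3380 / ε ≤ (n : ℝ) ^ a := by linarith
      rw [div_le_iff₀ hε] at e3
      linarith
    have e3 : Real.exp (-((n : ℝ) ^ (3 * a) / 500)) ≤ ε / 20 := by
      have e4 := RPar_exp ((n : ℝ) ^ (3 * a) / 500) (20 / ε) (by positivity) (by
        have : 20 / ε = 10000 / ε / 500 := by ring
        rw [this]; gcongr)
      refine e4.trans (le_of_eq ?_)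
      field_simp
    have e4 : Real.exp (-(n : ℝ) ^ (a / 8)) ≤ ε / 20 := by
      have e5 := RPar_exp ((n : ℝ) ^ (a / 8)) (20 / ε) (by positivity) h7
      refine e5.trans (le_of_eq ?_)
      field_simp
    have e5 : (n : ℝ) * (2 * Real.exp (-(s / (32 * (r₀ : ℝ) ^ 2)))) ≤ ε / 20 := by
      have e6 : s / (32 * (r₀ : ℝ) ^ 2) = 25 / 4 * Real.log n := by
        rw [hs]
        field_simp
        ring
      have e7 : Real.exp (-(25 / 4 * Real.log n)) ≤ 1 / (n : ℝ) ^ 2 := by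
        have e8 : -(25 / 4 * Real.log n) ≤ -(2 * Real.log n) := by linarith
        refine (Real.exp_le_exp.2 e8).trans (le_of_eq ?_)
        rw [Real.exp_neg, one_div, show (2 : ℝ) * Real.log n = Real.log ((n : ℝ) ^ 2) by
          rw [Real.log_pow]; norm_num, Real.exp_log (by positivity)]
      rw [e6]
      have e8 : (n : ℝ) * (2 * Real.exp (-(25 / 4 * Real.log n))) ≤ n * (2 * (1 / (n : ℝ) ^ 2)) := by
        gcongr
      refine e8.trans ?_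
      have e9 : (n : ℝ) * (2 * (1 / (n : ℝ) ^ 2)) = 2 / n := by field_simp
      rw [e9, div_le_iff₀ hn0]
      rw [div_le_iff₀ hε] at h8
      linarith
    linarith
  · rw [div_le_iff₀ hn0]
    rw [div_le_iff₀ hε] at h8
    linarith

end RST.H
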