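import Pool.Agent.Lib.MP_7946c7_pr.H.Asy
import Pool.Agent.Lib.MP_7946c7_pr.H.Cmp
import Pool.Agent.Lib.MP_7946c7_pr.H.Num

/-!
# JOB H/Tree: H4, hanging pieces of the tree (deterministic)

`n = |V|`, `G j = gg (gr lab (sc xs j)) univ k`; `G 0 = gg (gr lab xs) univ k ⊆ G j ⊆ G (j+1)` (`gg_mono`, `gr_mono`, `sc_mono`).
`step`: `T` with the label property, `j < j₂`, `γ` a self-avoiding walk of `T` from a vertex of `G (j+1)` to a vertex `γ ℓ` of `G j`: then there is `i ≤ ℓ` with `γ i ∈ G j` and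
 `i ≤ 100 log n / min (sc xs j) 1 + 1`. Proof: `conn (j+1)`: `Rch (gr lab (sc xs (j+1))) univ (γ 0) (γ ℓ)` (`G j ⊆ G (j+1)`), so all labels of `γ` are `≤ sc xs (j+1) + s ≤ 21/20 sc xs j + xs/25 ≤ 11/10 sc xs j`.
 Let `i` be the least index with `γ i ∈ G j`. If `i > 0` the piece `γ 0 .. γ (i-1)` avoids `G j` and is a walk of `gr lab (11/10 sc xs j)`, so `i - 1 < 100 log n/min (sc xs j) 1`.
`descend`: induction on `j ≤ j₂` downwards (from `j₂`, where `G j₂ = univ`: by `full` the component of each vertex is `univ`, and `k ≤ xs n/1000 ≤ n`): there is `i ≤ ℓ` with `γ i ∈ G j` and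
 `i ≤ ∑_{t = j}^{j₂ - 1} (100 log n / min (sc xs t) 1 + 1)`. (Apply `step` to the shifted walk, `saw_shift`; state it as induction on `m` with `j + m = j₂`.)
`hanging_tree`: `j = 0`: `1/min (sc xs t) 1 ≤ 1/sc xs t + 1`, so the sum is `≤ 100 log n (21/xs + j₂) + j₂` (`sum_inv_sc`) `≤ 2500 log n/xs`, because `j₂ ≤ 21 log n` (`j_le`) and
 `100 log n * 21 log n + 21 log n ≤ 400 log n * n^a ≤ 400 log n/xs` for large `n` (`asy_log`, `xs ≤ n^{-a}`). The last claim: for `i ≤ j < ℓ` apply the label property with `x = xs` to the shifted walk from `γ i`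
 to `γ ℓ`, both in `G 0`: `conn 0` gives `Rch (gr lab xs) univ (γ i) (γ ℓ)`; `xs + s ≤ 26/25 xs`.
-/

open Finset

namespace RST.H

theorem tree_step {V : Type} [Fintype V] [DecidableEq V] {lab : Sym2 V → ℝ} {xs s : ℝ}
    {k j₂ j : ℕ} (hxs : 0 < xs) (hF : HangFacts lab xs k j₂) (hs : s ≤ xs / 25) (hj : j < j₂)
    {T : SimpleGraph V}
    (hT : ∀ (x : ℝ) (γ : ℕ → V) (ℓ : ℕ), IsSAW T.Adj γ ℓ → Rch (gr lab x) univ (γ 0) (γ ℓ) →
      ∀ i < ℓ, lab s(γ i, γ (i + 1)) ≤ x + s)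
    {γ : ℕ → V} {ℓ : ℕ} (hγ : IsSAW T.Adj γ ℓ) (h0 : γ 0 ∈ gg (gr lab (sc xs (j + 1))) univ k)
    (hℓ : γ ℓ ∈ gg (gr lab (sc xs j)) univ k) :
    ∃ i ≤ ℓ, γ i ∈ gg (gr lab (sc xs j)) univ k ∧
      (i : ℝ) ≤ 100 * Real.log (Fintype.card V) / min (sc xs j) 1 + 1 := by
  classical
  have hmono : gg (gr lab (sc xs j)) univ k ⊆ gg (gr lab (sc xs (j + 1))) univ k :=
    gg_mono (gr_mono lab (sc_mono hxs.le (Nat.le_succ j))) (Finset.Subset.refl _)
  have hR : Rch (gr lab (sc xs (j + 1))) univ (γ 0) (γ ℓ) :=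
    hF.conn (j + 1) hj (γ 0) h0 (γ ℓ) (hmono hℓ)
  have hlab := hT (sc xs (j + 1)) γ ℓ hγ hR
  have hsc : xs ≤ sc xs j := le_sc hxs.le j
  have hscp : 0 < sc xs j := lt_of_lt_of_le hxs hsc
  have hsum : sc xs (j + 1) + s ≤ 11 / 10 * sc xs j := by
    rw [sc_succ]
    linarith
  have hex : ∃ i, γ i ∈ gg (gr lab (sc xs j)) univ k := ⟨ℓ, hℓ⟩
  have hmin : 0 < min (sc xs j) 1 := lt_min hscp one_pos
  have hlog : 0 ≤ Real.log (Fintype.card V : ℝ) := Real.log_natCast_nonneg _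
  have hle : Nat.find hex ≤ ℓ := Nat.find_min' hex hℓ
  refine ⟨Nat.find hex, hle, Nat.find_spec hex, ?_⟩
  rcases Nat.eq_zero_or_pos (Nat.find hex) with h | h
  · rw [h]
    have : 0 ≤ 100 * Real.log (Fintype.card V) / min (sc xs j) 1 := by positivity
    push_cast
    linarith
  · obtain ⟨m, hm⟩ : ∃ m, Nat.find hex = m + 1 := ⟨Nat.find hex - 1, by omega⟩
    have hsaw : IsSAW (gr lab (11 / 10 * sc xs j)) γ m := by
      refine ⟨fun i hi => ⟨?_, ?_⟩, fun i hi i' hi' h' => hγ.2 i (by omega) i' (by omega) h'⟩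
      · exact (hγ.1 i (by omega)).ne
      · exact (hlab i (by omega)).trans hsum
    have hav : ∀ i ≤ m, γ i ∉ gg (gr lab (sc xs j)) univ k := fun i hi =>
      Nat.find_min hex (by omega)
    have := hF.hang j hj γ m hsaw hav
    rw [hm]
    push_cast
    linarith

private theorem tree_descend {V : Type} [Fintype V] [DecidableEq V] {lab : Sym2 V → ℝ}
    {xs s : ℝ} {k j₂ : ℕ} (hxs : 0 < xs) (hF : HangFacts lab xs k j₂) (hs : s ≤ xs / 25)
    (hk : k ≤ Fintype.card V) {T : SimpleGraph V}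
    (hT : ∀ (x : ℝ) (γ : ℕ → V) (ℓ : ℕ), IsSAW T.Adj γ ℓ → Rch (gr lab x) univ (γ 0) (γ ℓ) →
      ∀ i < ℓ, lab s(γ i, γ (i + 1)) ≤ x + s)
    {γ : ℕ → V} {ℓ : ℕ} (hγ : IsSAW T.Adj γ ℓ) (hℓ : γ ℓ ∈ gg (gr lab (sc xs 0)) univ k) (m : ℕ) :
    ∀ j, j + m = j₂ → ∃ i ≤ ℓ, γ i ∈ gg (gr lab (sc xs j)) univ k ∧
      (i : ℝ) ≤ ∑ t ∈ Ico j j₂, (100 * Real.log (Fintype.card V) / min (sc xs t) 1 + 1) := by
  induction m with
  | zero =>
    intro j hj
    have hj' : j = j₂ := by omega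
    subst hj'
    refine ⟨0, Nat.zero_le _, ?_, by simp⟩
    rw [mem_gg]
    refine ⟨mem_univ _, ?_⟩
    have : cmp (gr lab (sc xs j)) univ (γ 0) = univ := by
      ext w
      simp only [mem_univ, iff_true]
      exact mem_cmp.2 ⟨mem_univ _, mem_univ _, hF.full _ _⟩
    rw [this, card_univ]
    exact hk
  | succ m ih =>
    intro j hj
    obtain ⟨i, hi, hiG, hib⟩ := ih (j + 1) (by omega)
    have hℓ' : γ ℓ ∈ gg (gr lab (sc xs j)) univ k :=
      gg_mono (gr_mono lab (sc_mono hxs.le (Nat.zero_le j))) (Finset.Subset.refl _) hℓ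
    have hsh := saw_shift hγ i (ℓ - i) (by omega)
    have e1 : i + (ℓ - i) = ℓ := by omega
    obtain ⟨i', hi', hiG', hib'⟩ := tree_step (j := j) hxs hF hs (by omega) hT hsh
      (by simpa using hiG) (by simpa [e1] using hℓ')
    refine ⟨i + i', by omega, hiG', ?_⟩
    rw [Finset.sum_eq_sum_Ico_succ_bot (by omega : j < j₂)]
    push_cast
    linarith

theorem hanging_tree (a : ℝ) (ha : 0 < a) (ha1 : a ≤ 1 / 10) : ∃ n₀ : ℕ, ∀ (V : Type) [Fintype V]
    [DecidableEq V], n₀ ≤ Fintype.card V → ∀ (lab : Sym2 V → ℝ) (xs s : ℝ) (k j₂ : ℕ),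
    HPar a (Fintype.card V) xs k → 3 * Real.log (Fintype.card V) ≤ sc xs j₂ →
    sc xs j₂ ≤ 4 * Real.log (Fintype.card V) →
    HangFacts lab xs k j₂ → s ≤ xs / 25 → ∀ T : SimpleGraph V, T.IsTree →
    (∀ (x : ℝ) (γ : ℕ → V) (ℓ : ℕ), IsSAW T.Adj γ ℓ → Rch (gr lab x) univ (γ 0) (γ ℓ) →
      ∀ i < ℓ, lab s(γ i, γ (i + 1)) ≤ x + s) →
    ∀ (γ : ℕ → V) (ℓ : ℕ), IsSAW T.Adj γ ℓ → γ ℓ ∈ gg (gr lab xs) univ k →
      ∃ i ≤ ℓ, (i : ℝ) ≤ 2500 * Real.log (Fintype.card V) / xs ∧ γ i ∈ gg (gr lab xs) univ k ∧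
        ∀ j, i ≤ j → j < ℓ → lab s(γ j, γ (j + 1)) ≤ 26 / 25 * xs := by
  obtain ⟨n₁, h₁⟩ := hpar_facts a ha ha1
  obtain ⟨n₂, h₂⟩ := j_le a ha ha1
  obtain ⟨n₃, h₃⟩ := asy_quad 0 2100 21 a ha
  refine ⟨max n₁ (max n₂ (max n₃ 1)), ?_⟩
  intro V _ _ hn lab xs s k j₂ hpar hj3 hj4 hF hs T hTree hT γ ℓ hγ hℓ
  have hn1 : n₁ ≤ Fintype.card V := le_trans (le_max_left _ _) hn
  have hn2 : n₂ ≤ Fintype.card V :=
    le_trans (le_trans (le_max_left _ _) (le_max_right _ _)) hn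
  have hn3 : n₃ ≤ Fintype.card V :=
    le_trans (le_trans (le_trans (le_max_left _ _) (le_max_right _ _)) (le_max_right _ _)) hn
  have hn4 : 1 ≤ Fintype.card V :=
    le_trans (le_trans (le_trans (le_max_right _ _) (le_max_right _ _)) (le_max_right _ _)) hn
  obtain ⟨hxs, hxs1, -, -, -, -, -, -⟩ := h₁ _ hn1 xs k hpar
  have hj := h₂ _ hn2 xs k j₂ hpar hj4
  have hq := h₃ _ hn3
  set N : ℝ := (Fintype.card V : ℝ) with hN
  have hNpos : 0 < N := by rw [hN]; exact_mod_cast hn4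
  set L : ℝ := Real.log N with hL
  have hL0 : 0 ≤ L := by rw [hL, hN]; exact Real.log_natCast_nonneg _
  have hk : k ≤ Fintype.card V := by
    have h1 := hpar.khi
    have h2 : (k : ℝ) ≤ (Fintype.card V : ℝ) := by
      refine h1.trans ?_
      rw [← hN]
      nlinarith
    exact_mod_cast h2
  have hℓ0 : γ ℓ ∈ gg (gr lab (sc xs 0)) univ k := by rw [sc_zero]; exact hℓ
  obtain ⟨i, hi, hiG, hib⟩ := tree_descend hxs hF hs hk hT hγ hℓ0 j₂ 0 (by omega)
  refine ⟨i, hi, ?_, by rw [sc_zero] at hiG; exact hiG, ?_⟩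
  · refine hib.trans ?_
    have hterm : ∀ t ∈ Ico 0 j₂, (100 * L / min (sc xs t) 1 + 1) ≤
        100 * L * (1 / sc xs t) + (100 * L + 1) := by
      intro t _
      have hscp : 0 < sc xs t := lt_of_lt_of_le hxs (le_sc hxs.le t)
      have h1 : 1 / min (sc xs t) 1 ≤ 1 / sc xs t + 1 := by
        rcases le_total (sc xs t) 1 with h | h
        · rw [min_eq_left h]; linarith
        · rw [min_eq_right h]
          have : 0 < 1 / sc xs t := by positivity
          linarith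
      have h2 : 100 * L / min (sc xs t) 1 = 100 * L * (1 / min (sc xs t) 1) := by ring
      rw [h2]
      have h3 : 100 * L * (1 / min (sc xs t) 1) ≤ 100 * L * (1 / sc xs t + 1) :=
        mul_le_mul_of_nonneg_left h1 (by positivity)
      linarith
    refine (Finset.sum_le_sum hterm).trans ?_
    rw [Finset.sum_add_distrib, ← Finset.mul_sum, Finset.sum_const, Nat.card_Ico,
      nsmul_eq_mul, ← Finset.range_eq_Ico]
    have hgeo := sum_inv_sc hxs j₂
    have h4 : 100 * L * ∑ t ∈ range j₂, 1 / sc xs t ≤ 100 * L * (21 / xs) :=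
      mul_le_mul_of_nonneg_left hgeo (by positivity)
    have h5 : ((j₂ - 0 : ℕ) : ℝ) * (100 * L + 1) ≤ 21 * L * (100 * L + 1) := by
      refine mul_le_mul_of_nonneg_right ?_ (by positivity)
      simpa using hj
    have h6 : N ^ a ≤ 1 / xs := by
      have h := hpar.hi
      rw [Real.rpow_neg hNpos.le] at h
      rw [le_div_iff₀ hxs]
      have hNa : 0 < N ^ a := Real.rpow_pos_of_pos hNpos a
      calc N ^ a * xs ≤ N ^ a * (N ^ a)⁻¹ := mul_le_mul_of_nonneg_left h hNa.le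
        _ = 1 := mul_inv_cancel₀ hNa.ne'
    have h7 : 21 * L * (100 * L + 1) ≤ 400 * L * (1 / xs) := by
      have h8 : 2100 * L + 21 ≤ 1 / xs := by
        refine le_trans ?_ h6
        linarith
      have h9 : 0 ≤ 1 / xs := by positivity
      have h10 : L * (2100 * L + 21) ≤ L * (1 / xs) := mul_le_mul_of_nonneg_left h8 hL0
      have h11 : 0 ≤ L * (1 / xs) := mul_nonneg hL0 h9
      nlinarith
    have h12 : 2500 * L / xs = 100 * L * (21 / xs) + 400 * L * (1 / xs) := by ring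
    rw [h12]
    linarith
  · intro j hij hjl
    have hsh := saw_shift hγ i (ℓ - i) (by omega)
    have e1 : i + (ℓ - i) = ℓ := by omega
    have hconn := hF.conn 0 (Nat.zero_le _) (γ i) hiG (γ ℓ) hℓ0
    rw [sc_zero] at hconn
    have h1 := hT xs _ (ℓ - i) hsh (by simpa [e1] using hconn) (j - i) (by omega)
    have e2 : i + (j - i) = j := by omega
    have e3 : i + (j - i + 1) = j + 1 := by omega
    simp only [e2, e3] at h1
    linarith

end RST.H
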