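import Pool.Agent.Lib.MP_7946c7_pr.H.Diam
import Pool.Agent.Lib.MP_7946c7_pr.H.Tree

/-!
# JOB H/RUp: regime 3, upper bound, deterministic part

`n = |V|`. Let `r₀ ∈ gg (gr lab xs) univ k` and let `γ` be a self-avoiding walk of `T` with `γ ℓ = r₀`. Take `i` from `hanging_tree`. For `i + r ≤ m ≤ ℓ - r` the vertex `γ m` satisfies
`TwoArm (gr lab (11/10 xs)) r`: arms `j ↦ γ (m + j)` and `j ↦ γ (m - j)` (`saw_shift`, `saw_rev`; the labels of the edges used are `≤ 26/25 xs ≤ 11/10 xs`; if `γ (m + i') = γ (m - j')` then `i' = j' = 0`).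
These `γ m` are distinct, so `ℓ - i - 2 r + 1 ≤ N` if `i + 2 r ≤ ℓ`; so `ℓ ≤ i + 2 r + N ≤ 2500 log n/xs + 2 r + N =: H` in all cases. `diam_le_of_root` with `⌊H⌋₊`.
-/

open Finset

namespace RST.H

/-- Two arms of length `r` from `v`, disjoint except for `v`. -/
def TwoArm {V : Type} (R : V → V → Prop) (r : ℕ) (v : V) : Prop :=
  ∃ γ γ' : ℕ → V, γ 0 = v ∧ γ' 0 = v ∧ IsSAW R γ r ∧ IsSAW R γ' r ∧
    ∀ i ≤ r, ∀ j ≤ r, γ i = γ' j → i = 0 ∧ j = 0

open Classical in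
theorem r3_up (a : ℝ) (ha : 0 < a) (ha1 : a ≤ 1 / 10) : ∃ n₀ : ℕ, ∀ (V : Type) [Fintype V]
    [DecidableEq V], n₀ ≤ Fintype.card V → ∀ (lab : Sym2 V → ℝ) (xs s : ℝ) (k j₂ r : ℕ) (N : ℝ),
    HPar a (Fintype.card V) xs k → 3 * Real.log (Fintype.card V) ≤ sc xs j₂ →
    sc xs j₂ ≤ 4 * Real.log (Fintype.card V) →
    HangFacts lab xs k j₂ → s ≤ xs / 25 → (gg (gr lab xs) univ k).Nonempty →
    ((univ.filter fun v => TwoArm (gr lab (11 / 10 * xs)) r v).card : ℝ) ≤ N →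
    ∀ T : SimpleGraph V, T.IsTree →
    (∀ (x : ℝ) (γ : ℕ → V) (ℓ : ℕ), IsSAW T.Adj γ ℓ → Rch (gr lab x) univ (γ 0) (γ ℓ) →
      ∀ i < ℓ, lab s(γ i, γ (i + 1)) ≤ x + s) →
    (T.diam : ℝ) ≤ 2 * (2500 * Real.log (Fintype.card V) / xs + 2 * r + N) := by
  obtain ⟨n₀, hH⟩ := hanging_tree a ha ha1
  refine ⟨n₀, fun V _ _ hn lab xs s k j₂ r N hP h3 h4 hF hs hne hN T hT hTl => ?_⟩
  obtain ⟨r₀, hr₀⟩ := hne
  have hV : 0 < Fintype.card V := Fintype.card_pos_iff.2 ⟨r₀⟩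
  have hxs : 0 < xs := lt_of_lt_of_le
    (Real.rpow_pos_of_pos (by exact_mod_cast hV : (0 : ℝ) < (Fintype.card V : ℝ)) _) hP.lo
  have hlog : 0 ≤ Real.log (Fintype.card V) := Real.log_nonneg (by exact_mod_cast hV)
  have hN0 : 0 ≤ N := le_trans (Nat.cast_nonneg _) hN
  have hH0 : 0 ≤ 2500 * Real.log (Fintype.card V) / xs + 2 * r + N := by positivity
  have hclaim : ∀ (γ : ℕ → V) (ℓ : ℕ), IsSAW T.Adj γ ℓ → γ ℓ = r₀ →
      ℓ ≤ ⌊2500 * Real.log (Fintype.card V) / xs + 2 * r + N⌋₊ := by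
    intro γ ℓ hγ hℓ
    apply Nat.le_floor
    obtain ⟨i, hi, hiR, -, hlab⟩ := hH V hn lab xs s k j₂ hP h3 h4 hF hs T hT hTl γ ℓ hγ
      (hℓ ▸ hr₀)
    rcases Nat.lt_or_ge ℓ (i + 2 * r) with hc | hc
    · have h1 : (ℓ : ℝ) ≤ ((i + 2 * r : ℕ) : ℝ) := by exact_mod_cast hc.le
      push_cast at h1
      linarith
    · have hγ' : IsSAW (gr lab (11 / 10 * xs)) (fun j => γ (i + j)) (ℓ - i) := by
        have h1 := saw_shift hγ i (ℓ - i) (by omega)
        refine ⟨fun j hj => ⟨(h1.1 j hj).ne, ?_⟩, h1.2⟩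
        have h2 := hlab (i + j) (by omega) (by omega)
        have h5 : i + (j + 1) = i + j + 1 := by omega
        simp only [h5]
        linarith
      have hsub : (Finset.Icc r (ℓ - i - r)).image (fun j => γ (i + j)) ⊆
          univ.filter fun v => TwoArm (gr lab (11 / 10 * xs)) r v := by
        intro v hv
        rw [mem_image] at hv
        obtain ⟨m, hm, rfl⟩ := hv
        rw [Finset.mem_Icc] at hm
        rw [mem_filter]
        refine ⟨mem_univ _, fun j => γ (i + (m + j)), fun j => γ (i + (m - j)), rfl, rfl,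
          saw_shift hγ' m r (by omega), saw_rev (gr_symm lab _) hγ' m r hm.1 (by omega), ?_⟩
        intro x hx y hy hxy
        have h6 := hγ'.2 (m + x) (by omega) (m - y) (by omega) hxy
        omega
      have hcard := card_le_card hsub
      rw [card_image_of_injOn, Nat.card_Icc] at hcard
      · have h7 : ((ℓ - i - r + 1 - r : ℕ) : ℝ) ≤ N := le_trans (by exact_mod_cast hcard) hN
        have h8 : ℓ + 1 = i + 2 * r + (ℓ - i - r + 1 - r) := by omega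
        have h9 : ((ℓ : ℝ) + 1) = i + 2 * r + ((ℓ - i - r + 1 - r : ℕ) : ℝ) := by exact_mod_cast h8
        linarith
      · intro x hx y hy hxy
        rw [Finset.mem_coe, Finset.mem_Icc] at hx hy
        exact hγ'.2 x (by omega) y (by omega) hxy
  have hd := diam_le_of_root hT.1 r₀ _ hclaim
  have hd' : (T.diam : ℝ) ≤ ((2 * ⌊2500 * Real.log (Fintype.card V) / xs + 2 * r + N⌋₊ : ℕ) : ℝ) := by
    exact_mod_cast hd
  push_cast at hd'
  have hfl := Nat.floor_le hH0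
  linarith

end RST.H
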