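import Pool.Agent.Lib.MP_7946c7_pr.H.Mass
import Pool.Agent.Lib.MP_7946c7_pr.H.RUp
import Pool.Agent.Lib.MP_7946c7_pr.H.Trans

/-!
# JOB H/RProb: regime 3, probabilities of the four events (`V = Fin n`, `xs = n^{-1/3+a}`)

All by `transfer1` (the law of `gr (xlab n ω) x` is that of `bg ξ` under `bern ((1+x)/n)`).
* `ev_arms`: `x = 11/10 xs`. For each `v`, `two_arms` with `x := 11/10 xs ≤ 1/4`: `PP {TwoArm} ≤ (armB n (11/10 xs) r)^2`, `armB = 8/r + 4 (11/10 xs + 4/n) ≤ 8 xs + 22/5 xs + 16/n ≤ 13 xs` (`r ≥ 1/xs`,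
  `16/n ≤ xs/2` for large `n`). The expected number is `≤ 169 n xs^2 = 169 n^{1/3+2a}`; Markov (`PP_markov`, `EE_sum`).
* `ev_macro`: `x = -xs`; `macro_comps` with `h = xs` (`xs ≤ 1/100`, `xs^3 n = n^{3a} ≥ C₀`), `W = univ`: outside an event of probability `≤ exp (-n^{3a}/500)` the set `bigs (bg ξ) univ (kh xs)` is nonempty, i.e.
  some component has size `≥ kh xs`.
* `ev_ball`: `x = 0`; `ball_growth` with `p = 1/n`, union bound over `v` (`PP_exists_le`).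
* `ev_gg`: `x = xs`; `gg_mass` with `W = univ`, `Mx xs * n > 0`.
-/

open Finset MeasureTheory

namespace RST.H

theorem RProb_ev (c Y : ℝ) (hc : 0 < c) : ∃ n₀ : ℕ, ∀ n : ℕ, n₀ ≤ n → Y ≤ (n : ℝ) ^ c := by
  have ht : Filter.Tendsto (fun n : ℕ => (n : ℝ) ^ c) Filter.atTop Filter.atTop :=
    (tendsto_rpow_atTop hc).comp tendsto_natCast_atTop_atTop
  exact Filter.eventually_atTop.1 (ht.eventually_ge_atTop Y)

/-- an event and its complement -/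
theorem RProb_tr (n : ℕ) (hn : 0 < n) (x : ℝ) (h0 : -1 ≤ x) (h1 : x ≤ n - 1)
    (Φ : Set (Fin n → Fin n → Prop)) (b : ℝ)
    (hb : PP (bern ((1 + x) / n)) {ξ : Sym2 (Fin n) → Bool | bg ξ ∉ Φ} ≤ b) :
    MeasurableSet {ω | gr (xlab n ω) x ∈ Φ} ∧
      (labLaw n {ω | gr (xlab n ω) x ∈ Φ}ᶜ).toReal ≤ b := by
  refine ⟨(transfer1 n hn x h0 h1 Φ).1, ?_⟩
  have h2 := (transfer1 n hn x h0 h1 Φᶜ).2
  have h3 : {ω | gr (xlab n ω) x ∈ Φ}ᶜ = {ω | gr (xlab n ω) x ∈ Φᶜ} := rfl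
  rw [h3, h2]
  exact hb

open Classical in
theorem RProb_bigs {V : Type} (R : V → V → Prop) (W : Finset V) (k : ℕ)
    (h : ¬ ∃ v, k ≤ (cmp R W v).card) : (bigs R W k).card = 0 := by
  rw [card_eq_zero, eq_empty_iff_forall_notMem]
  intro D hD
  unfold bigs at hD
  rw [mem_filter, mem_image] at hD
  obtain ⟨⟨v, -, rfl⟩, hk⟩ := hD
  exact h ⟨v, hk⟩

open Classical in
theorem RProb_mean {V : Type} [Fintype V] {q : Bool → ℝ}
    (S : V → Set (Sym2 V → Bool)) :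
    EE q (fun ξ => ((univ.filter fun v => ξ ∈ S v).card : ℝ)) = ∑ v : V, PP q (S v) := by
  have h1 : (fun ξ : Sym2 V → Bool => ((univ.filter fun v => ξ ∈ S v).card : ℝ)) =
      fun ξ => ∑ v ∈ (univ : Finset V), (fun v (ξ : Sym2 V → Bool) =>
        if ξ ∈ S v then (1 : ℝ) else 0) v ξ := by
    funext ξ
    simp
  rw [h1, EE_sum]
  rfl

open Classical in
theorem ev_arms (a : ℝ) (ha : 0 < a) (ha1 : a ≤ 1 / 10) : ∃ n₀ : ℕ, ∀ n : ℕ, n₀ ≤ n →
    ∀ (xs : ℝ) (r : ℕ), xs = (n : ℝ) ^ (-(1 / 3 : ℝ) + a) → 1 / xs ≤ r →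
    MeasurableSet {ω : Sym2 (Fin n) → ℝ | ((univ.filter fun v =>
      TwoArm (gr (xlab n ω) (11 / 10 * xs)) r v).card : ℝ) ≤ (n : ℝ) ^ (1 / 3 + 3 * a)} ∧
    (labLaw n {ω : Sym2 (Fin n) → ℝ | ((univ.filter fun v =>
      TwoArm (gr (xlab n ω) (11 / 10 * xs)) r v).card : ℝ) ≤ (n : ℝ) ^ (1 / 3 + 3 * a)}ᶜ).toReal ≤
      169 * (n : ℝ) ^ (-a) := by
  obtain ⟨n₁, H1⟩ := RProb_ev (1 / 3 - a) 10000 (by linarith)
  obtain ⟨n₂, H2⟩ := RProb_ev (2 / 3 + a) 100 (by linarith)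
  refine ⟨n₁ + n₂ + 16, fun n hn xs r hxs hr => ?_⟩
  have h1 := H1 n (by omega)
  have h2 := H2 n (by omega)
  have hn16 : 16 ≤ n := by omega
  have hnR : (16 : ℝ) ≤ n := by exact_mod_cast hn16
  have hn0 : (0 : ℝ) < n := by linarith
  have hpp : ∀ c : ℝ, 0 < (n : ℝ) ^ c := fun c => Real.rpow_pos_of_pos hn0 c
  have hadd : ∀ c d : ℝ, (n : ℝ) ^ c * (n : ℝ) ^ d = (n : ℝ) ^ (c + d) :=
    fun c d => (Real.rpow_add hn0 c d).symm
  have hxs0 : 0 < xs := by rw [hxs]; exact hpp _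
  have hxsi : 1 / xs = (n : ℝ) ^ (1 / 3 - a) := by
    rw [hxs, one_div, ← Real.rpow_neg hn0.le]
    congr 1
    ring
  have hxs1 : xs ≤ 1 / 10000 := by
    rw [← hxsi] at h1
    rw [le_div_iff₀ hxs0] at h1
    linarith
  have hxsn : xs * n = (n : ℝ) ^ (2 / 3 + a) := by
    rw [hxs]
    nth_rewrite 2 [← Real.rpow_one (n : ℝ)]
    rw [hadd]
    congr 1
    ring
  have h16 : 16 / (n : ℝ) ≤ xs / 5 := by
    rw [div_le_iff₀ hn0]
    have : xs / 5 * n = (n : ℝ) ^ (2 / 3 + a) / 5 := by rw [← hxsn]; ring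
    linarith
  have hr0 : (0 : ℝ) < r := lt_of_lt_of_le (by positivity) hr
  have hr1 : 1 ≤ r := by
    have : 0 < r := by exact_mod_cast hr0
    omega
  obtain ⟨p, hp⟩ : ∃ p : ℝ, p = (1 + 11 / 10 * xs) / n := ⟨_, rfl⟩
  have hp0 : 0 ≤ p := by rw [hp]; positivity
  have hp1 : p ≤ 1 := by
    rw [hp, div_le_one hn0]; linarith
  have hpn : p * n = 1 + 11 / 10 * xs := by rw [hp]; field_simp
  have hlaw := isLaw_bern' hp0 hp1
  obtain ⟨N, hN⟩ : ∃ N : ℝ, N = (n : ℝ) ^ (1 / 3 + 3 * a) := ⟨_, rfl⟩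
  have hN0 : 0 < N := by rw [hN]; exact hpp _
  have harm : armB n (11 / 10 * xs) r ≤ 13 * xs := by
    unfold armB
    have h3 : 8 / (r : ℝ) ≤ 8 * xs := by
      rw [div_le_iff₀ hr0]
      rw [div_le_iff₀ hxs0] at hr
      nlinarith
    have h4 : 4 * (11 / 10 * xs + 4 / n) = 22 / 5 * xs + 16 / (n : ℝ) := by ring
    rw [h4]
    linarith
  have harm0 : 0 ≤ armB n (11 / 10 * xs) r := by
    unfold armB
    positivity
  have hv : ∀ v : Fin n, PP (bern p) {ξ : Sym2 (Fin n) → Bool | TwoArm (bg ξ) r v} ≤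
      (13 * xs) ^ 2 := by
    intro v
    have h3 := two_arms (V := Fin n) p (11 / 10 * xs) hp0 (by positivity) (by linarith)
      (by rw [Fintype.card_fin]; exact hn16) (by rw [Fintype.card_fin, hpn]) v r hr1
    rw [Fintype.card_fin] at h3
    refine le_trans h3 ?_
    exact pow_le_pow_left₀ harm0 harm 2
  have hmean := RProb_mean (q := bern p) (fun v : Fin n => {ξ | TwoArm (bg ξ) r v})
  have hmean2 : EE (bern p) (fun ξ : Sym2 (Fin n) → Bool =>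
      ((univ.filter fun v => TwoArm (bg ξ) r v).card : ℝ)) ≤ n * (13 * xs) ^ 2 := by
    refine le_trans (le_of_eq hmean) ?_
    refine le_trans (sum_le_sum fun v _ => hv v) ?_
    rw [sum_const, card_univ, Fintype.card_fin, nsmul_eq_mul]
  have hb : PP (bern ((1 + 11 / 10 * xs) / n)) {ξ : Sym2 (Fin n) → Bool |
      bg ξ ∉ {R : Fin n → Fin n → Prop |
        ((univ.filter fun v => TwoArm R r v).card : ℝ) ≤ N}} ≤ 169 * (n : ℝ) ^ (-a) := by
    rw [← hp]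
    have h3 : PP (bern p) {ξ : Sym2 (Fin n) → Bool |
      bg ξ ∉ {R : Fin n → Fin n → Prop |
        ((univ.filter fun v => TwoArm R r v).card : ℝ) ≤ N}} ≤
        PP (bern p) {ξ : Sym2 (Fin n) → Bool |
          N ≤ ((univ.filter fun v => TwoArm (bg ξ) r v).card : ℝ)} := by
      apply PP_mono hlaw
      intro ξ hξ
      rw [Set.mem_ofPred_eq, Set.mem_ofPred_eq, not_le] at hξ
      exact hξ.le
    have h4 := PP_markov hlaw (F := fun ξ : Sym2 (Fin n) → Bool =>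
      ((univ.filter fun v => TwoArm (bg ξ) r v).card : ℝ)) (fun _ => Nat.cast_nonneg _) hN0
    refine h3.trans (h4.trans ?_)
    rw [div_le_iff₀ hN0]
    refine hmean2.trans (le_of_eq ?_)
    have h5 : (n : ℝ) ^ (-a) * N = n * xs ^ 2 := by
      rw [hN, hadd, hxs, ← Real.rpow_natCast, ← Real.rpow_mul hn0.le]
      nth_rewrite 2 [← Real.rpow_one (n : ℝ)]
      rw [hadd]
      congr 1
      push_cast
      ring
    calc (n : ℝ) * (13 * xs) ^ 2 = 169 * (n * xs ^ 2) := by ring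
      _ = 169 * ((n : ℝ) ^ (-a) * N) := by rw [h5]
      _ = 169 * (n : ℝ) ^ (-a) * N := by ring
  rw [← hN]
  exact RProb_tr n (by omega) (11 / 10 * xs) (by linarith) (by linarith) _ _ hb

theorem ev_macro (a : ℝ) (ha : 0 < a) (ha1 : a ≤ 1 / 10) : ∃ n₀ : ℕ, ∀ n : ℕ, n₀ ≤ n →
    ∀ xs : ℝ, xs = (n : ℝ) ^ (-(1 / 3 : ℝ) + a) →
    MeasurableSet {ω : Sym2 (Fin n) → ℝ | ∃ v, kh xs ≤ (cmp (gr (xlab n ω) (-xs)) univ v).card} ∧
    (labLaw n {ω : Sym2 (Fin n) → ℝ | ∃ v,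
      kh xs ≤ (cmp (gr (xlab n ω) (-xs)) univ v).card}ᶜ).toReal ≤
      Real.exp (-((n : ℝ) ^ (3 * a) / 500)) := by
  obtain ⟨C₀, HC⟩ := macro_comps
  obtain ⟨n₁, H1⟩ := RProb_ev (1 / 3 - a) 10000 (by linarith)
  obtain ⟨n₂, H2⟩ := RProb_ev (3 * a) C₀ (by linarith)
  refine ⟨n₁ + n₂ + 2, fun n hn xs hxs => ?_⟩
  have h1 := H1 n (by omega)
  have h2 := H2 n (by omega)
  have hn2 : 2 ≤ n := by omega
  have hnR : (2 : ℝ) ≤ n := by exact_mod_cast hn2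
  have hn0 : (0 : ℝ) < n := by linarith
  have hpp : ∀ c : ℝ, 0 < (n : ℝ) ^ c := fun c => Real.rpow_pos_of_pos hn0 c
  have hadd : ∀ c d : ℝ, (n : ℝ) ^ c * (n : ℝ) ^ d = (n : ℝ) ^ (c + d) :=
    fun c d => (Real.rpow_add hn0 c d).symm
  have hxs0 : 0 < xs := by rw [hxs]; exact hpp _
  have hxsi : 1 / xs = (n : ℝ) ^ (1 / 3 - a) := by
    rw [hxs, one_div, ← Real.rpow_neg hn0.le]
    congr 1
    ring
  have hxs1 : xs ≤ 1 / 10000 := by
    rw [← hxsi] at h1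
    rw [le_div_iff₀ hxs0] at h1
    linarith
  have h3 : xs ^ 3 * n = (n : ℝ) ^ (3 * a) := by
    rw [hxs, ← Real.rpow_natCast, ← Real.rpow_mul hn0.le]
    nth_rewrite 2 [← Real.rpow_one (n : ℝ)]
    rw [hadd]
    congr 1
    push_cast
    ring
  have h4 := HC (Fin n) xs univ hxs0 (by linarith) (by rw [Fintype.card_fin, h3]; exact h2)
    (by linarith) (by
      rw [card_univ, Fintype.card_fin]
      nlinarith)
  rw [Fintype.card_fin, h3] at h4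
  have hp0 : 0 ≤ (1 - xs) / (n : ℝ) := div_nonneg (by linarith) hn0.le
  have hp1 : (1 - xs) / (n : ℝ) ≤ 1 := by rw [div_le_one hn0]; linarith
  have hb : PP (bern ((1 + -xs) / n)) {ξ : Sym2 (Fin n) → Bool |
      bg ξ ∉ {R : Fin n → Fin n → Prop | ∃ v, kh xs ≤ (cmp R univ v).card}} ≤
      Real.exp (-((n : ℝ) ^ (3 * a) / 500)) := by
    rw [← sub_eq_add_neg]
    refine le_trans (PP_mono (isLaw_bern' hp0 hp1) ?_) h4
    intro ξ hξ
    rw [Set.mem_ofPred_eq]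
    have h5 := RProb_bigs (bg ξ) univ (kh xs) hξ
    rw [h5]
    have h6 : 0 < (n : ℝ) ^ (3 * a) := hpp _
    push_cast
    positivity
  exact RProb_tr n (by omega) (-xs) (by linarith) (by linarith) _ _ hb

theorem ev_ball (n : ℕ) (hn : 0 < n) (r₀ : ℕ) (hr : 1 ≤ r₀) (s : ℝ) :
    MeasurableSet {ω : Sym2 (Fin n) → ℝ | ∀ v, ((ball (gr (xlab n ω) 0) v r₀).card : ℝ) < s} ∧
    (labLaw n {ω : Sym2 (Fin n) → ℝ | ∀ v,
      ((ball (gr (xlab n ω) 0) v r₀).card : ℝ) < s}ᶜ).toReal ≤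
      n * (2 * Real.exp (-(s / (32 * (r₀ : ℝ) ^ 2)))) := by
  have hnR : (1 : ℝ) ≤ n := by exact_mod_cast hn
  have hn0 : (0 : ℝ) < n := by linarith
  have hp0 : 0 ≤ (1 + 0) / (n : ℝ) := by positivity
  have hp1 : (1 + 0) / (n : ℝ) ≤ 1 := by rw [div_le_one hn0]; linarith
  have hlaw := isLaw_bern' hp0 hp1
  have hb : PP (bern ((1 + 0) / (n : ℝ))) {ξ : Sym2 (Fin n) → Bool |
      bg ξ ∉ {R : Fin n → Fin n → Prop | ∀ v, ((ball R v r₀).card : ℝ) < s}} ≤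
      n * (2 * Real.exp (-(s / (32 * (r₀ : ℝ) ^ 2)))) := by
    have h1 : PP (bern ((1 + 0) / (n : ℝ))) {ξ : Sym2 (Fin n) → Bool |
        bg ξ ∉ {R : Fin n → Fin n → Prop | ∀ v, ((ball R v r₀).card : ℝ) < s}} ≤
        PP (bern ((1 + 0) / (n : ℝ))) {ξ : Sym2 (Fin n) → Bool | ∃ v ∈ (univ : Finset (Fin n)),
          ξ ∈ (fun v => {ξ : Sym2 (Fin n) → Bool | s ≤ ((ball (bg ξ) v r₀).card : ℝ)}) v} := by
      apply PP_mono hlaw
      intro ξ hξ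
      rw [Set.mem_ofPred_eq, Set.mem_ofPred_eq] at hξ
      push Not at hξ
      obtain ⟨v, hv⟩ := hξ
      exact ⟨v, mem_univ _, hv⟩
    refine h1.trans ((PP_exists_le hlaw univ _).trans ?_)
    refine le_trans (sum_le_sum (g := fun _ => 2 * Real.exp (-(s / (32 * (r₀ : ℝ) ^ 2))))
      fun v _ => ?_) ?_
    · exact ball_growth (V := Fin n) _ hp0 hp1 (by
        rw [Fintype.card_fin, div_mul_cancel₀ _ hn0.ne']; norm_num) v r₀ hr s
    · rw [sum_const, card_univ, Fintype.card_fin, nsmul_eq_mul]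
  exact RProb_tr n hn 0 (by norm_num) (by linarith) _ _ hb

theorem ev_gg (a : ℝ) (ha : 0 < a) (ha1 : a ≤ 1 / 10) : ∃ n₀ : ℕ, ∀ n : ℕ, n₀ ≤ n →
    ∀ (xs : ℝ) (k : ℕ), HPar a n xs k →
    MeasurableSet {ω : Sym2 (Fin n) → ℝ | (gg (gr (xlab n ω) xs) univ k).Nonempty} ∧
    (labLaw n {ω : Sym2 (Fin n) → ℝ | (gg (gr (xlab n ω) xs) univ k).Nonempty}ᶜ).toReal ≤
      Real.exp (-(n : ℝ) ^ (a / 8)) := by
  obtain ⟨n₁, H1⟩ := hpar_facts a ha ha1
  obtain ⟨n₂, H2⟩ := gg_mass a ha ha1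
  refine ⟨n₁ + n₂ + 3, fun n hn xs k hP => ?_⟩
  obtain ⟨hxs0, hxs1, -⟩ := H1 n (by omega) xs k hP
  have hn3 : 3 ≤ n := by omega
  have hnR : (3 : ℝ) ≤ n := by exact_mod_cast hn3
  have hn0 : (0 : ℝ) < n := by linarith
  have hlog : 1 ≤ Real.log n := by
    rw [Real.le_log_iff_exp_le hn0]
    have := Real.exp_one_lt_d9
    linarith
  have hp0 : 0 ≤ (1 + xs) / (n : ℝ) := by positivity
  have hp1 : (1 + xs) / (n : ℝ) ≤ 1 := by rw [div_le_one hn0]; linarith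
  have h4 := H2 (Fin n) (by rw [Fintype.card_fin]; omega) xs xs k
    (by rw [Fintype.card_fin]; exact hP) le_rfl (by rw [Fintype.card_fin]; linarith) univ
    (by
      rw [card_univ, Fintype.card_fin]
      nlinarith)
  rw [Fintype.card_fin] at h4
  have hb : PP (bern ((1 + xs) / n)) {ξ : Sym2 (Fin n) → Bool |
      bg ξ ∉ {R : Fin n → Fin n → Prop | (gg R univ k).Nonempty}} ≤
      Real.exp (-(n : ℝ) ^ (a / 8)) := by
    refine le_trans (PP_mono (isLaw_bern' hp0 hp1) ?_) h4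
    intro ξ hξ
    rw [Set.mem_ofPred_eq, Set.mem_ofPred_eq, not_nonempty_iff_eq_empty] at hξ
    rw [Set.mem_ofPred_eq, hξ, card_empty]
    have h6 : 0 < Mx xs := by
      unfold Mx
      rw [if_pos (by linarith)]
      positivity
    push_cast
    positivity
  exact RProb_tr n (by omega) xs (by linarith) (by linarith) _ _ hb

end RST.H
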