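import Pool.Agent.Lib.MP_7946c7_pr.H.Facts
import Pool.Agent.Lib.MP_7946c7_pr.H.RLow
import Pool.Agent.Lib.MP_7946c7_pr.H.RPar
import Pool.Agent.Lib.MP_7946c7_pr.H.RProb
import Pool.Agent.Lib.MP_7946c7_pr.N.Main

/-!
# H/R3: regime 3 (assembly; written by helper3)
-/

open Finset MeasureTheory

namespace RST.H

open Classical in
/-- Deterministic part of the assembly: a tree with the label property satisfies both bounds. -/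
private theorem r3_det {n : ℕ} {ε a : ℝ} {n₇ : ℕ}
    (h7 : ∀ (V : Type) [Fintype V]
      [DecidableEq V], n₇ ≤ Fintype.card V → ∀ (lab : Sym2 V → ℝ) (xs s : ℝ) (k j₂ r : ℕ) (N : ℝ),
      HPar a (Fintype.card V) xs k → 3 * Real.log (Fintype.card V) ≤ sc xs j₂ →
      sc xs j₂ ≤ 4 * Real.log (Fintype.card V) →
      HangFacts lab xs k j₂ → s ≤ xs / 25 → (gg (gr lab xs) univ k).Nonempty →
      ((univ.filter fun v => TwoArm (gr lab (11 / 10 * xs)) r v).card : ℝ) ≤ N →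
      ∀ T : SimpleGraph V, T.IsTree →
      (∀ (x : ℝ) (γ : ℕ → V) (ℓ : ℕ), IsSAW T.Adj γ ℓ → Rch (gr lab x) univ (γ 0) (γ ℓ) →
        ∀ i < ℓ, lab s(γ i, γ (i + 1)) ≤ x + s) →
      (T.diam : ℝ) ≤ 2 * (2500 * Real.log (Fintype.card V) / xs + 2 * r + N))
    (hn7 : n₇ ≤ n) {lab : Sym2 (Fin n) → ℝ} {xs sl s : ℝ} {k r r₀ j₂ : ℕ}
    (hr₀ : r₀ = ⌈(n : ℝ) ^ (1 / 3 - ε)⌉₊) (hpar : HPar a n xs k) (hxs : 0 < xs)
    (hj : 3 * Real.log n ≤ sc xs j₂) (hj' : sc xs j₂ ≤ 4 * Real.log n)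
    (hF : HangFacts lab xs k j₂) (hsl : sl ≤ xs / 25) (hgg : (gg (gr lab xs) univ k).Nonempty)
    (harm : ((univ.filter fun v => TwoArm (gr lab (11 / 10 * xs)) r v).card : ℝ) ≤
      (n : ℝ) ^ (1 / 3 + 3 * a))
    (hup : 2 * (2500 * Real.log n / xs + 2 * r + (n : ℝ) ^ (1 / 3 + 3 * a)) ≤
      (n : ℝ) ^ (1 / 3 + ε))
    (hkh : s ≤ kh xs) (hmac : ∃ v, kh xs ≤ (cmp (gr lab (-xs)) univ v).card)
    (hball : ∀ v, ((ball (gr lab 0) v r₀).card : ℝ) < s)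
    {T : SimpleGraph (Fin n)} (hT : T.IsTree)
    (hl : ∀ (x : ℝ) (γ : ℕ → Fin n) (ℓ : ℕ), IsSAW T.Adj γ ℓ → Rch (gr lab x) univ (γ 0) (γ ℓ) →
        ∀ i < ℓ, lab s(γ i, γ (i + 1)) ≤ x + sl) :
    (n : ℝ) ^ (1 / 3 - ε) ≤ (T.diam : ℝ) ∧ (T.diam : ℝ) ≤ (n : ℝ) ^ (1 / 3 + ε) := by
  constructor
  · obtain ⟨v, hv⟩ := hmac
    have h1 : (ball (gr lab 0) v r₀).card < (cmp (gr lab (-xs)) univ v).card := by
      have h2 : ((ball (gr lab 0) v r₀).card : ℝ) < (kh xs : ℝ) := lt_of_lt_of_le (hball v) hkh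
      have h3 : (ball (gr lab 0) v r₀).card < kh xs := by exact_mod_cast h2
      exact lt_of_lt_of_le h3 hv
    have h2 := r3_low (x₁ := xs) (s := sl) (by linarith) hT hl v h1
    have h3 : (n : ℝ) ^ (1 / 3 - ε) ≤ (r₀ : ℝ) := by
      rw [hr₀]
      exact Nat.le_ceil _
    have h4 : (r₀ : ℝ) ≤ (T.diam : ℝ) := by exact_mod_cast h2.le
    exact h3.trans h4
  · have h1 := h7 (Fin n) (by rw [Fintype.card_fin]; exact hn7) lab xs sl k j₂ r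
      ((n : ℝ) ^ (1 / 3 + 3 * a)) (by rw [Fintype.card_fin]; exact hpar)
      (by rw [Fintype.card_fin]; exact hj) (by rw [Fintype.card_fin]; exact hj') hF hsl hgg harm
      T hT hl
    rw [Fintype.card_fin] at h1
    exact h1.trans hup

theorem regime3 (C ε : ℝ) (hC : 0 < C) (hε : 0 < ε) : ∃ n₀ : ℕ, ∀ n : ℕ, n₀ ≤ n → ∀ β : ℝ,
    C * (n : ℝ) ^ (4 / 3 : ℝ) ≤ β →
    1 - ε ≤ avg n β {T | (n : ℝ) ^ (1 / 3 - ε) ≤ (T.diam : ℝ) ∧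
      (T.diam : ℝ) ≤ (n : ℝ) ^ (1 / 3 + ε)} := by
  obtain ⟨a, ha, ha1, n₁, h1⟩ := r3_par C ε hC hε
  obtain ⟨n₂, h2⟩ := exists_j a ha ha1
  obtain ⟨n₃, h3⟩ := hang_facts_prob a ha ha1
  obtain ⟨n₄, h4⟩ := ev_arms a ha ha1
  obtain ⟨n₅, h5⟩ := ev_macro a ha ha1
  obtain ⟨n₆, h6⟩ := ev_gg a ha ha1
  obtain ⟨n₇, h7⟩ := r3_up a ha ha1
  refine ⟨max n₁ (max n₂ (max n₃ (max n₄ (max n₅ (max n₆ n₇))))), ?_⟩
  intro n hn β hβ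
  simp only [max_le_iff] at hn
  obtain ⟨hn1, hn2, hn3, hn4, hn5, hn6, hn7⟩ := hn
  obtain ⟨hn0, hn2', hβ0, hpar, hslack, hxs, hr₀, hup, hkh, herr, hinv⟩ :=
    h1 n hn1 β hβ _ _ _ _ _ rfl rfl rfl rfl rfl
  obtain ⟨j₂, hj, hj'⟩ := h2 n hn2 _ _ hpar
  obtain ⟨A₁, mA₁, pA₁, fA₁⟩ := h3 n hn3 _ _ j₂ hpar hj hj'
  obtain ⟨mA₂, pA₂⟩ := h4 n hn4 _ _ rfl (Nat.le_ceil (1 / (n : ℝ) ^ (-(1 / 3 : ℝ) + a)))
  obtain ⟨mA₃, pA₃⟩ := h5 n hn5 _ rfl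
  obtain ⟨mA₄, pA₄⟩ := ev_ball n hn0 _ hr₀
    (200 * ((⌈(n : ℝ) ^ (1 / 3 - ε)⌉₊ : ℕ) : ℝ) ^ 2 * Real.log n)
  obtain ⟨mA₅, pA₅⟩ := h6 n hn6 _ _ hpar
  obtain ⟨m12, p12⟩ := lab_inter2 n mA₁ mA₂ pA₁ pA₂
  obtain ⟨m123, p123⟩ := lab_inter2 n m12 mA₃ p12 pA₃
  obtain ⟨m1234, p1234⟩ := lab_inter2 n m123 mA₄ p123 pA₄
  obtain ⟨mA, pA⟩ := lab_inter2 n m1234 mA₅ p1234 pA₅
  have hκ : 0 < β / n := by
    have : (0 : ℝ) < n := by exact_mod_cast hn0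
    positivity
  have key := avg_ge n hn0 β {T : SimpleGraph (Fin n) | (n : ℝ) ^ (1 / 3 - ε) ≤ (T.diam : ℝ) ∧
      (T.diam : ℝ) ≤ (n : ℝ) ^ (1 / 3 + ε)} _ mA (ε / 2) (ε / 2) (pA.trans herr) ?_ (by linarith)
  · calc 1 - ε = 1 - ε / 2 - ε / 2 := by ring
      _ ≤ _ := key
  · rintro ω ⟨⟨⟨⟨hω1, hω2⟩, hω3⟩, hω4⟩, hω5⟩ -
    have : Nonempty (Fin n) := ⟨⟨0, hn0⟩⟩
    have hc : ∀ e, 0 < (fun e => Real.exp (-(β / n) * xlab n ω e)) e := fun e => Real.exp_pos _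
    have htl := tree_labels (xlab n ω) (β / n) hκ (by rw [Fintype.card_fin]; exact hn2')
    have hmono := PT_mono hc (S := {T : SimpleGraph (Fin n) | (n : ℝ) ^ (1 / 3 - ε) ≤
      (T.diam : ℝ) ∧ (T.diam : ℝ) ≤ (n : ℝ) ^ (1 / 3 + ε)}ᶜ)
      (T := {T | ¬ ∀ (x : ℝ) (γ : ℕ → Fin n) (ℓ : ℕ), IsSAW T.Adj γ ℓ →
      Rch (gr (xlab n ω) x) univ (γ 0) (γ ℓ) →
      ∀ i < ℓ, xlab n ω s(γ i, γ (i + 1)) ≤ x + 6 * Real.log (Fintype.card (Fin n)) / (β / n)})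
      (by
        intro T hT hTS hgood
        apply hTS
        simp only [Fintype.card_fin] at hgood
        exact r3_det h7 hn7 rfl hpar hxs hj hj' (fA₁ ω hω1) hslack hω5 hω2 hup hkh hω3 hω4 hT
          hgood)
    rw [PT_compl hc] at hmono
    rw [Fintype.card_fin] at htl hmono
    linarith

end RST.H
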